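import Pool.Agent.W_79d227_kp.Psd

set_option autoImplicit false

/-!
# Conversions between feasible points, rooted systems and pair systems
-/

namespace Pool.Agent.W_79d227_kp

open Finset

variable {V : Type} [Fintype V] [DecidableEq V]

omit [DecidableEq V] in
private theorem Conv_quad (A : V → V → ℝ) (t : ℝ) (d c : V → ℝ) :
    ∑ x, ∑ y, c x * c y * (A x y - t * d x * d y) =
      (∑ x, ∑ y, c x * c y * A x y) - t * (∑ x, c x * d x) ^ 2 := by
  have h1 : (∑ x, c x * d x) ^ 2 = ∑ x, ∑ y, c x * c y * (d x * d y) := by
    rw [pow_two, Finset.sum_mul_sum]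
    apply Finset.sum_congr rfl
    intro x _
    apply Finset.sum_congr rfl
    intro y _
    ring
  rw [h1, Finset.mul_sum, ← Finset.sum_sub_distrib]
  apply Finset.sum_congr rfl
  intro x _
  rw [Finset.mul_sum, ← Finset.sum_sub_distrib]
  apply Finset.sum_congr rfl
  intro y _
  ring

/-- the quadratic form over `Option V` -/
private theorem Conv_form (ν : Finset V → ℝ) (c : Option V → ℝ) :
    ∑ x : Option V, ∑ y : Option V, c x * c y * ν (∅ ∪ x.toFinset ∪ y.toFinset) =
      c none ^ 2 * ν ∅ + 2 * c none * (∑ v, c (some v) * ν {v}) +
        ∑ u, ∑ v, c (some u) * c (some v) * ν {u, v} := by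
  rw [Fintype.sum_option, Fintype.sum_option]
  have h1 : ∀ u : V, ∑ y : Option V, c (some u) * c y * ν (∅ ∪ (some u).toFinset ∪ y.toFinset) =
      c none * (c (some u) * ν {u}) + ∑ v, c (some u) * c (some v) * ν {u, v} := by
    intro u
    rw [Fintype.sum_option]
    have e1 : (∅ ∪ (some u).toFinset ∪ (none : Option V).toFinset : Finset V) = {u} := by
      ext z; simp
    rw [e1]
    have e2 : ∀ v : V, (∅ ∪ (some u).toFinset ∪ (some v).toFinset : Finset V) = {u, v} := by
      intro v
      ext z; simp
    rw [Finset.sum_congr rfl (fun v _ => by rw [e2 v])]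
    ring
  rw [Finset.sum_congr rfl (fun u _ => h1 u), Finset.sum_add_distrib, ← Finset.mul_sum]
  have e3 : (∅ ∪ (none : Option V).toFinset ∪ (none : Option V).toFinset : Finset V) = ∅ := by
    ext z; simp
  have e4 : ∀ v : V, (∅ ∪ (none : Option V).toFinset ∪ (some v).toFinset : Finset V) = {v} := by
    intro v
    ext z; simp
  rw [e3]
  have e5 : ∑ v : V, c none * c (some v) * ν (∅ ∪ (none : Option V).toFinset ∪
      (some v).toFinset) = c none * ∑ v, c (some v) * ν {v} := by
    rw [Finset.mul_sum]
    apply Finset.sum_congr rfl
    intro v _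
    rw [e4 v]
    ring
  rw [e5]
  ring

/-- the case `Q = ∅` of both constructions -/
private theorem Conv_empty {ν : Finset V → ℝ} {t : ℝ} (ht : 0 ≤ t) {d : V → ℝ} {X : V → V → ℝ}
    (h0 : ν ∅ = 1) (h1 : ∀ v, ν {v} = t * d v) (h2 : ∀ u v, ν {u, v} = t * X u v)
    (hX : PSD (fun x y : V => X x y - t * d x * d y)) :
    PSD (fun x y : Option V => ν (∅ ∪ x.toFinset ∪ y.toFinset)) := by
  constructor
  · intro x y
    dsimp only
    rw [Finset.union_assoc, Finset.union_comm x.toFinset, ← Finset.union_assoc]
  · intro c
    rw [Conv_form, h0]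
    have h3 := hX.2 (fun v => c (some v))
    rw [Conv_quad X t d (fun v => c (some v))] at h3
    have h4 : ∑ v, c (some v) * ν {v} = t * ∑ v, c (some v) * d v := by
      rw [Finset.mul_sum]
      apply Finset.sum_congr rfl
      intro v _
      rw [h1 v]
      ring
    have h5 : ∑ u, ∑ v, c (some u) * c (some v) * ν {u, v} =
        t * ∑ u, ∑ v, c (some u) * c (some v) * X u v := by
      rw [Finset.mul_sum]
      apply Finset.sum_congr rfl
      intro u _
      rw [Finset.mul_sum]
      apply Finset.sum_congr rfl
      intro v _
      rw [h2 u v]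
      ring
    rw [h4, h5]
    generalize (∑ v, c (some v) * d v) = S at h3 ⊢
    generalize (∑ u, ∑ v, c (some u) * c (some v) * X u v) = W at h3 ⊢
    have h6 : 0 ≤ t * (W - t * S ^ 2) := mul_nonneg ht h3
    have h7 : 0 ≤ (c none + t * S) ^ 2 := sq_nonneg _
    nlinarith

/-- PROOF. `ν I = t X x y` for `I = {x, y}`. Take `ν I = 1` if `I = ∅`, `t * ∑_{x ∈ I} X x x` if `I.card = 1`,
`t * (∑_{x ∈ I} ∑_{y ∈ I.erase x} X x y) / 2` if `I.card = 2`, and `0` otherwise; so `ν {x, y} = t X x y` for all
`x, y` (`X` is symmetric since `X - t d d` is). For `Q = ∅` (the only case of `Q.card + 2 ≤ 2`) the form is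
`c_0² + 2 c_0 t ∑ c_v d_v + t ∑ ∑ c_u c_v X u v ≥ (c_0 + t ∑ c_v d_v)²`. -/
theorem kpoint_of_pair {G : SimpleGraph V} {t : ℝ} (ht : 0 ≤ t) {d : V → ℝ} {X : V → V → ℝ}
    (hX : Pair G t d X) (h0 : ∀ u v, 0 ≤ X u v) :
    ∃ ν : Finset V → ℝ, KPoint G 2 ν ∧ ∀ v, ν {v} = t * d v := by
  have hsym : ∀ u v, X u v = X v u := by
    intro u v
    have h := hX.top.1 u v
    dsimp only at h
    linarith
  set ν : Finset V → ℝ := fun I => if I = ∅ then 1 else if I.card = 1 then
    t * ∑ x ∈ I, X x x else if I.card = 2 then
    t * ((∑ x ∈ I, ∑ y ∈ I.erase x, X x y) / 2) else 0 with hν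
  have e0 : ν ∅ = 1 := by
    rw [hν]
    exact if_pos rfl
  have e1 : ∀ v, ν {v} = t * d v := by
    intro v
    rw [hν]
    dsimp only
    rw [if_neg (Finset.singleton_ne_empty v), if_pos (Finset.card_singleton v),
      Finset.sum_singleton, hX.diag]
  have e2 : ∀ u v, ν {u, v} = t * X u v := by
    intro u v
    by_cases huv : u = v
    · subst huv
      rw [Finset.pair_eq_singleton, e1, hX.diag]
    · have hc : ({u, v} : Finset V).card = 2 := Finset.card_pair huv
      have hne : ({u, v} : Finset V) ≠ ∅ := Finset.insert_ne_empty _ _
      rw [hν]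
      dsimp only
      rw [if_neg hne, if_neg (by rw [hc]; norm_num), if_pos hc, Finset.sum_pair huv]
      have h3 : ({u, v} : Finset V).erase u = {v} := by
        ext z
        simp only [Finset.mem_erase, Finset.mem_insert, Finset.mem_singleton]
        constructor
        · rintro ⟨h1, h2 | h2⟩
          · exact absurd h2 h1
          · exact h2
        · intro h
          exact ⟨fun h' => huv (h'.symm.trans h), Or.inr h⟩
      have h4 : ({u, v} : Finset V).erase v = {u} := by
        ext z
        simp only [Finset.mem_erase, Finset.mem_insert, Finset.mem_singleton]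
        constructor
        · rintro ⟨h1, h2 | h2⟩
          · exact h2
          · exact absurd h2 h1
        · intro h
          exact ⟨fun h' => huv (h.symm.trans h'), Or.inl h⟩
      rw [h3, h4, Finset.sum_singleton, Finset.sum_singleton, hsym v u]
      ring
  refine ⟨ν, ⟨e0, ?_, ?_, ?_⟩, e1⟩
  · intro I
    rw [hν]
    dsimp only
    split_ifs
    · exact zero_le_one
    · exact mul_nonneg ht (Finset.sum_nonneg fun x _ => h0 x x)
    · exact mul_nonneg ht (div_nonneg (Finset.sum_nonneg fun x _ =>
        Finset.sum_nonneg fun y _ => h0 x y) (by norm_num))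
    · exact le_refl _
  · intro I a ha b hb hab
    have hne : a ≠ b := hab.ne
    have hsub : ({a, b} : Finset V) ⊆ I := by
      intro z hz
      rw [Finset.mem_insert, Finset.mem_singleton] at hz
      rcases hz with h | h
      · rw [h]; exact ha
      · rw [h]; exact hb
    have hc2 : 2 ≤ I.card := by
      rw [← Finset.card_pair hne]
      exact Finset.card_le_card hsub
    by_cases hc : I.card = 2
    · have hI : I = {a, b} := by
        symm
        apply Finset.eq_of_subset_of_card_le hsub
        rw [hc, Finset.card_pair hne]
      rw [hI, e2, hX.edge a b hab, mul_zero]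
    · rw [hν]
      dsimp only
      rw [if_neg (Finset.ne_empty_of_mem ha), if_neg (by omega), if_neg hc]
  · intro Q hQ
    have hQ0 : Q = ∅ := by
      rw [← Finset.card_eq_zero]
      omega
    rw [hQ0]
    exact Conv_empty ht e0 e1 e2 hX.top

/-- PROOF. `ν' I = t ν I` for `I ≠ ∅`, `ν' ∅ = 1`. For `Q = ∅` as in `kpoint_of_pair`; for `Q ≠ ∅` the row of
`none` is the row of an element `q ∈ Q` (`PSD.pull` along `Option V → V`, `none ↦ q`). -/
theorem kpoint_of_rsys {G : SimpleGraph V} {k : ℕ} {t : ℝ} (ht : 0 ≤ t) {d : V → ℝ}
    {ν : Finset V → ℝ} (h : RSys G k t d ν) :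
    KPoint G k (fun I => if I = ∅ then 1 else t * ν I) := by
  refine ⟨if_pos rfl, ?_, ?_, ?_⟩
  · intro I
    split_ifs
    · exact zero_le_one
    · exact mul_nonneg ht (h.nonneg I)
  · intro I a ha b hb hab
    rw [if_neg (Finset.ne_empty_of_mem ha), h.indep I a ha b hb hab, mul_zero]
  · intro Q hQ
    rcases Finset.eq_empty_or_nonempty Q with h0 | h0
    · rw [h0]
      refine Conv_empty (ν := fun I => if I = ∅ then 1 else t * ν I) ht (d := d)
        (X := fun x y => ν {x, y}) (if_pos rfl) ?_ ?_ h.top
      · intro v
        rw [if_neg (Finset.singleton_ne_empty v), h.sing]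
      · intro u v
        rw [if_neg (Finset.insert_ne_empty _ _)]
    · obtain ⟨q, hq⟩ := h0
      have h1 := (h.psd Q ⟨q, hq⟩ hQ).pull (fun x : Option V => x.getD q)
      have h2 := h1.smul ht
      have e : (fun x y : Option V => (fun I => if I = ∅ then (1 : ℝ) else t * ν I)
          (Q ∪ x.toFinset ∪ y.toFinset)) =
          (fun x y : Option V => t * ν (insert (x.getD q) (insert (y.getD q) Q))) := by
        funext x y
        have hne : Q ∪ x.toFinset ∪ y.toFinset ≠ ∅ :=
          Finset.ne_empty_of_mem (Finset.mem_union_left _ (Finset.mem_union_left _ hq))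
        have he : Q ∪ x.toFinset ∪ y.toFinset = insert (x.getD q) (insert (y.getD q) Q) := by
          ext z
          cases x with
          | none =>
            cases y with
            | none =>
              simp only [Option.toFinset_none, Finset.union_empty, Option.getD_none,
                Finset.mem_insert]
              constructor
              · intro hz
                exact Or.inr (Or.inr hz)
              · rintro (hz | hz | hz)
                · rw [hz]; exact hq
                · rw [hz]; exact hq
                · exact hz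
            | some b =>
              simp only [Option.toFinset_none, Option.toFinset_some, Finset.union_empty,
                Option.getD_none, Option.getD_some, Finset.mem_insert, Finset.mem_union,
                Finset.mem_singleton]
              constructor
              · rintro (hz | hz)
                · exact Or.inr (Or.inr hz)
                · exact Or.inr (Or.inl hz)
              · rintro (hz | hz | hz)
                · rw [hz]; exact Or.inl hq
                · exact Or.inr hz
                · exact Or.inl hz
          | some a =>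
            cases y with
            | none =>
              simp only [Option.toFinset_none, Option.toFinset_some, Finset.union_empty,
                Option.getD_none, Option.getD_some, Finset.mem_insert, Finset.mem_union,
                Finset.mem_singleton]
              constructor
              · rintro (hz | hz)
                · exact Or.inr (Or.inr hz)
                · exact Or.inl hz
              · rintro (hz | hz | hz)
                · exact Or.inr hz
                · rw [hz]; exact Or.inl hq
                · exact Or.inl hz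
            | some b =>
              simp only [Option.toFinset_some, Option.getD_some, Finset.mem_insert,
                Finset.mem_union, Finset.mem_singleton]
              tauto
        dsimp only
        rw [if_neg hne, he]
      rw [e]
      exact h2

/-- PROOF. `PSD.pull` along `some` for `Q ≠ ∅`; for the pairs take `c none = - ∑ c_v ν {v}`. -/
theorem rsys_of_kpoint {G : SimpleGraph V} {k : ℕ} (hk : 2 ≤ k) {ν : Finset V → ℝ}
    (h : KPoint G k ν) (ht : 0 < ∑ v, ν {v}) :
    RSys G k (∑ v, ν {v}) (fun v => ν {v} / ∑ v, ν {v}) (fun I => ν I / ∑ v, ν {v}) := by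
  generalize hT : (∑ v, ν {v}) = T at ht ⊢
  have hT0 : T ≠ 0 := ht.ne'
  refine ⟨fun v => rfl, fun I => div_nonneg (h.nonneg I) ht.le, ?_, ?_, ?_⟩
  · intro I a ha b hb hab
    rw [h.indep I a ha b hb hab, zero_div]
  · intro Q _ hQ
    have h1 := ((h.psd Q hQ).pull (fun x : V => some x)).smul (inv_nonneg.2 ht.le)
    have e : (fun x y : V => ν (insert x (insert y Q)) / T) =
        (fun x y : V => T⁻¹ * ν (Q ∪ (some x).toFinset ∪ (some y).toFinset)) := by
      funext x y
      have he : Q ∪ (some x).toFinset ∪ (some y).toFinset = insert x (insert y Q) := by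
        ext z
        simp only [Option.toFinset_some, Finset.mem_insert, Finset.mem_union,
          Finset.mem_singleton]
        tauto
      rw [he, div_eq_inv_mul]
    rw [e]
    exact h1
  · constructor
    · intro x y
      dsimp only
      rw [Finset.pair_comm x y]
      ring
    · intro c
      have h1 := (h.psd ∅ (by rw [Finset.card_empty]; omega)).2
        (fun x : Option V => x.elim (- ∑ v, c v * ν {v}) c)
      rw [Conv_form, h.empty] at h1
      simp only [Option.elim_none, Option.elim_some] at h1
      have e : ∑ x, ∑ y, c x * c y * (ν {x, y} / T - T * (ν {x} / T) * (ν {y} / T)) =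
          T⁻¹ * ∑ x, ∑ y, c x * c y * (ν {x, y} - 1 * ν {x} * ν {y}) := by
        rw [Finset.mul_sum]
        apply Finset.sum_congr rfl
        intro x _
        rw [Finset.mul_sum]
        apply Finset.sum_congr rfl
        intro y _
        field_simp
      rw [e, Conv_quad (fun x y => ν {x, y}) 1 (fun x => ν {x}) c]
      apply mul_nonneg (inv_nonneg.2 ht.le)
      nlinarith

/-- the same for pair systems -/
theorem pair_of_theta {G : SimpleGraph V} {y : V → ℝ} {Y : V → V → ℝ} (h : ThetaFeas G y Y)
    (ht : 0 < ∑ v, y v) :
    Pair G (∑ v, y v) (fun v => y v / ∑ v, y v) (fun u v => Y u v / ∑ v, y v) := by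
  generalize hT : (∑ v, y v) = T at ht ⊢
  have hT0 : T ≠ 0 := ht.ne'
  obtain ⟨hs, hd, he, hp⟩ := h
  refine ⟨?_, ?_, ?_⟩
  · intro v
    rw [hd v]
  · intro u v huv
    rw [he u v huv, zero_div]
  · constructor
    · intro u v
      dsimp only
      rw [hs u v]
      ring
    · intro c
      have h1 := hp (- ∑ v, c v * y v) c
      have e : ∑ u, ∑ v, c u * c v * (Y u v / T - T * (y u / T) * (y v / T)) =
          T⁻¹ * ∑ u, ∑ v, c u * c v * (Y u v - 1 * y u * y v) := by
        rw [Finset.mul_sum]
        apply Finset.sum_congr rfl
        intro x _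
        rw [Finset.mul_sum]
        apply Finset.sum_congr rfl
        intro y _
        field_simp
      rw [e, Conv_quad Y 1 y c]
      apply mul_nonneg (inv_nonneg.2 ht.le)
      nlinarith

end Pool.Agent.W_79d227_kp
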