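import Pool.Agent.W_79d227_kp.ExtPsd

set_option autoImplicit false

/-!
# The extension in the coordinate `i` of a word
-/

namespace Pool.Agent.W_79d227_kp

open Finset

variable {V : Type} [Fintype V] [DecidableEq V]

/-- the word without its coordinate `i`, and this coordinate (`Fin.insertNthEquiv` is the inverse) -/
def spl {n : ℕ} (i : Fin (n + 1)) (z : Fin (n + 1) → V) : V × (Fin n → V) := (z i, i.removeNth z)

omit [Fintype V] [DecidableEq V] in
private theorem Coord_spl_injective {n : ℕ} (i : Fin (n + 1)) :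
    Function.Injective (spl (V := V) i) := by
  intro x y h
  have h1 : x i = y i := congrArg Prod.fst h
  have h2 : i.removeNth x = i.removeNth y := congrArg Prod.snd h
  rw [← Fin.insertNth_self_removeNth i x, ← Fin.insertNth_self_removeNth i y, h1, h2]

theorem spl_bijective {n : ℕ} (i : Fin (n + 1)) : Function.Bijective (spl (V := V) i) := by
  refine ⟨Coord_spl_injective i, ?_⟩
  rintro ⟨a, w⟩
  refine ⟨i.insertNth (α := fun _ => V) a w, ?_⟩
  simp [spl]

/-- the extension in the coordinate `i` -/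
noncomputable def extI {n : ℕ} (s : ℝ) (μ : Finset V → ℝ) (νn : Finset (Fin n → V) → ℝ)
    (i : Fin (n + 1)) (I : Finset (Fin (n + 1) → V)) : ℝ :=
  extN s μ νn (I.image (spl i))

/-- the rows with a defect in the coordinate `i` -/
def DefI (G : SimpleGraph V) (k : ℕ) {n : ℕ} (i : Fin (n + 1)) (Q : Finset (Fin (n + 1) → V))
    (x : Fin (n + 1) → V) : Prop :=
  Q.card + 2 = k ∧ x ∉ Q ∧ (∀ q ∈ Q, i.removeNth q = i.removeNth x) ∧
    Ind G (insert (x i) (Q.image (fun z => z i)))

variable {G : SimpleGraph V} {k n : ℕ} {s t : ℝ} {d : V → ℝ} {μ : Finset V → ℝ}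
  {νn : Finset (Fin n → V) → ℝ}

omit [Fintype V] [DecidableEq V] in
private theorem Coord_prod (d : V → ℝ) (i : Fin (n + 1)) (z : Fin (n + 1) → V) :
    d (spl i z).1 * ∏ j, d ((spl i z).2 j) = ∏ j, d (z j) := by
  rw [Fin.prod_univ_succAbove (fun j => d (z j)) i]
  rfl

omit [Fintype V] [DecidableEq V] in
private theorem Coord_prod_erase (d : V → ℝ) (i : Fin (n + 1)) (z : Fin (n + 1) → V) :
    ∏ j, d ((spl i z).2 j) = ∏ j ∈ univ.erase i, d (z j) := by
  have h : (univ.erase i : Finset (Fin (n + 1))) = univ.image i.succAbove := by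
    ext j
    simp only [mem_erase, mem_univ, and_true, mem_image, true_and]
    exact ⟨fun hj => Fin.exists_succAbove_eq hj, fun ⟨l, hl⟩ => hl ▸ Fin.succAbove_ne i l⟩
  rw [h, Finset.prod_image]
  · rfl
  · intro a _ b _ hab
    exact Fin.succAbove_right_injective hab

theorem extI_sing (hs : 0 < s) (hμ : RSys G (k - 1) s d μ)
    (hν : RSys (powG G n) k t (fun z => ∏ j, d (z j)) νn) (i : Fin (n + 1))
    (z : Fin (n + 1) → V) : extI s μ νn i {z} = ∏ j, d (z j) := by
  unfold extI
  rw [Finset.image_singleton, extN_sing hs hμ.sing hν.sing]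
  exact Coord_prod d i z

theorem extI_nonneg (hs : 0 < s) (hμ : RSys G (k - 1) s d μ)
    (hν : RSys (powG G n) k t (fun z => ∏ j, d (z j)) νn) (i : Fin (n + 1))
    (I : Finset (Fin (n + 1) → V)) : 0 ≤ extI s μ νn i I :=
  extN_nonneg hs hμ.nonneg hν.nonneg _

omit [Fintype V] [DecidableEq V] in
private theorem Coord_adj (i : Fin (n + 1)) {a b : Fin (n + 1) → V}
    (h : (powG G (n + 1)).Adj a b) : (strongG G (powG G n)).Adj (spl i a) (spl i b) := by
  obtain ⟨hne, hc⟩ := h
  refine ⟨fun he => hne (Coord_spl_injective i he), hc i, ?_⟩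
  by_cases he : (spl i a).2 = (spl i b).2
  · exact Or.inl he
  · exact Or.inr ⟨he, fun j => hc (i.succAbove j)⟩

/-- adjacent words of `G ^ (n + 1)` are mapped by `spl i` to adjacent vertices of `strongG G (powG G n)` -/
theorem extI_indep (hμ : RSys G (k - 1) s d μ)
    (hν : RSys (powG G n) k t (fun z => ∏ j, d (z j)) νn) (i : Fin (n + 1))
    (I : Finset (Fin (n + 1) → V)) :
    ∀ a ∈ I, ∀ b ∈ I, (powG G (n + 1)).Adj a b → extI s μ νn i I = 0 := by
  intro a ha b hb hab
  exact extN_indep hμ.indep hν.indep _ (spl i a) (mem_image_of_mem _ ha) (spl i b)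
    (mem_image_of_mem _ hb) (Coord_adj i hab)

theorem extI_top (hs : 0 < s) (hμ : RSys G (k - 1) s d μ)
    (hν : RSys (powG G n) k t (fun z => ∏ j, d (z j)) νn) (i : Fin (n + 1)) :
    PSD (fun x y : Fin (n + 1) → V => extI s μ νn i {x, y} -
      s * t * (∏ j, d (x j)) * (∏ j, d (y j))) := by
  have h := (extN_top hs hμ hν).pull (spl (V := V) i)
  have e : (fun x y : Fin (n + 1) → V => extI s μ νn i {x, y} -
      s * t * (∏ j, d (x j)) * (∏ j, d (y j))) =
      fun x y : Fin (n + 1) → V => extN s μ νn {spl i x, spl i y} -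
        s * t * (d (spl i x).1 * ∏ j, d ((spl i x).2 j)) *
          (d (spl i y).1 * ∏ j, d ((spl i y).2 j)) := by
    funext x y
    rw [Coord_prod, Coord_prod]
    unfold extI
    rw [Finset.image_insert, Finset.image_singleton]
  rw [e]
  exact h

open Classical in
/-- the defect of the row `x` in the coordinate `i` -/
noncomputable def dfI (G : SimpleGraph V) (k : ℕ) (C : ℝ) (d : V → ℝ) {n : ℕ} (i : Fin (n + 1))
    (Q : Finset (Fin (n + 1) → V)) (x : Fin (n + 1) → V) : ℝ :=
  if DefI G k i Q x then C * ∏ j ∈ univ.erase i, d (x j) else 0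

omit [Fintype V] in
private theorem Coord_def (i : Fin (n + 1)) (Q : Finset (Fin (n + 1) → V))
    (x : Fin (n + 1) → V) : Def G k (Q.image (spl i)) (spl i x) ↔ DefI G k i Q x := by
  unfold Def DefI
  rw [Finset.card_image_of_injective Q (Coord_spl_injective i)]
  have h1 : spl i x ∉ Q.image (spl i) ↔ x ∉ Q := by
    rw [(Coord_spl_injective (V := V) i).mem_finset_image]
  have h2 : (∀ q ∈ Q.image (spl i), q.2 = (spl i x).2) ↔
      ∀ q ∈ Q, i.removeNth q = i.removeNth x := by
    simp only [mem_image, forall_exists_index, and_imp, forall_apply_eq_imp_iff₂]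
    rfl
  have h3 : (Q.image (spl i)).image Prod.fst = Q.image (fun z => z i) := by
    rw [Finset.image_image]
    rfl
  rw [h1, h2, h3]
  rfl

private theorem Coord_dft (C : ℝ) (i : Fin (n + 1)) (Q : Finset (Fin (n + 1) → V))
    (x : Fin (n + 1) → V) :
    dft G k C (fun z : Fin n → V => ∏ j, d (z j)) (Q.image (spl i)) (spl i x) =
      dfI G k C d i Q x := by
  unfold dft dfI
  by_cases h : DefI G k i Q x
  · rw [if_pos h, if_pos ((Coord_def i Q x).2 h)]
    beta_reduce
    rw [Coord_prod_erase]
  · rw [if_neg h, if_neg (fun h' => h ((Coord_def i Q x).1 h'))]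

/-- `extN_psd` pulled back along `spl i` -/
theorem extI_psd (hk : 3 ≤ k) (hs : 0 < s) {C : ℝ} (hμ : RSys G (k - 1) s d μ)
    (hν : RSys (powG G n) k t (fun z => ∏ j, d (z j)) νn) (hC : CBound G k μ C)
    (i : Fin (n + 1)) {Q : Finset (Fin (n + 1) → V)} (hQ : Q.Nonempty) (hQk : Q.card + 2 ≤ k) :
    PSD (fun x y : Fin (n + 1) → V => extI s μ νn i (insert x (insert y Q)) +
      if x = y then dfI G k C d i Q x else 0) := by
  have h := (extN_psd hk hs hμ hν hC (hQ.image (spl i))
    (by rwa [Finset.card_image_of_injective Q (Coord_spl_injective i)])).pull (spl (V := V) i)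
  have e : (fun x y : Fin (n + 1) → V => extI s μ νn i (insert x (insert y Q)) +
      if x = y then dfI G k C d i Q x else 0) =
      fun x y : Fin (n + 1) → V =>
        extN s μ νn (insert (spl i x) (insert (spl i y) (Q.image (spl i)))) +
        if spl i x = spl i y then
          dft G k C (fun z : Fin n → V => ∏ j, d (z j)) (Q.image (spl i)) (spl i x) else 0 := by
    funext x y
    rw [Coord_dft]
    unfold extI
    rw [Finset.image_insert, Finset.image_insert]
    by_cases hxy : x = y
    · rw [if_pos hxy, if_pos (by rw [hxy])]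
    · rw [if_neg hxy, if_neg (fun h' => hxy (Coord_spl_injective i h'))]
  rw [e]
  exact h

/-- at most one coordinate gives a defect in a given row -/
theorem defI_unique {Q : Finset (Fin (n + 1) → V)} (hQ : Q.Nonempty) {x : Fin (n + 1) → V}
    {i j : Fin (n + 1)} (hi : DefI G k i Q x) (hj : DefI G k j Q x) : i = j := by
  by_contra hij
  obtain ⟨q, hq⟩ := hQ
  have h1 := hi.2.2.1 q hq
  have h2 := hj.2.2.1 q hq
  refine hi.2.1 ?_
  have : q = x := by
    funext l
    by_cases hl : l = i
    · obtain ⟨m, hm⟩ := Fin.exists_succAbove_eq (fun h : l = j => hij (hl.symm.trans h))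
      have := congrFun h2 m
      simpa [Fin.removeNth, hm] using this
    · obtain ⟨m, hm⟩ := Fin.exists_succAbove_eq hl
      have := congrFun h1 m
      simpa [Fin.removeNth, hm] using this
  rwa [← this]

end Pool.Agent.W_79d227_kp
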