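import Mathlib

set_option autoImplicit false

/-!
# MP_79d227_co: k-point semidefinite bounds of the strong powers, definitions
-/

namespace Pool.Agent.W_79d227_kp

open Finset

/-- symmetric positive semidefinite kernels on a finite type -/
def PSD {X : Type} [Fintype X] (K : X → X → ℝ) : Prop :=
  (∀ x y, K x y = K y x) ∧ ∀ c : X → ℝ, 0 ≤ ∑ x, ∑ y, c x * c y * K x y

/-- the strong power `G ^ n`: distinct words are adjacent if in every coordinate they are equal or
adjacent -/
def powG {V : Type} (G : SimpleGraph V) (n : ℕ) : SimpleGraph (Fin n → V) where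
  Adj x y := x ≠ y ∧ ∀ i, x i = y i ∨ G.Adj (x i) (y i)
  symm := ⟨fun _ _ h => ⟨h.1.symm, fun i => (h.2 i).imp Eq.symm fun h => h.symm⟩⟩
  loopless := ⟨fun _ h => h.1 rfl⟩

/-- Feasible points of the `k`-point bound: `ν ∅ = 1`, `ν ≥ 0`, `ν I = 0` if `I` contains an edge,
and for every `Q` with at most `k - 2` elements the matrix `ν (Q ∪ x ∪ y)`, `x, y` vertices or
`none` (no vertex), is positive semidefinite. -/
structure KPoint {V : Type} [Fintype V] [DecidableEq V] (G : SimpleGraph V) (k : ℕ)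
    (ν : Finset V → ℝ) : Prop where
  empty : ν ∅ = 1
  nonneg : ∀ I, 0 ≤ ν I
  indep : ∀ I, ∀ a ∈ I, ∀ b ∈ I, G.Adj a b → ν I = 0
  psd : ∀ Q : Finset V, Q.card + 2 ≤ k →
    PSD (fun x y : Option V => ν (Q ∪ x.toFinset ∪ y.toFinset))

/-- the `k`-point bound (`k = 2`: Schrijver's number) -/
noncomputable def kPoint {V : Type} [Fintype V] [DecidableEq V] (G : SimpleGraph V) (k : ℕ) : ℝ :=
  sSup {t | ∃ ν : Finset V → ℝ, KPoint G k ν ∧ ∑ v, ν {v} = t}

/-- Feasible points of the Lovász number: `y v = Y v v`, `Y` vanishes on the edges, and the matrix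
`Y` bordered by `y` and `1` is positive semidefinite. -/
def ThetaFeas {V : Type} [Fintype V] (G : SimpleGraph V) (y : V → ℝ) (Y : V → V → ℝ) : Prop :=
  (∀ u v, Y u v = Y v u) ∧ (∀ v, Y v v = y v) ∧ (∀ u v, G.Adj u v → Y u v = 0) ∧
  ∀ (a : ℝ) (c : V → ℝ),
    0 ≤ a ^ 2 + 2 * a * ∑ v, c v * y v + ∑ u, ∑ v, c u * c v * Y u v

/-- the Lovász number -/
noncomputable def lovaszTheta {V : Type} [Fintype V] (G : SimpleGraph V) : ℝ :=
  sSup {t | ∃ (y : V → ℝ) (Y : V → V → ℝ), ThetaFeas G y Y ∧ ∑ v, y v = t}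

/-- Rooted systems with weights `d` and value `t`: the same conditions, but only for nonempty `Q`
(they are homogeneous), and for the pairs `ν {x, y} ≥ t d d^T`. -/
structure RSys {V : Type} [Fintype V] [DecidableEq V] (G : SimpleGraph V) (k : ℕ) (t : ℝ)
    (d : V → ℝ) (ν : Finset V → ℝ) : Prop where
  sing : ∀ v, ν {v} = d v
  nonneg : ∀ I, 0 ≤ ν I
  indep : ∀ I, ∀ a ∈ I, ∀ b ∈ I, G.Adj a b → ν I = 0
  psd : ∀ Q : Finset V, Q.Nonempty → Q.card + 2 ≤ k →
    PSD (fun x y : V => ν (insert x (insert y Q)))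
  top : PSD (fun x y : V => ν {x, y} - t * d x * d y)

/-- Signed pair systems with weights `d` and value `t`. -/
structure Pair {V : Type} [Fintype V] (G : SimpleGraph V) (t : ℝ) (d : V → ℝ)
    (X : V → V → ℝ) : Prop where
  diag : ∀ v, X v v = d v
  edge : ∀ u v, G.Adj u v → X u v = 0
  top : PSD (fun x y : V => X x y - t * d x * d y)

/-- independent sets -/
def Ind {V : Type} (G : SimpleGraph V) (S : Finset V) : Prop := ∀ a ∈ S, ∀ b ∈ S, ¬ G.Adj a b

end Pool.Agent.W_79d227_kp
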