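import Pool.Agent.W_79d227_kp.Psd

set_option autoImplicit false
set_option linter.unusedSectionVars false

/-!
# The extension of a rooted system by a base, k ≥ 3

`μ` is a rooted `(k-1)`-system on `G` (vertex set `V`) of value `s`, zero on the sets with at least `k` elements,
`ν'` a rooted `k`-system on `H` (vertex set `W`) of value `t`.
-/

namespace Pool.Agent.W_79d227_kp

open Finset

variable {V W : Type} [Fintype V] [DecidableEq V] [Fintype W] [DecidableEq W]

/-- the fibre of `I` over `w` -/
def fib (I : Finset (V × W)) (w : W) : Finset V := (I.filter (fun p => p.2 = w)).image Prod.fst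

/-- the moments of a fibre: `1` for the empty set, `s μ S` otherwise -/
noncomputable def mom (s : ℝ) (μ : Finset V → ℝ) (S : Finset V) : ℝ := if S = ∅ then 1 else s * μ S

/-- the extension -/
noncomputable def extN (s : ℝ) (μ : Finset V → ℝ) (ν' : Finset W → ℝ) (I : Finset (V × W)) : ℝ :=
  s⁻¹ * ν' (I.image Prod.snd) * ∏ w, mom s μ (fib I w)

/-- the strong product -/
def strongG (G : SimpleGraph V) (H : SimpleGraph W) : SimpleGraph (V × W) where
  Adj x y := x ≠ y ∧ (x.1 = y.1 ∨ G.Adj x.1 y.1) ∧ (x.2 = y.2 ∨ H.Adj x.2 y.2)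
  symm := ⟨fun _ _ h =>
    ⟨h.1.symm, h.2.1.imp Eq.symm fun h => h.symm, h.2.2.imp Eq.symm fun h => h.symm⟩⟩
  loopless := ⟨fun _ h => h.1 rfl⟩

omit [Fintype V] [Fintype W] in
theorem fib_insert (I : Finset (V × W)) (x : V × W) (w : W) :
    fib (insert x I) w = if x.2 = w then insert x.1 (fib I w) else fib I w := by
  unfold fib
  rw [Finset.filter_insert]
  split_ifs with h
  · rw [Finset.image_insert]
  · rfl

omit [Fintype V] [Fintype W] in
private theorem Ext_fib_empty (w : W) : fib (∅ : Finset (V × W)) w = ∅ := by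
  simp [fib]

omit [Fintype V] [Fintype W] in
private theorem Ext_fib_sing (x : V × W) (w : W) :
    fib ({x} : Finset (V × W)) w = if x.2 = w then {x.1} else ∅ := by
  have h := fib_insert (∅ : Finset (V × W)) x w
  rw [Ext_fib_empty] at h
  simpa using h

theorem extN_sing {s : ℝ} (hs : 0 < s) {d : V → ℝ} {d' : W → ℝ} {μ : Finset V → ℝ}
    {ν' : Finset W → ℝ} (hμ : ∀ v, μ {v} = d v) (hν : ∀ w, ν' {w} = d' w) (x : V × W) :
    extN s μ ν' {x} = d x.1 * d' x.2 := by
  have h1 : ∀ w, mom s μ (fib ({x} : Finset (V × W)) w) = if x.2 = w then s * d x.1 else 1 := by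
    intro w
    rw [Ext_fib_sing]
    split_ifs with h
    · unfold mom
      rw [if_neg (Finset.singleton_ne_empty _), hμ]
    · simp [mom]
  unfold extN
  rw [Finset.prod_congr rfl fun w _ => h1 w, Finset.prod_ite_eq, if_pos (Finset.mem_univ _),
    Finset.image_singleton, hν]
  field_simp

theorem extN_nonneg {s : ℝ} (hs : 0 < s) {μ : Finset V → ℝ} {ν' : Finset W → ℝ}
    (hμ : ∀ S, 0 ≤ μ S) (hν : ∀ S, 0 ≤ ν' S) (I : Finset (V × W)) : 0 ≤ extN s μ ν' I := by
  unfold extN
  refine mul_nonneg (mul_nonneg (inv_nonneg.2 hs.le) (hν _)) (Finset.prod_nonneg fun w _ => ?_)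
  unfold mom
  split_ifs
  · norm_num
  · exact mul_nonneg hs.le (hμ _)

theorem extN_indep {G : SimpleGraph V} {H : SimpleGraph W} {s : ℝ} {μ : Finset V → ℝ}
    {ν' : Finset W → ℝ} (hμ : ∀ I, ∀ a ∈ I, ∀ b ∈ I, G.Adj a b → μ I = 0)
    (hν : ∀ I, ∀ a ∈ I, ∀ b ∈ I, H.Adj a b → ν' I = 0) (I : Finset (V × W)) :
    ∀ a ∈ I, ∀ b ∈ I, (strongG G H).Adj a b → extN s μ ν' I = 0 := by
  rintro a ha b hb ⟨hne, h1, h2⟩
  unfold extN
  rcases h2 with h2 | h2
  · have h3 : G.Adj a.1 b.1 := by
      rcases h1 with h1 | h1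
      · exact absurd (Prod.ext h1 h2) hne
      · exact h1
    have ha' : a.1 ∈ fib I a.2 :=
      Finset.mem_image.2 ⟨a, Finset.mem_filter.2 ⟨ha, rfl⟩, rfl⟩
    have hb' : b.1 ∈ fib I a.2 :=
      Finset.mem_image.2 ⟨b, Finset.mem_filter.2 ⟨hb, h2.symm⟩, rfl⟩
    have h4 : mom s μ (fib I a.2) = 0 := by
      unfold mom
      rw [if_neg (Finset.ne_empty_of_mem ha'), hμ _ _ ha' _ hb' h3, mul_zero]
    rw [Finset.prod_eq_zero (Finset.mem_univ a.2) h4, mul_zero]
  · rw [hν _ a.2 (Finset.mem_image_of_mem _ ha) b.2 (Finset.mem_image_of_mem _ hb) h2]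
    ring

/-- the value at a pair -/
private theorem Ext_pair {s : ℝ} (hs : 0 < s) {d : V → ℝ} {μ : Finset V → ℝ}
    {ν' : Finset W → ℝ} (hμ : ∀ v, μ {v} = d v) (x y : V × W) :
    extN s μ ν' {x, y} =
      if x.2 = y.2 then ν' {x.2} * μ {x.1, y.1} else s * ν' {x.2, y.2} * (d x.1 * d y.1) := by
  have h1 : ∀ w, mom s μ (fib ({x, y} : Finset (V × W)) w) =
      if x.2 = y.2 then (if x.2 = w then s * μ {x.1, y.1} else 1)
      else (if x.2 = w then s * d x.1 else 1) * (if y.2 = w then s * d y.1 else 1) := by
    intro w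
    rw [fib_insert, Ext_fib_sing]
    by_cases hxy : x.2 = y.2
    · rw [if_pos hxy, ← hxy]
      by_cases hw : x.2 = w
      · rw [if_pos hw, if_pos hw, if_pos hw]
        unfold mom
        rw [if_neg (Finset.insert_ne_empty _ _)]
      · rw [if_neg hw, if_neg hw, if_neg hw]
        simp [mom]
    · rw [if_neg hxy]
      by_cases hw : x.2 = w
      · have hw' : ¬ y.2 = w := fun h => hxy (hw.trans h.symm)
        rw [if_pos hw, if_neg hw', if_pos hw, if_neg hw', mul_one]
        unfold mom
        rw [if_neg (Finset.insert_ne_empty _ _), Finset.insert_empty, hμ]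
      · rw [if_neg hw, if_neg hw, one_mul]
        by_cases hw' : y.2 = w
        · rw [if_pos hw', if_pos hw']
          unfold mom
          rw [if_neg (Finset.singleton_ne_empty _), hμ]
        · rw [if_neg hw', if_neg hw']
          simp [mom]
  unfold extN
  rw [Finset.prod_congr rfl fun w _ => h1 w]
  by_cases hxy : x.2 = y.2
  · simp only [if_pos hxy]
    rw [Finset.prod_ite_eq, if_pos (Finset.mem_univ _), Finset.image_insert,
      Finset.image_singleton, ← hxy, Finset.insert_eq_of_mem (Finset.mem_singleton_self _)]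
    field_simp
  · simp only [if_neg hxy]
    rw [Finset.prod_mul_distrib, Finset.prod_ite_eq, if_pos (Finset.mem_univ _),
      Finset.prod_ite_eq, if_pos (Finset.mem_univ _), Finset.image_insert,
      Finset.image_singleton]
    field_simp

/-- PROOF. `extN {x, y} - s t (d d') (d d')` is `(ν' {x', y'} - t d' d') s d_a d_b` plus, on pairs with `x' = y'`,
`d' x' (μ {a, b} - s d_a d_b)`. -/
theorem extN_top {G : SimpleGraph V} {H : SimpleGraph W} {k l : ℕ} {s t : ℝ} (hs : 0 < s)
    {d : V → ℝ} {d' : W → ℝ} {μ : Finset V → ℝ} {ν' : Finset W → ℝ} (hμ : RSys G l s d μ)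
    (hν : RSys H k t d' ν') :
    PSD (fun x y : V × W => extN s μ ν' {x, y} - s * t * (d x.1 * d' x.2) * (d y.1 * d' y.2)) := by
  have hd' : ∀ w, 0 ≤ d' w := fun w => by
    rw [← hν.sing]
    exact hν.nonneg _
  have h1 : PSD (fun x y : V × W =>
      (ν' {x.2, y.2} - t * d' x.2 * d' y.2) * (s * ((fun z : V × W => d z.1) x *
        (fun z : V × W => d z.1) y))) :=
    (hν.top.pull (Prod.snd : V × W → W)).mul ((PSD.rankOne fun z : V × W => d z.1).smul hs.le)
  have h2 : PSD (fun x y : V × W =>
      (if x.2 = y.2 then d' x.2 else 0) * (μ {x.1, y.1} - s * d x.1 * d y.1)) :=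
    ((PSD.diag hd').pull (Prod.snd : V × W → W)).mul (hμ.top.pull (Prod.fst : V × W → V))
  have h3 := h1.add h2
  have h4 : (fun x y : V × W => extN s μ ν' {x, y} -
      s * t * (d x.1 * d' x.2) * (d y.1 * d' y.2)) = fun x y : V × W =>
      (ν' {x.2, y.2} - t * d' x.2 * d' y.2) * (s * ((fun z : V × W => d z.1) x *
        (fun z : V × W => d z.1) y)) +
      (if x.2 = y.2 then d' x.2 else 0) * (μ {x.1, y.1} - s * d x.1 * d y.1) := by
    funext x y
    rw [Ext_pair hs hμ.sing]
    by_cases hxy : x.2 = y.2
    · rw [if_pos hxy, if_pos hxy, ← hxy, Finset.insert_eq_of_mem (Finset.mem_singleton_self _),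
        hν.sing]
      ring
    · rw [if_neg hxy, if_neg hxy]
      ring
  rw [h4]
  exact h3

/-- The bordered moment kernel of a fibre. PROOF. `S = ∅`: the form is
`c_0² + 2 c_0 s ∑ c_v d_v + s ∑ ∑ c_u c_v μ {u, v} ≥ (c_0 + s ∑ c_v d_v)²`. `S ≠ ∅`: `none` behaves as an element
of `S` (`PSD.pull`). -/
theorem mom_psd {G : SimpleGraph V} {k : ℕ} {s : ℝ} (hs : 0 < s) {d : V → ℝ}
    {μ : Finset V → ℝ} (hμ : RSys G (k - 1) s d μ) {S : Finset V} (hS : S.card + 3 ≤ k) :
    PSD (fun x y : Option V => mom s μ (S ∪ x.toFinset ∪ y.toFinset)) := by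
  rcases S.eq_empty_or_nonempty with rfl | hSne
  · -- the border
    have h1 : PSD (fun x y : Option V => (fun z : Option V => z.elim 1 fun v => s * d v) x *
        (fun z : Option V => z.elim 1 fun v => s * d v) y) := PSD.rankOne _
    have h2 : PSD (fun x y : Option V => x.elim 0 fun u => y.elim 0 fun v =>
        s * (μ {u, v} - s * d u * d v)) := by
      constructor
      · intro x y
        cases x <;> cases y <;> simp only [Option.elim]
        rename_i u v
        have := hμ.top.1 u v
        simp only at this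
        rw [this]
      · intro c
        have h3 := (hμ.top.smul hs.le).2 (fun v => c (some v))
        simp only [Fintype.sum_option, Option.elim, mul_zero, Finset.sum_const_zero, zero_add,
          add_zero]
        exact h3
    have h3 := h1.add h2
    refine ⟨?_, ?_⟩
    · intro x y
      show mom s μ (∅ ∪ x.toFinset ∪ y.toFinset) = mom s μ (∅ ∪ y.toFinset ∪ x.toFinset)
      rw [Finset.union_assoc, Finset.union_assoc, Finset.union_comm x.toFinset]
    · intro c
      have h4 := h3.2 c
      refine le_of_le_of_eq h4 ?_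
      refine Finset.sum_congr rfl fun x _ => Finset.sum_congr rfl fun y _ => ?_
      congr 1
      cases x with
      | none =>
        cases y with
        | none => simp [mom]
        | some v =>
          simp only [Option.elim, Option.toFinset_none, Option.toFinset_some,
            Finset.empty_union]
          unfold mom
          rw [if_neg (Finset.singleton_ne_empty _), hμ.sing]
          ring
      | some u =>
        cases y with
        | none =>
          simp only [Option.elim, Option.toFinset_none, Option.toFinset_some,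
            Finset.empty_union, Finset.union_empty]
          unfold mom
          rw [if_neg (Finset.singleton_ne_empty _), hμ.sing]
          ring
        | some v =>
          simp only [Option.elim, Option.toFinset_some, Finset.empty_union]
          have h5 : ({u} : Finset V) ∪ {v} = {u, v} := rfl
          rw [h5]
          unfold mom
          rw [if_neg (Finset.insert_ne_empty _ _)]
          ring
  · obtain ⟨q, hq⟩ := hSne
    have h1 := (hμ.psd S ⟨q, hq⟩ (by omega)).pull (fun x : Option V => x.getD q)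
    have h2 := h1.smul hs.le
    have h3 : (fun x y : Option V => mom s μ (S ∪ x.toFinset ∪ y.toFinset)) = fun x y : Option V =>
        s * μ (insert (x.getD q) (insert (y.getD q) S)) := by
      funext x y
      have h4 : S ∪ x.toFinset ∪ y.toFinset = insert (x.getD q) (insert (y.getD q) S) := by
        cases x <;> cases y <;> ext a <;> simp <;> aesop
      rw [h4]
      unfold mom
      rw [if_neg (Finset.insert_ne_empty _ _)]
    rw [h3]
    exact h2

/-- the rows with a defect: `Q` has `k - 2` elements, `Q` and `x ∉ Q` lie in one fibre and project to an independent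
set -/
def Def (G : SimpleGraph V) (k : ℕ) (Q : Finset (V × W)) (x : V × W) : Prop :=
  Q.card + 2 = k ∧ x ∉ Q ∧ (∀ q ∈ Q, q.2 = x.2) ∧ Ind G (insert x.1 (Q.image Prod.fst))

open Classical in
/-- the defect of the row `x` -/
noncomputable def dft (G : SimpleGraph V) (k : ℕ) (C : ℝ) (d' : W → ℝ) (Q : Finset (V × W))
    (x : V × W) : ℝ := if Def G k Q x then C * d' x.2 else 0

open Classical in
/-- the defect of the row `x` of the bordered matrix of `S` -/
noncomputable def dfb (G : SimpleGraph V) (C : ℝ) (S : Finset V) (x : Option V) : ℝ :=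
  if ∃ a, x = some a ∧ a ∉ S ∧ Ind G (insert a S) then C else 0

/-- `C` repairs the matrices of the sets with `k - 2` elements -/
def CBound (G : SimpleGraph V) (k : ℕ) (μ : Finset V → ℝ) (C : ℝ) : Prop :=
  ∀ S : Finset V, S.Nonempty → S.card + 2 = k →
    PSD (fun x y : Option V => μ (S ∪ x.toFinset ∪ y.toFinset) +
      if x = y then dfb G C S x else 0)

end Pool.Agent.W_79d227_kp
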