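import Pool.Agent.W_79d227_kp.Ext

set_option autoImplicit false

/-!
# The repair constant
-/

namespace Pool.Agent.W_79d227_kp

open Finset

variable {V : Type} [Fintype V] [DecidableEq V]

private theorem PSD.congr_extC {X : Type} [Fintype X] {K L : X → X → ℝ} (hK : PSD K)
    (h : ∀ x y, L x y = K x y) : PSD L := by
  have : L = K := by
    funext x y
    exact h x y
  rw [this]
  exact hK

private theorem extC_core {G : SimpleGraph V} {k : ℕ} {μ : Finset V → ℝ}
    (hI : ∀ I, ∀ a ∈ I, ∀ b ∈ I, G.Adj a b → μ I = 0)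
    (hbig : ∀ S, k ≤ S.card → μ S = 0) (h0 : ∀ I, 0 ≤ μ I)
    {S : Finset V} (hSk : S.card + 2 = k) (hm : 0 < μ S) {C : ℝ}
    (hC : (μ S)⁻¹ * (∑ x : Option V, μ (S ∪ x.toFinset)) ^ 2 ≤ C)
    (hdf : ∀ x, 0 ≤ dfb G C S x) :
    PSD (fun x y : Option V => μ (S ∪ x.toFinset ∪ y.toFinset) +
      if x = y then dfb G C S x else 0) := by
  classical
  set g : Option V → ℝ := fun x => μ (S ∪ x.toFinset) with hg
  set β : Option V → ℝ := fun x => if x.toFinset ⊆ S then 0 else g x with hβ
  have hg0 : ∀ x, 0 ≤ g x := fun x => h0 _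
  have hβ0 : ∀ x, 0 ≤ β x := by
    intro x
    simp only [hβ]
    split_ifs
    · exact le_rfl
    · exact hg0 x
  have hβg : ∀ x, β x ≤ g x := by
    intro x
    simp only [hβ]
    split_ifs
    · exact hg0 x
    · exact le_rfl
  have hin : ∀ x : Option V, x.toFinset ⊆ S → g x = μ S ∧ β x = 0 := by
    intro x hx
    refine ⟨?_, by simp only [hβ]; rw [if_pos hx]⟩
    simp only [hg]
    rw [union_eq_left.2 hx]
  have hout : ∀ x : Option V, ¬ x.toFinset ⊆ S → ∃ a, x = some a ∧ a ∉ S := by
    intro x hx
    cases x with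
    | none => simp at hx
    | some a => exact ⟨a, rfl, by simpa using hx⟩
  have key : ∀ x y : Option V, μ (S ∪ x.toFinset ∪ y.toFinset) =
      (μ S)⁻¹ * (g x * g y) + ((if x = y then β x else 0) - (μ S)⁻¹ * (β x * β y)) := by
    intro x y
    have hm' : (μ S)⁻¹ * μ S = 1 := inv_mul_cancel₀ hm.ne'
    by_cases hx : x.toFinset ⊆ S
    · obtain ⟨h1, h2⟩ := hin x hx
      have e1 : μ (S ∪ x.toFinset ∪ y.toFinset) = g y := by
        rw [union_eq_left.2 hx]
      rw [e1, h1, h2, ← mul_assoc, hm']
      simp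
    · by_cases hy : y.toFinset ⊆ S
      · obtain ⟨h1, h2⟩ := hin y hy
        have e1 : μ (S ∪ x.toFinset ∪ y.toFinset) = g x := by
          rw [union_assoc, union_comm x.toFinset, ← union_assoc, union_eq_left.2 hy]
        have hxy : x ≠ y := by
          rintro rfl
          exact hx hy
        rw [e1, h1, h2, if_neg hxy, mul_comm (g x), ← mul_assoc, hm']
        simp
      · have bx : β x = g x := by simp only [hβ]; rw [if_neg hx]
        have by' : β y = g y := by simp only [hβ]; rw [if_neg hy]
        rw [bx, by']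
        by_cases hxy : x = y
        · subst hxy
          rw [if_pos rfl, union_assoc, union_self]
          simp only [hg]
          ring
        · rw [if_neg hxy]
          obtain ⟨a, rfl, ha⟩ := hout x hx
          obtain ⟨b, rfl, hb⟩ := hout y hy
          have hab : a ≠ b := fun h => hxy (by rw [h])
          have : μ (S ∪ (some a).toFinset ∪ (some b).toFinset) = 0 := by
            apply hbig
            have : S ∪ (some a).toFinset ∪ (some b).toFinset = insert b (insert a S) := by
              ext z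
              simp only [Option.toFinset_some, mem_union, mem_singleton, mem_insert]
              tauto
            rw [this, card_insert_of_notMem, card_insert_of_notMem ha]
            · omega
            · simp only [mem_insert, not_or]
              exact ⟨fun h => hab h.symm, hb⟩
          rw [this]
          ring
  have hR : PSD (fun x y : Option V => (if x = y then β x + dfb G C S x else 0) -
      (μ S)⁻¹ * (β x * β y)) := by
    apply PSD.of_dom
    · intro x y
      by_cases h : x = y
      · subst h; rfl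
      · rw [if_neg h, if_neg (Ne.symm h), mul_comm (β x)]
    · intro x
      have hmi : 0 ≤ (μ S)⁻¹ := inv_nonneg.2 hm.le
      have e1 : ∑ y ∈ univ.erase x, |(if x = y then β x + dfb G C S x else 0) -
          (μ S)⁻¹ * (β x * β y)| = ∑ y ∈ univ.erase x, (μ S)⁻¹ * (β x * β y) := by
        apply sum_congr rfl
        intro y hy
        rw [if_neg (Ne.symm (ne_of_mem_erase hy)), zero_sub, abs_neg, abs_of_nonneg]
        exact mul_nonneg hmi (mul_nonneg (hβ0 x) (hβ0 y))
      rw [e1, if_pos rfl]
      have e2 : ∑ y ∈ univ.erase x, (μ S)⁻¹ * (β x * β y) + (μ S)⁻¹ * (β x * β x) =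
          ∑ y, (μ S)⁻¹ * (β x * β y) := sum_erase_add _ _ (mem_univ x)
      have e3 : ∑ y, (μ S)⁻¹ * (β x * β y) ≤ β x + dfb G C S x := by
        by_cases hb : β x = 0
        · have : ∑ y, (μ S)⁻¹ * (β x * β y) = 0 := by
            apply sum_eq_zero
            intro y _
            rw [hb]
            ring
          rw [this, hb]
          linarith [hdf x]
        · have hx : ¬ x.toFinset ⊆ S := fun h => hb (hin x h).2
          obtain ⟨a, rfl, ha⟩ := hout x hx
          have hgx : g (some a) ≠ 0 := by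
            intro h
            exact hb (le_antisymm (h ▸ hβg _) (hβ0 _))
          have hInd : Ind G (insert a S) := by
            intro u hu v hv huv
            apply hgx
            simp only [hg]
            have e : S ∪ (some a).toFinset = insert a S := by
              ext z
              simp only [Option.toFinset_some, mem_union, mem_singleton, mem_insert]
              tauto
            rw [e]
            exact hI _ u hu v hv huv
          have hd : dfb G C S (some a) = C := by
            unfold dfb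
            rw [if_pos ⟨a, rfl, ha, hInd⟩]
          have h1 : ∑ y, (μ S)⁻¹ * (β (some a) * β y) = (μ S)⁻¹ * (β (some a) * ∑ y, β y) := by
            rw [mul_sum, mul_sum]
          have h2 : β (some a) ≤ ∑ x, g x :=
            (hβg _).trans (single_le_sum (f := g) (fun y _ => hg0 y) (mem_univ (some a)))
          have h3 : ∑ y, β y ≤ ∑ y, g y := sum_le_sum fun y _ => hβg y
          have h4 : β (some a) * ∑ y, β y ≤ (∑ x, g x) ^ 2 := by
            rw [sq]
            exact mul_le_mul h2 h3 (sum_nonneg fun y _ => hβ0 y) (sum_nonneg fun y _ => hg0 y)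
          rw [h1, hd]
          have h5 := (mul_le_mul_of_nonneg_left h4 hmi).trans hC
          linarith [hβ0 (some a)]
      linarith
  have hK : PSD (fun x y : Option V => (μ S)⁻¹ * (g x * g y)) :=
    (PSD.rankOne g).smul (inv_nonneg.2 hm.le)
  refine (hK.add hR).congr_extC ?_
  intro x y
  rw [key x y]
  split_ifs
  · ring
  · ring

/-- PROOF. `C = max_S ∑_{a ∉ S} μ (S ∪ a)² / μ S` over the `S` with `k - 2` elements, `μ S > 0`. For such `S` and `a ≠ b`
not in `S`, `μ (S ∪ a ∪ b) = 0` (`k` elements), so with `α a = μ (S ∪ a) / μ S` (`= 1` for `a ∈ S` and for `none`) the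
kernel `μ (S ∪ x ∪ y)` is `μ S * (α x α y + δ_{xy} [x ∉ S] α x - [x, y ∉ S] α x α y)`, and
`∑∑_{a, b ∉ S} c_a c_b α_a α_b ≤ (∑ α²) ∑_{α_a ≠ 0} c_a²`. If `S` is not independent everything vanishes. -/
theorem exists_C {G : SimpleGraph V} {k : ℕ} (hk : 3 ≤ k) {μ : Finset V → ℝ}
    (h0 : ∀ I, 0 ≤ μ I) (hI : ∀ I, ∀ a ∈ I, ∀ b ∈ I, G.Adj a b → μ I = 0)
    (hbig : ∀ S, k ≤ S.card → μ S = 0)
    (hpos : ∀ S, S.Nonempty → S.card ≤ k - 1 → Ind G S → 0 < μ S) :
    ∃ C : ℝ, 0 ≤ C ∧ CBound G k μ C := by
  classical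
  have hterm : ∀ S : Finset V, 0 ≤ (μ S)⁻¹ * (∑ x : Option V, μ (S ∪ x.toFinset)) ^ 2 :=
    fun S => mul_nonneg (inv_nonneg.2 (h0 S)) (sq_nonneg _)
  refine ⟨∑ S : Finset V, (μ S)⁻¹ * (∑ x : Option V, μ (S ∪ x.toFinset)) ^ 2,
    Finset.sum_nonneg fun S _ => hterm S, ?_⟩
  intro S hS hSk
  have hC0 : 0 ≤ ∑ S : Finset V, (μ S)⁻¹ * (∑ x : Option V, μ (S ∪ x.toFinset)) ^ 2 :=
    Finset.sum_nonneg fun S _ => hterm S
  have hC : (μ S)⁻¹ * (∑ x : Option V, μ (S ∪ x.toFinset)) ^ 2 ≤
      ∑ S : Finset V, (μ S)⁻¹ * (∑ x : Option V, μ (S ∪ x.toFinset)) ^ 2 :=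
    Finset.single_le_sum (f := fun S : Finset V =>
      (μ S)⁻¹ * (∑ x : Option V, μ (S ∪ x.toFinset)) ^ 2) (fun T _ => hterm T) (mem_univ S)
  generalize (∑ S : Finset V, (μ S)⁻¹ * (∑ x : Option V, μ (S ∪ x.toFinset)) ^ 2) = C at hC hC0
  have hdf : ∀ x, 0 ≤ dfb G C S x := by
    intro x
    unfold dfb
    split_ifs
    · exact hC0
    · exact le_rfl
  by_cases hInd : Ind G S
  · have hm : 0 < μ S := hpos S hS (by omega) hInd
    exact extC_core hI hbig h0 hSk hm hC hdf
  · have hz : ∀ T : Finset V, μ (S ∪ T) = 0 := by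
      intro T
      unfold Ind at hInd
      push Not at hInd
      obtain ⟨a, ha, b, hb, hab⟩ := hInd
      exact hI _ a (mem_union_left _ ha) b (mem_union_left _ hb) hab
    have := PSD.diag (X := Option V) hdf
    refine (PSD.add (PSD.const (X := Option V) le_rfl) this).congr_extC ?_
    intro x y
    rw [union_assoc, hz]

end Pool.Agent.W_79d227_kp
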