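import Pool.Agent.W_79d227_kp.Ext

set_option autoImplicit false

/-!
# The matrices of the extension
-/

namespace Pool.Agent.W_79d227_kp

open Finset

variable {V W : Type} [Fintype V] [DecidableEq V] [Fintype W] [DecidableEq W]

/-- the element of a row seen by the fibre of `w` -/
private def ExtPsd_g (w : W) (x : V × W) : Option V := if x.2 = w then some x.1 else none

private theorem ExtPsd_fib2 (Q : Finset (V × W)) (x y : V × W) (w : W) :
    fib (insert x (insert y Q)) w =
      fib Q w ∪ (ExtPsd_g w x).toFinset ∪ (ExtPsd_g w y).toFinset := by
  rw [fib_insert, fib_insert]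
  unfold ExtPsd_g
  split_ifs <;> ext a <;> simp

private theorem ExtPsd_card_fib (Q : Finset (V × W)) (w : W) :
    (fib Q w).card = (Q.filter (fun p => p.2 = w)).card := by
  unfold fib
  apply Finset.card_image_of_injOn
  intro a ha b hb hab
  simp only [coe_filter, Set.mem_setOf_eq] at ha hb
  exact Prod.ext hab (ha.2.trans hb.2.symm)

private theorem ExtPsd_fib_all {Q : Finset (V × W)} {w : W} (h : ∀ q ∈ Q, q.2 = w) :
    fib Q w = Q.image Prod.fst := by
  unfold fib
  rw [Finset.filter_true_of_mem h]

private theorem ExtPsd_fib_empty {Q : Finset (V × W)} {w w' : W} (h : ∀ q ∈ Q, q.2 = w)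
    (hw : w' ≠ w) : fib Q w' = ∅ := by
  unfold fib
  rw [Finset.filter_false_of_mem, Finset.image_empty]
  intro q hq hq2
  exact hw (hq2.symm.trans (h q hq))

private theorem ExtPsd_nu {H : SimpleGraph W} {k : ℕ} {t : ℝ} {d' : W → ℝ}
    {ν' : Finset W → ℝ} (hν : RSys H k t d' ν') {Q : Finset (V × W)} (hQ : Q.Nonempty)
    (hQk : Q.card + 2 ≤ k) :
    PSD (fun x y : V × W => ν' ((insert x (insert y Q)).image Prod.snd)) := by
  have h1 : PSD (fun x y : W => ν' (insert x (insert y (Q.image Prod.snd)))) := by
    apply hν.psd
    · exact hQ.image _
    · have := Finset.card_image_le (s := Q) (f := Prod.snd)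
      omega
  have h2 := h1.pull (fun x : V × W => x.2)
  simpa [Finset.image_insert] using h2

private theorem ExtPsd_K {G : SimpleGraph V} {k : ℕ} {s : ℝ} (hs : 0 < s) {d : V → ℝ}
    {μ : Finset V → ℝ} (hμ : RSys G (k - 1) s d μ) {Q : Finset (V × W)} {w : W}
    (hw : (fib Q w).card + 3 ≤ k) :
    PSD (fun x y : V × W => mom s μ (fib (insert x (insert y Q)) w)) := by
  have h1 := (mom_psd hs hμ hw).pull (ExtPsd_g (V := V) w)
  have e : (fun x y : V × W => mom s μ (fib (insert x (insert y Q)) w)) =
      fun x y : V × W => mom s μ (fib Q w ∪ (ExtPsd_g w x).toFinset ∪ (ExtPsd_g w y).toFinset) := by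
    funext x y
    rw [ExtPsd_fib2]
  rw [e]
  exact h1

private theorem ExtPsd_R {G : SimpleGraph V} {k : ℕ} {s C : ℝ} (hs : 0 < s)
    {μ : Finset V → ℝ} (hC : CBound G k μ C) {Q : Finset (V × W)} {w : W}
    (hne : (fib Q w).Nonempty) (hw : (fib Q w).card + 2 = k) :
    PSD (fun x y : V × W => mom s μ (fib (insert x (insert y Q)) w) +
      if x = y then s * dfb G C (fib Q w) (ExtPsd_g w x) else 0) := by
  have h1 := ((hC (fib Q w) hne hw).smul hs.le).pull (ExtPsd_g (V := V) w)
  have e : (fun x y : V × W => mom s μ (fib (insert x (insert y Q)) w) +
      if x = y then s * dfb G C (fib Q w) (ExtPsd_g w x) else 0) =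
      fun x y : V × W => s * (μ (fib Q w ∪ (ExtPsd_g w x).toFinset ∪ (ExtPsd_g w y).toFinset) +
      if ExtPsd_g w x = ExtPsd_g w y then dfb G C (fib Q w) (ExtPsd_g w x) else 0) := by
    funext x y
    rw [ExtPsd_fib2, mul_add]
    congr 1
    · unfold mom
      rw [if_neg]
      intro h
      obtain ⟨a, ha⟩ := hne
      have : a ∈ (∅ : Finset V) := by
        rw [← h]
        simp [ha]
      simp at this
    · by_cases hxy : x = y
      · subst hxy
        simp
      · rw [if_neg hxy]
        by_cases hg : ExtPsd_g w x = ExtPsd_g w y
        · rw [if_pos hg]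
          have hnone : ExtPsd_g w x = none := by
            by_contra hn
            unfold ExtPsd_g at hn hg
            by_cases hx : x.2 = w
            · by_cases hy : y.2 = w
              · rw [if_pos hx, if_pos hy] at hg
                exact hxy (Prod.ext (Option.some.inj hg) (hx.trans hy.symm))
              · rw [if_pos hx, if_neg hy] at hg
                simp at hg
            · rw [if_neg hx] at hn
              exact hn rfl
          rw [hnone]
          unfold dfb
          rw [if_neg]
          · simp
          · rintro ⟨a, ha, _⟩
            simp at ha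
        · rw [if_neg hg, mul_zero]
  rw [e]
  exact h1

/-- PROOF. The kernel `extN (Q ∪ x ∪ y)` is the Schur product of `s⁻¹ ν' (Q' ∪ x' ∪ y')` (PSD, `Q'` is
nonempty with at most `k - 2` elements) and of the kernels `K_w (x, y) = mom (fib Q w ∪ [x' = w] a ∪ [y' = w] b)`,
`w ∈ W`, pulled back from `Option V` by `x ↦ some x.1` if `x.2 = w` and `none` otherwise. They are PSD by `mom_psd`
unless `(fib Q w).card = k - 2`, and then `Q` lies in the fibre of `w` (there is at most one such `w`), and `K_w` plus
`s dfb G C (fib Q w)` on the diagonal is PSD (`CBound`). Replace `K_w` by this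
kernel: the product changes exactly by `C d' w` on the diagonal at the rows of `Def`, since there
`ν' (Q' ∪ x' ∪ x') = ν' {w} = d' w` and the other kernels are `mom ∅ = 1`. -/
theorem extN_psd {G : SimpleGraph V} {H : SimpleGraph W} {k : ℕ} (hk : 3 ≤ k) {s t C : ℝ}
    (hs : 0 < s) {d : V → ℝ} {d' : W → ℝ} {μ : Finset V → ℝ} {ν' : Finset W → ℝ}
    (hμ : RSys G (k - 1) s d μ) (hν : RSys H k t d' ν') (hC : CBound G k μ C)
    {Q : Finset (V × W)} (hQ : Q.Nonempty) (hQk : Q.card + 2 ≤ k) :
    PSD (fun x y : V × W => extN s μ ν' (insert x (insert y Q)) +
      if x = y then dft G k C d' Q x else 0) := by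
  classical
  have hsi : 0 ≤ s⁻¹ := (inv_pos.mpr hs).le
  have hnu := ExtPsd_nu hν hQ hQk
  by_cases hA : Q.card + 2 = k ∧ ∃ w0, ∀ q ∈ Q, q.2 = w0
  · obtain ⟨hcard, w0, hw0⟩ := hA
    have hS : fib Q w0 = Q.image Prod.fst := ExtPsd_fib_all hw0
    have hSc : (fib Q w0).card = Q.card := by
      rw [ExtPsd_card_fib, Finset.filter_true_of_mem hw0]
    have hSne : (fib Q w0).Nonempty := by
      rw [hS]; exact hQ.image _
    have hR := ExtPsd_R hs hC hSne (by rw [hSc]; exact hcard)
    have hP : PSD (fun x y : V × W => ∏ w ∈ univ.erase w0,
        mom s μ (fib (insert x (insert y Q)) w)) := by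
      apply PSD.prod (K := fun w (x y : V × W) => mom s μ (fib (insert x (insert y Q)) w))
      intro w hw
      apply ExtPsd_K hs hμ
      rw [ExtPsd_fib_empty hw0 (Finset.ne_of_mem_erase hw)]
      simpa using hk
    have hT := ((hnu.smul hsi).mul hP).mul hR
    have e : (fun x y : V × W => extN s μ ν' (insert x (insert y Q)) +
        if x = y then dft G k C d' Q x else 0) =
        fun x y : V × W => s⁻¹ * ν' ((insert x (insert y Q)).image Prod.snd) *
          (∏ w ∈ univ.erase w0, mom s μ (fib (insert x (insert y Q)) w)) *
          (mom s μ (fib (insert x (insert y Q)) w0) +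
            if x = y then s * dfb G C (fib Q w0) (ExtPsd_g w0 x) else 0) := by
      funext x y
      rw [mul_add]
      congr 1
      · unfold extN
        rw [← Finset.prod_erase_mul univ _ (Finset.mem_univ w0), mul_assoc]
        ring
      · by_cases hxy : x = y
        · subst hxy
          rw [if_pos rfl, if_pos rfl]
          by_cases hx : x.2 = w0
          · have h1 : (insert x (insert x Q)).image Prod.snd = {w0} := by
              ext a
              simp only [mem_image, mem_insert, mem_singleton]
              constructor
              · rintro ⟨q, hq, rfl⟩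
                rcases hq with rfl | rfl | hq
                · exact hx
                · exact hx
                · exact hw0 q hq
              · rintro rfl
                exact ⟨x, Or.inl rfl, hx⟩
            have h2 : ∏ w ∈ univ.erase w0, mom s μ (fib (insert x (insert x Q)) w) = 1 := by
              apply Finset.prod_eq_one
              intro w hw
              have hall : ∀ q ∈ insert x (insert x Q), q.2 = w0 := by
                intro q hq
                simp only [mem_insert] at hq
                rcases hq with rfl | rfl | hq
                · exact hx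
                · exact hx
                · exact hw0 q hq
              rw [ExtPsd_fib_empty hall (Finset.ne_of_mem_erase hw)]
              unfold mom
              rw [if_pos rfl]
            rw [h1, h2, hν.sing, mul_one]
            have h3 : dft G k C d' Q x = d' w0 * dfb G C (fib Q w0) (ExtPsd_g w0 x) := by
              unfold dft dfb
              have hg : ExtPsd_g w0 x = some x.1 := by
                unfold ExtPsd_g
                rw [if_pos hx]
              rw [hg]
              have hiff : Def G k Q x ↔ ∃ a, some x.1 = some a ∧ a ∉ fib Q w0 ∧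
                  Ind G (insert a (fib Q w0)) := by
                rw [hS]
                unfold Def
                constructor
                · rintro ⟨_, hxQ, _, hI⟩
                  refine ⟨x.1, rfl, ?_, hI⟩
                  intro hm
                  obtain ⟨q, hq, hq1⟩ := Finset.mem_image.mp hm
                  have : q = x := Prod.ext hq1 ((hw0 q hq).trans hx.symm)
                  exact hxQ (this ▸ hq)
                · rintro ⟨a, ha, haS, hI⟩
                  have ha' : x.1 = a := Option.some.inj ha
                  subst ha'
                  refine ⟨hcard, ?_, ?_, hI⟩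
                  · intro hxQ
                    exact haS (Finset.mem_image_of_mem _ hxQ)
                  · intro q hq
                    rw [hw0 q hq, hx]
              by_cases hD : Def G k Q x
              · rw [if_pos hD, if_pos (hiff.mp hD), hx]
                ring
              · rw [if_neg hD, if_neg (fun h => hD (hiff.mpr h))]
                ring
            rw [h3]
            field_simp
          · have hg : ExtPsd_g w0 x = none := by
              unfold ExtPsd_g
              rw [if_neg hx]
            have h1 : dfb G C (fib Q w0) (ExtPsd_g w0 x) = 0 := by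
              rw [hg]
              unfold dfb
              rw [if_neg]
              rintro ⟨a, ha, _⟩
              simp at ha
            have h2 : dft G k C d' Q x = 0 := by
              unfold dft
              rw [if_neg]
              rintro ⟨_, _, hq, _⟩
              obtain ⟨q, hqQ⟩ := hQ
              exact hx ((hq q hqQ).symm.trans (hw0 q hqQ))
            rw [h1, h2]
            ring
        · rw [if_neg hxy, if_neg hxy, mul_zero]
    rw [e]
    exact hT
  · have hcardw : ∀ w, (fib Q w).card + 3 ≤ k := by
      intro w
      rw [ExtPsd_card_fib]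
      by_contra hlt
      push Not at hlt
      have hle : (Q.filter (fun p => p.2 = w)).card ≤ Q.card := Finset.card_filter_le _ _
      have heq : (Q.filter (fun p => p.2 = w)).card = Q.card := by omega
      apply hA
      refine ⟨by omega, w, ?_⟩
      have hfe : Q.filter (fun p => p.2 = w) = Q :=
        Finset.eq_of_subset_of_card_le (Finset.filter_subset _ _) heq.ge
      intro q hq
      rw [← hfe] at hq
      exact (Finset.mem_filter.mp hq).2
    have hd : ∀ x, dft G k C d' Q x = 0 := by
      intro x
      unfold dft
      rw [if_neg]
      rintro ⟨hc, _, hq, _⟩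
      exact hA ⟨hc, x.2, hq⟩
    have hP : PSD (fun x y : V × W => ∏ w ∈ univ,
        mom s μ (fib (insert x (insert y Q)) w)) := by
      apply PSD.prod (K := fun w (x y : V × W) => mom s μ (fib (insert x (insert y Q)) w))
      intro w _
      exact ExtPsd_K hs hμ (hcardw w)
    have hT := (hnu.smul hsi).mul hP
    have e : (fun x y : V × W => extN s μ ν' (insert x (insert y Q)) +
        if x = y then dft G k C d' Q x else 0) =
        fun x y : V × W => s⁻¹ * ν' ((insert x (insert y Q)).image Prod.snd) *
          (∏ w ∈ univ, mom s μ (fib (insert x (insert y Q)) w)) := by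
      funext x y
      rw [hd x]
      simp [extN]
    rw [e]
    exact hT

end Pool.Agent.W_79d227_kp
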