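import Pool.Agent.W_79d227_kp.Psd

set_option autoImplicit false

/-!
# Feasible points
-/

namespace Pool.Agent.W_79d227_kp

open Finset

variable {V : Type} [Fintype V] [DecidableEq V]

/-- feasible points form a convex set -/
theorem KPoint.mix {G : SimpleGraph V} {k : ℕ} {ν ν' : Finset V → ℝ} (h : KPoint G k ν)
    (h' : KPoint G k ν') {a : ℝ} (ha : 0 ≤ a) (ha1 : a ≤ 1) :
    KPoint G k (fun I => (1 - a) * ν I + a * ν' I) := by
  refine ⟨?_, ?_, ?_, ?_⟩
  · simp only [h.empty, h'.empty]; ring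
  · intro I
    exact add_nonneg (mul_nonneg (by linarith) (h.nonneg I)) (mul_nonneg ha (h'.nonneg I))
  · intro I x hx y hy hxy
    simp only [h.indep I x hx y hy hxy, h'.indep I x hx y hy hxy]; ring
  · intro Q hQ
    exact ((h.psd Q hQ).smul (by linarith)).add ((h'.psd Q hQ).smul ha)

private theorem feas_psd_ind (Q T : Finset V) :
    PSD (fun x y : Option V =>
      if Q ∪ x.toFinset ∪ y.toFinset ⊆ T then (1 : ℝ) else 0) := by
  have h := (PSD.rankOne (X := Option V)
    (fun x => if x.toFinset ⊆ T then (1 : ℝ) else 0)).smul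
    (a := if Q ⊆ T then (1 : ℝ) else 0) (by split_ifs <;> norm_num)
  convert h using 3 with x y
  simp only [Finset.union_subset_iff]
  by_cases h1 : Q ⊆ T <;> by_cases h2 : x.toFinset ⊆ T <;> by_cases h3 : y.toFinset ⊆ T <;>
    simp [h1, h2, h3]

/-- PROOF. The uniform distribution on the independent sets: `ν I` is the proportion of the independent sets that
contain `I`; the form is the mean over the independent sets `C ⊇ Q` of `(c_none + ∑_{v ∈ C} c_v)²`. -/
theorem exists_kpoint_pos (G : SimpleGraph V) (k : ℕ) :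
    ∃ ν : Finset V → ℝ, KPoint G k ν ∧ ∀ I, Ind G I → 0 < ν I := by
  classical
  set S : Finset (Finset V) := univ.filter (fun T => Ind G T) with hS
  have hmem : ∀ T, T ∈ S ↔ Ind G T := by intro T; simp [hS]
  have h0 : (∅ : Finset V) ∈ S := by
    rw [hmem]; intro a ha; simp at ha
  have hN : (0 : ℝ) < S.card := by
    exact_mod_cast Finset.card_pos.2 ⟨∅, h0⟩
  have hN' : (0 : ℝ) < (S.card : ℝ)⁻¹ := inv_pos.2 hN
  refine ⟨fun I => (S.card : ℝ)⁻¹ * ∑ T ∈ S, if I ⊆ T then (1 : ℝ) else 0, ⟨?_, ?_, ?_, ?_⟩, ?_⟩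
  · simp only [Finset.empty_subset, if_true, Finset.sum_const, nsmul_eq_mul, mul_one]
    exact inv_mul_cancel₀ hN.ne'
  · intro I
    refine mul_nonneg hN'.le (Finset.sum_nonneg ?_)
    intro T _; split_ifs <;> norm_num
  · intro I a ha b hb hab
    have : (∑ T ∈ S, if I ⊆ T then (1 : ℝ) else 0) = 0 := by
      refine Finset.sum_eq_zero ?_
      intro T hT
      have hT' := (hmem T).1 hT
      rw [if_neg]
      intro hI
      exact hT' a (hI ha) b (hI hb) hab
    simp only [this, mul_zero]
  · intro Q _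
    exact (PSD.sum S (fun T _ => feas_psd_ind Q T)).smul hN'.le
  · intro I hI
    refine mul_pos hN' ?_
    refine Finset.sum_pos' ?_ ⟨I, (hmem I).2 hI, ?_⟩
    · intro T _; split_ifs <;> norm_num
    · simp

/-- an independent set `T` gives a feasible point: `ν I = 1` if `I ⊆ T` -/
theorem kpoint_of_ind {G : SimpleGraph V} (k : ℕ) {T : Finset V} (hT : Ind G T) :
    KPoint G k (fun I => if I ⊆ T then 1 else 0) := by
  refine ⟨?_, ?_, ?_, ?_⟩
  · simp
  · intro I; split_ifs <;> norm_num
  · intro I a ha b hb hab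
    rw [if_neg]
    intro hI
    exact hT a (hI ha) b (hI hb) hab
  · intro Q _
    exact feas_psd_ind Q T

/-- PROOF. `c none = 1`, `c (some v) = -1` and `Q = ∅` give `1 - 2 ν {v} + ν {v} ≥ 0`. -/
theorem KPoint.sing_le {G : SimpleGraph V} {k : ℕ} (hk : 2 ≤ k) {ν : Finset V → ℝ}
    (h : KPoint G k ν) (v : V) : ν {v} ≤ 1 := by
  have h1 := (h.psd ∅ (by simpa using hk)).sq_le none (some v)
  simp only [Finset.empty_union, Option.toFinset_none, Option.toFinset_some,
    Finset.union_idempotent, h.empty, one_mul] at h1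
  have h2 := h.nonneg {v}
  nlinarith

theorem ThetaFeas.le_one {G : SimpleGraph V} {y : V → ℝ} {Y : V → V → ℝ} (h : ThetaFeas G y Y)
    (v : V) : 0 ≤ y v ∧ y v ≤ 1 := by
  obtain ⟨_, h2, _, h4⟩ := h
  have key : ∀ a s : ℝ, 0 ≤ a ^ 2 + 2 * a * (s * y v) + s * s * y v := by
    intro a s
    have := h4 a (fun w => if w = v then s else 0)
    simp only [ite_mul, zero_mul, mul_ite, mul_zero, Finset.sum_ite_eq', Finset.mem_univ,
      if_true, h2] at this
    exact this
  constructor
  · have := key 0 1; linarith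
  · have := key 1 (-1); linarith

end Pool.Agent.W_79d227_kp
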