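import Pool.Agent.W_79d227_kp.PolarM
import Pool.Agent.W_79d227_h9.Polar

set_option autoImplicit false

/-!
# Graphs with independence number at most two and large Lovász number
-/

namespace Pool.Agent.W_79d227_kp

open Finset

private theorem Polar_row {V : Type} [Fintype V] {X : V → V → ℝ} (hX : PSD X) {u : V}
    (h : X u u = 0) (v : V) : X u v = 0 := by
  have h1 := hX.sq_le u v
  rw [h, zero_mul] at h1
  exact (pow_eq_zero_iff two_ne_zero).1 (le_antisymm h1 (sq_nonneg _))

/-- PROOF. `r u = ∑ v, X u v`, `τ = ∑ r u`, `y u = r u ^ 2 / (τ X u u)`, `Y u v = r u r v X u v / (τ X u u X v v)`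
(division by `0` is `0`; if `X u u = 0` the row vanishes by `PSD.sq_le`). With `e u = c u r u / X u u` the bordered form is
`(1 / τ) ∑ ∑ (a + e u) (a + e v) X u v`. Cauchy-Schwarz: `∑ r² / X ≥ (∑ r)² / ∑ X u u`. -/
theorem theta_of_matrix {V : Type} [Fintype V] {G : SimpleGraph V} {X : V → V → ℝ} (hX : PSD X)
    (hE : ∀ u v, G.Adj u v → X u v = 0) (htr : ∑ v, X v v = 1)
    (hτ : 0 < ∑ u, ∑ v, X u v) :
    ∃ (y : V → ℝ) (Y : V → V → ℝ), ThetaFeas G y Y ∧ ∑ u, ∑ v, X u v ≤ ∑ v, y v := by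
  obtain ⟨r, hr⟩ : ∃ r : V → ℝ, ∀ u, r u = ∑ v, X u v := ⟨_, fun _ => rfl⟩
  obtain ⟨τ, hτd⟩ : ∃ τ : ℝ, τ = ∑ u, ∑ v, X u v := ⟨_, rfl⟩
  have hτr : τ = ∑ u, r u := by
    rw [hτd]
    exact sum_congr rfl fun u _ => (hr u).symm
  rw [← hτd] at hτ ⊢
  have hr0 : ∀ u, X u u = 0 → r u = 0 := fun u h => by
    rw [hr]
    exact Finset.sum_eq_zero fun v _ => Polar_row hX h v
  refine ⟨fun u => r u ^ 2 / (τ * X u u), fun u v => r u * r v * X u v / (τ * X u u * X v v),
    ⟨?_, ?_, ?_, ?_⟩, ?_⟩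
  · intro u v
    beta_reduce
    rw [hX.1 u v]
    ring
  · intro v
    beta_reduce
    by_cases h : X v v = 0
    · simp [h]
    · field_simp
  · intro u v huv
    beta_reduce
    rw [hE u v huv]
    simp
  · intro a c
    obtain ⟨e, he⟩ : ∃ e : V → ℝ, ∀ u, e u = c u * r u / X u u := ⟨_, fun _ => rfl⟩
    have h1 := hX.2 (fun u => a + e u)
    have h3 : ∑ x, ∑ y, a * e x * X x y = a * ∑ x, e x * r x := by
      rw [mul_sum]
      refine sum_congr rfl fun x _ => ?_
      rw [hr, ← mul_sum]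
      ring
    have h4 : ∑ x, ∑ y, a * e y * X x y = a * ∑ x, e x * r x := by
      rw [sum_comm, ← h3]
      refine sum_congr rfl fun x _ => sum_congr rfl fun y _ => ?_
      rw [hX.1 y x]
    have h5 : ∑ x, ∑ y, a ^ 2 * X x y = a ^ 2 * τ := by
      rw [hτd, mul_sum]
      exact sum_congr rfl fun x _ => (mul_sum _ _ _).symm
    have h2 : ∑ x, ∑ y, (a + e x) * (a + e y) * X x y =
        a ^ 2 * τ + 2 * a * ∑ u, e u * r u + ∑ u, ∑ v, e u * e v * X u v := by
      have h6 : ∑ x, ∑ y, (a + e x) * (a + e y) * X x y = ∑ x, ∑ y, a ^ 2 * X x y +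
          ∑ x, ∑ y, a * e x * X x y + ∑ x, ∑ y, a * e y * X x y +
          ∑ x, ∑ y, e x * e y * X x y := by
        rw [← sum_add_distrib, ← sum_add_distrib, ← sum_add_distrib]
        refine sum_congr rfl fun x _ => ?_
        rw [← sum_add_distrib, ← sum_add_distrib, ← sum_add_distrib]
        exact sum_congr rfl fun y _ => by ring
      rw [h6, h3, h4, h5]
      ring
    rw [h2] at h1
    have h7 : ∑ v, c v * (r v ^ 2 / (τ * X v v)) = (∑ u, e u * r u) / τ := by
      rw [sum_div]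
      refine sum_congr rfl fun v _ => ?_
      rw [he]
      ring
    have h8 : ∑ u, ∑ v, c u * c v * (r u * r v * X u v / (τ * X u u * X v v)) =
        (∑ u, ∑ v, e u * e v * X u v) / τ := by
      rw [sum_div]
      refine sum_congr rfl fun u _ => ?_
      rw [sum_div]
      refine sum_congr rfl fun v _ => ?_
      rw [he, he]
      ring
    rw [h7, h8]
    have h9 : a ^ 2 + 2 * a * ((∑ u, e u * r u) / τ) + (∑ u, ∑ v, e u * e v * X u v) / τ =
        (a ^ 2 * τ + 2 * a * ∑ u, e u * r u + ∑ u, ∑ v, e u * e v * X u v) / τ := by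
      field_simp
    rw [h9]
    exact div_nonneg h1 hτ.le
  · have hcs : (∑ u, r u) ^ 2 ≤ (∑ u, r u ^ 2 / X u u) * ∑ u, X u u := by
      apply Finset.sum_sq_le_sum_mul_sum_of_sq_eq_mul
      · intro u _
        exact div_nonneg (sq_nonneg _) (hX.diag_nonneg u)
      · intro u _
        exact hX.diag_nonneg u
      · intro u _
        by_cases h : X u u = 0
        · rw [hr0 u h, h]
          simp
        · field_simp
    rw [htr, mul_one, ← hτr] at hcs
    have h1 : ∑ v, r v ^ 2 / (τ * X v v) = (∑ u, r u ^ 2 / X u u) / τ := by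
      rw [sum_div]
      exact sum_congr rfl fun v _ => by ring
    beta_reduce
    rw [h1, le_div_iff₀ hτ, ← sq]
    exact hcs

/-- PROOF. `V = {v : 2 v.2 - v.1² not a square}`, distinct `u, v` adjacent unless `u.2 + v.2 = u.1 v.1`; as in
`Pool.Agent.W_79d227_h9.exists_polar` (`polar_tri`, `polar_card`: `2 |V| = p (p - 1)`).
`X = (δ + M / √p) / |V|` is PSD (`Mp_form` for functions supported on `V`), its sum is
`1 + (∑∑_V M) / (√p |V|) ≥ 1 + (|V| / p - √p) / √p = |V| / (p √p) = (p - 1) / (2 √p)`; `theta_of_matrix`. Take a large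
prime `p`. -/
theorem exists_theta_large (B : ℝ) :
    ∃ (V : Type) (_ : Fintype V) (_ : DecidableEq V) (G : SimpleGraph V),
      Pool.Agent.W_79d227_h9.AlphaLE G 2 ∧
      ∃ (y : V → ℝ) (Y : V → V → ℝ), ThetaFeas G y Y ∧ B < ∑ v, y v := by
  classical
  obtain ⟨N, hN⟩ := exists_nat_gt ((2 * |B| + 1) ^ 2)
  obtain ⟨p, hpN, hp⟩ := Nat.exists_infinite_primes (N + 3)
  haveI : Fact p.Prime := ⟨hp⟩
  have hp2 : p ≠ 2 := by omega
  let V : Type := {v : ZMod p × ZMod p // ¬ IsSquare (2 * v.2 - v.1 ^ 2)}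
  let G : SimpleGraph V :=
    { Adj := fun u v => u ≠ v ∧ ¬ (u.1.2 + v.1.2 = u.1.1 * v.1.1)
      symm := ⟨fun u v h => ⟨h.1.symm, fun h' => h.2 (by rw [add_comm, h', mul_comm])⟩⟩
      loopless := ⟨fun u h => h.1 rfl⟩ }
  have hself : ∀ u : V, u.1.2 + u.1.2 ≠ u.1.1 * u.1.1 := by
    intro u h
    apply u.2
    have : 2 * u.1.2 - u.1.1 ^ 2 = 0 := by linear_combination h
    rw [this]
    exact IsSquare.zero
  have hcard : 2 * Fintype.card V = p * (p - 1) := by
    rw [← Nat.card_eq_fintype_card]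
    exact W_79d227_h9.polar_card p hp2
  -- numbers
  have hp3 : 3 ≤ p := by omega
  have hpR : (3 : ℝ) ≤ p := by exact_mod_cast hp3
  have hcardR : 2 * (Fintype.card V : ℝ) = p * (p - 1) := by
    have h1 : ((2 * Fintype.card V : ℕ) : ℝ) = ((p * (p - 1) : ℕ) : ℝ) := by rw [hcard]
    rw [Nat.cast_mul, Nat.cast_mul, Nat.cast_sub (by omega)] at h1
    simpa using h1
  obtain ⟨n, hn⟩ : ∃ n : ℝ, n = (Fintype.card V : ℝ) := ⟨_, rfl⟩
  rw [← hn] at hcardR
  have hn0 : 0 < n := by nlinarith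
  obtain ⟨q, hq⟩ : ∃ q : ℝ, q = √(p : ℝ) := ⟨_, rfl⟩
  have hq0 : 0 < q := by rw [hq]; exact Real.sqrt_pos.2 (by linarith)
  have hqq : q * q = p := by rw [hq]; exact Real.mul_self_sqrt (by linarith)
  -- quadratic form on `V`
  have hform : ∀ c : V → ℝ, (∑ u, c u) ^ 2 / p - q * ∑ u, c u ^ 2 ≤
      ∑ u, ∑ v, c u * c v * Mp p u.1 v.1 := by
    intro c
    have h1 := Mp_form p (fun w => if h : ¬ IsSquare (2 * w.2 - w.1 ^ 2) then c ⟨w, h⟩ else 0)
    have hsub : ∀ g : ZMod p × ZMod p → ℝ, (∀ w, IsSquare (2 * w.2 - w.1 ^ 2) → g w = 0) →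
        ∑ w, g w = ∑ u : V, g u.1 := by
      intro g hg
      have h2 : ∑ w, g w = ∑ w ∈ univ.filter (fun w : ZMod p × ZMod p =>
          ¬ IsSquare (2 * w.2 - w.1 ^ 2)), g w := by
        rw [Finset.sum_filter]
        refine sum_congr rfl fun w _ => ?_
        by_cases hw : IsSquare (2 * w.2 - w.1 ^ 2)
        · rw [if_neg (not_not.2 hw), hg w hw]
        · rw [if_pos hw]
      rw [h2]
      exact Finset.sum_subtype _ (fun w => by simp) _
    have hval : ∀ u : V, (if h : ¬ IsSquare (2 * u.1.2 - u.1.1 ^ 2) then c ⟨u.1, h⟩ else 0) =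
        c u := by
      intro u
      rw [dif_pos u.2]
    rw [hsub _ (fun w hw => dif_neg (not_not.2 hw)), hsub _ (fun w hw => by
        rw [dif_neg (not_not.2 hw)]; simp), hsub _ (fun w hw => by
        refine Finset.sum_eq_zero fun v _ => ?_
        rw [dif_neg (not_not.2 hw)]; simp)] at h1
    simp only [hval] at h1
    rw [← hq] at h1
    refine h1.trans (le_of_eq ?_)
    refine sum_congr rfl fun u _ => ?_
    rw [hsub _ (fun w hw => by rw [dif_neg (not_not.2 hw)]; simp)]
    simp only [hval]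
  -- the matrix
  have hsymM : ∀ u v : ZMod p × ZMod p, Mp p u v = Mp p v u := by
    intro u v
    unfold Mp
    congr 1
    exact propext ⟨fun h => by rw [add_comm, h, mul_comm], fun h => by rw [add_comm, h, mul_comm]⟩
  let X : V → V → ℝ := fun u v => ((if u = v then 1 else 0) + Mp p u.1 v.1 / q) / n
  have hXform : ∀ c : V → ℝ, ∑ u, ∑ v, c u * c v * X u v =
      (∑ u, c u ^ 2 + (∑ u, ∑ v, c u * c v * Mp p u.1 v.1) / q) / n := by
    intro c
    have h1 : ∀ u, ∑ v, c u * c v * X u v =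
        (c u ^ 2 + (∑ v, c u * c v * Mp p u.1 v.1) / q) / n := by
      intro u
      have h2 : ∀ v, c u * c v * X u v =
          ((if u = v then c u * c v else 0) + c u * c v * Mp p u.1 v.1 / q) / n := by
        intro v
        change c u * c v * (((if u = v then 1 else 0) + Mp p u.1 v.1 / q) / n) = _
        split_ifs <;> ring
      rw [sum_congr rfl fun v _ => h2 v, ← sum_div, sum_add_distrib, Finset.sum_ite_eq,
        if_pos (mem_univ u), ← sum_div]
      ring
    rw [sum_congr rfl fun u _ => h1 u, ← sum_div, sum_add_distrib, ← sum_div]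
  have hX : PSD X := by
    refine ⟨fun u v => ?_, fun c => ?_⟩
    · change ((if u = v then 1 else 0) + Mp p u.1 v.1 / q) / n =
        ((if v = u then 1 else 0) + Mp p v.1 u.1 / q) / n
      rw [hsymM u.1 v.1]
      by_cases h : u = v
      · rw [if_pos h, if_pos h.symm]
      · rw [if_neg h, if_neg (Ne.symm h)]
    · rw [hXform c]
      refine div_nonneg ?_ hn0.le
      have h1 := hform c
      have h2 : 0 ≤ (∑ u, c u) ^ 2 / p := by positivity
      have h3 : -(q * ∑ u, c u ^ 2) ≤ ∑ u, ∑ v, c u * c v * Mp p u.1 v.1 := by linarith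
      have h4 : -∑ u, c u ^ 2 ≤ (∑ u, ∑ v, c u * c v * Mp p u.1 v.1) / q := by
        rw [le_div_iff₀ hq0]
        linarith
      linarith
  have hE : ∀ u v, G.Adj u v → X u v = 0 := by
    intro u v huv
    change ((if u = v then 1 else 0) + Mp p u.1 v.1 / q) / n = 0
    have h1 : Mp p u.1 v.1 = 0 := if_neg huv.2
    rw [if_neg huv.1, h1]
    simp
  have htr : ∑ v, X v v = 1 := by
    have h1 : ∀ v : V, X v v = 1 / n := by
      intro v
      change ((if v = v then 1 else 0) + Mp p v.1 v.1 / q) / n = 1 / n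
      have h2 : Mp p v.1 v.1 = 0 := if_neg (hself v)
      rw [if_pos rfl, h2]
      simp
    rw [sum_congr rfl fun v _ => h1 v, sum_const, card_univ, nsmul_eq_mul, ← hn]
    field_simp
  have hsum : (p - 1) / (2 * q) ≤ ∑ u, ∑ v, X u v := by
    have h1 := hXform (fun _ => 1)
    simp only [one_mul, one_pow, sum_const, card_univ, nsmul_eq_mul, mul_one] at h1
    have h2 := hform (fun _ => 1)
    simp only [one_mul, one_pow, sum_const, card_univ, nsmul_eq_mul, mul_one] at h2
    rw [← hn] at h1 h2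
    rw [h1]
    have h3 : (n ^ 2 / p - q * n) / q ≤ (∑ u : V, ∑ v : V, Mp p u.1 v.1) / q :=
      div_le_div_of_nonneg_right h2 hq0.le
    have h4 : (n + (n ^ 2 / p - q * n) / q) / n ≤
        (n + (∑ u : V, ∑ v : V, Mp p u.1 v.1) / q) / n :=
      div_le_div_of_nonneg_right (by linarith) hn0.le
    refine le_trans (le_of_eq ?_) h4
    have h5 : (n + (n ^ 2 / p - q * n) / q) / n = n / (p * q) := by
      field_simp
      ring
    rw [h5, div_eq_div_iff (by positivity) (by positivity)]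
    have h6 : (2 * n) * q = p * (p - 1) * q := by rw [hcardR]
    linarith
  have hlarge : B < (p - 1) / (2 * q) := by
    rw [lt_div_iff₀ (by positivity)]
    have h1 : 2 * |B| + 1 < q := by
      rw [hq]
      apply Real.lt_sqrt_of_sq_lt
      refine hN.trans_le ?_
      have : N ≤ p := by omega
      exact_mod_cast this
    have h2 : B ≤ |B| := le_abs_self B
    have h3 : 0 ≤ |B| := abs_nonneg B
    nlinarith
  have hpos : 0 < ∑ u, ∑ v, X u v := by
    refine lt_of_lt_of_le ?_ hsum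
    exact div_pos (by linarith) (by positivity)
  obtain ⟨y, Y, hY, hy⟩ := theta_of_matrix (G := G) hX hE htr hpos
  refine ⟨V, inferInstance, inferInstance, G, ?_, y, Y, hY, ?_⟩
  · intro T hT
    by_contra hcard
    push Not at hcard
    obtain ⟨u, hu, v, hv, w, hw, huv, huw, hvw⟩ := Finset.two_lt_card.1 hcard
    have hadj : ∀ x ∈ T, ∀ y ∈ T, x ≠ y → x.1.2 + y.1.2 = x.1.1 * y.1.1 := by
      intro x hx y hy hxy
      by_contra hne
      exact hT x hx y hy hxy ⟨hxy, hne⟩
    exact W_79d227_h9.polar_tri p _ _ _ _ _ _ u.2 v.2 w.2 (hadj u hu v hv huv)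
      (hadj v hv w hw hvw) (hadj u hu w hw huw)
  · exact hlarge.trans_le (hsum.trans hy)

end Pool.Agent.W_79d227_kp
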