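import Pool.Agent.W_79d227_kp.Induct
import Pool.Agent.W_79d227_kp.Polar

set_option autoImplicit false

/-!
# The bounds as suprema
-/

namespace Pool.Agent.W_79d227_kp

open Finset

/-- every value is at most the number of vertices (`KPoint.sing_le`) -/
theorem kPoint_bdd {V : Type} [Fintype V] [DecidableEq V] (G : SimpleGraph V) {k : ℕ}
    (hk : 2 ≤ k) : BddAbove {t | ∃ ν : Finset V → ℝ, KPoint G k ν ∧ ∑ v, ν {v} = t} := by
  refine ⟨(Fintype.card V : ℝ), ?_⟩
  rintro t ⟨ν, h, rfl⟩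
  calc ∑ v, ν {v} ≤ ∑ _v : V, (1 : ℝ) := Finset.sum_le_sum fun v _ => h.sing_le hk v
    _ = (Fintype.card V : ℝ) := by simp

theorem le_kPoint {V : Type} [Fintype V] [DecidableEq V] {G : SimpleGraph V} {k : ℕ}
    (hk : 2 ≤ k) {ν : Finset V → ℝ} (h : KPoint G k ν) : ∑ v, ν {v} ≤ kPoint G k :=
  le_csSup (kPoint_bdd G hk) ⟨ν, h, rfl⟩

private theorem kPoint_set_nonempty {V : Type} [Fintype V] [DecidableEq V] (G : SimpleGraph V)
    (k : ℕ) : {t | ∃ ν : Finset V → ℝ, KPoint G k ν ∧ ∑ v, ν {v} = t}.Nonempty := by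
  obtain ⟨ν, h, -⟩ := exists_kpoint_pos G k
  exact ⟨_, ν, h, rfl⟩

private theorem kPoint_nonneg {V : Type} [Fintype V] [DecidableEq V] (G : SimpleGraph V) {k : ℕ}
    (hk : 2 ≤ k) : 0 ≤ kPoint G k := by
  obtain ⟨ν, h, -⟩ := exists_kpoint_pos G k
  exact (Finset.sum_nonneg fun v _ => h.nonneg _).trans (le_kPoint hk h)

private theorem theta_of_kpoint {V : Type} [Fintype V] [DecidableEq V] {G : SimpleGraph V}
    {k : ℕ} (hk : 2 ≤ k) {ν : Finset V → ℝ} (h : KPoint G k ν) :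
    ThetaFeas G (fun v => ν {v}) (fun u v => ν {u, v}) := by
  refine ⟨fun u v => congrArg ν (Finset.pair_comm u v), fun v => by simp, fun u v huv => ?_, ?_⟩
  · exact h.indep {u, v} u (by simp) v (by simp) huv
  · intro a c
    have h1 := (h.psd ∅ (by simpa using hk)).2 (fun x => x.elim a c)
    have h2 : (∑ x : Option V, ∑ y : Option V, (x.elim a c) * (y.elim a c) *
        ν (∅ ∪ x.toFinset ∪ y.toFinset)) =
        a ^ 2 + 2 * a * ∑ v, c v * ν {v} + ∑ u, ∑ v, c u * c v * ν {u, v} := by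
      rw [Fintype.sum_option]
      rw [Fintype.sum_option]
      have h3 : ∀ u : V, (∑ y : Option V, ((some u).elim a c) * (y.elim a c) *
          ν (∅ ∪ (some u).toFinset ∪ y.toFinset)) =
          a * (c u * ν {u}) + ∑ v, c u * c v * ν {u, v} := by
        intro u
        rw [Fintype.sum_option]
        simp only [Option.elim, Option.toFinset_some, Option.toFinset_none, Finset.empty_union,
          Finset.union_empty]
        congr 1
        · ring
      rw [Finset.sum_congr rfl fun u _ => h3 u, Finset.sum_add_distrib, ← Finset.mul_sum]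
      simp only [Option.elim, Option.toFinset_some, Option.toFinset_none, Finset.empty_union,
        Finset.union_empty, h.empty]
      have h4 : (∑ x : V, a * c x * ν {x}) = a * ∑ v, c v * ν {v} := by
        rw [Finset.mul_sum]
        exact Finset.sum_congr rfl fun v _ => by ring
      rw [h4]
      ring
    rw [← h2]
    exact h1

private theorem theta_bdd {V : Type} [Fintype V] (G : SimpleGraph V) :
    BddAbove {t | ∃ (y : V → ℝ) (Y : V → V → ℝ), ThetaFeas G y Y ∧ ∑ v, y v = t} := by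
  refine ⟨(Fintype.card V : ℝ), ?_⟩
  rintro t ⟨y, Y, h, rfl⟩
  classical
  calc ∑ v, y v ≤ ∑ _v : V, (1 : ℝ) := Finset.sum_le_sum fun v _ => (h.le_one v).2
    _ = (Fintype.card V : ℝ) := by simp

private theorem theta_set_nonempty {V : Type} [Fintype V] [DecidableEq V] (G : SimpleGraph V) :
    {t | ∃ (y : V → ℝ) (Y : V → V → ℝ), ThetaFeas G y Y ∧ ∑ v, y v = t}.Nonempty := by
  obtain ⟨ν, h, -⟩ := exists_kpoint_pos G 2
  exact ⟨_, _, _, theta_of_kpoint le_rfl h, rfl⟩

private theorem theta_nonneg {V : Type} [Fintype V] [DecidableEq V] (G : SimpleGraph V) :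
    0 ≤ lovaszTheta G := by
  obtain ⟨t, y, Y, h, rfl⟩ := theta_set_nonempty G
  exact (Finset.sum_nonneg fun v _ => (h.le_one v).1).trans (le_csSup (theta_bdd G) ⟨y, Y, h, rfl⟩)

/-- `Y u v = ν {u, v}`, `ThetaFeas.le_one` for the boundedness -/
theorem kPoint_le_theta {V : Type} [Fintype V] [DecidableEq V] (G : SimpleGraph V) {k : ℕ}
    (hk : 2 ≤ k) : kPoint G k ≤ lovaszTheta G := by
  refine csSup_le (kPoint_set_nonempty G k) ?_
  rintro t ⟨ν, h, rfl⟩
  exact le_csSup (theta_bdd G) ⟨_, _, theta_of_kpoint hk h, rfl⟩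

theorem card_le_kPoint {V : Type} [Fintype V] [DecidableEq V] (G : SimpleGraph V) {k : ℕ}
    (hk : 2 ≤ k) {T : Finset V} (hT : Ind G T) : (T.card : ℝ) ≤ kPoint G k := by
  have h := le_kPoint hk (kpoint_of_ind (G := G) k hT)
  have h1 : (∑ v, (if ({v} : Finset V) ⊆ T then (1 : ℝ) else 0)) = T.card := by
    simp [Finset.singleton_subset_iff]
  rw [h1] at h
  exact h

/-- PROOF. `theta_power` for every feasible point; the supremum of the numbers `t ≥ 0` with `t ^ n ≤ K` satisfies the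
same inequality. -/
theorem schrijver_power {V : Type} [Fintype V] [DecidableEq V] (G : SimpleGraph V) (n : ℕ) :
    lovaszTheta G ^ n / ((n + Fintype.card V).choose (Fintype.card V) : ℕ) ≤
      kPoint (powG G n) 2 := by
  have hC : (0 : ℝ) < ((n + Fintype.card V).choose (Fintype.card V) : ℕ) := by
    exact_mod_cast Nat.choose_pos (Nat.le_add_left _ _)
  have hall : ∀ (y : V → ℝ) (Y : V → V → ℝ), ThetaFeas G y Y →
      (∑ v, y v) ^ n / ((n + Fintype.card V).choose (Fintype.card V) : ℕ) ≤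
        kPoint (powG G n) 2 := by
    intro y Y h
    obtain ⟨ν, hν, h1⟩ := theta_power h n
    exact h1.trans (le_kPoint le_rfl hν)
  rcases Nat.eq_zero_or_pos n with rfl | hn
  · obtain ⟨t, y, Y, h, -⟩ := theta_set_nonempty G
    have := hall y Y h
    simpa using this
  · rw [div_le_iff₀ hC]
    by_contra hcon
    push Not at hcon
    set K := kPoint (powG G n) 2 * (((n + Fintype.card V).choose (Fintype.card V) : ℕ) : ℝ)
      with hK
    have hK0 : 0 ≤ K := mul_nonneg (kPoint_nonneg _ le_rfl) hC.le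
    have hr0 : 0 ≤ K ^ ((n : ℝ)⁻¹) := Real.rpow_nonneg hK0 _
    have hrn : (K ^ ((n : ℝ)⁻¹)) ^ n = K := Real.rpow_inv_natCast_pow hK0 hn.ne'
    have hlt : K ^ ((n : ℝ)⁻¹) < lovaszTheta G := by
      by_contra hc
      push Not at hc
      have := pow_le_pow_left₀ (theta_nonneg G) hc n
      rw [hrn] at this
      exact absurd hcon (not_lt.2 this)
    obtain ⟨t, ⟨y, Y, h, rfl⟩, ht⟩ := exists_lt_of_lt_csSup (theta_set_nonempty G) hlt
    have h1 := hall y Y h
    rw [div_le_iff₀ hC] at h1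
    have h2 := pow_lt_pow_left₀ ht hr0 hn.ne'
    rw [hrn] at h2
    exact absurd h1 (not_le.2 h2)

/-- PROOF. `exists_lt_of_lt_csSup`, `good_all`, `le_kPoint`. -/
theorem kPoint_power {V : Type} [Fintype V] [DecidableEq V] (G : SimpleGraph V) {k : ℕ}
    (hk : 2 ≤ k) {t : ℝ} (ht : 0 ≤ t) (hlt : t < lovaszTheta G) :
    ∃ n₀ : ℕ, ∀ n, n₀ ≤ n → t ^ n ≤ kPoint (powG G n) k := by
  obtain ⟨s, ⟨y, Y, h, rfl⟩, hs⟩ := exists_lt_of_lt_csSup (theta_set_nonempty G) hlt
  obtain ⟨n₀, hn₀⟩ := good_all h hk ht hs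
  refine ⟨n₀, fun n hn => ?_⟩
  obtain ⟨ν, hν, h1⟩ := hn₀ n hn
  exact h1.trans (le_kPoint hk hν)

/-- PROOF. `exists_theta_large` for `|B| + 1`, `le_csSup`, `kPoint_power`. -/
theorem kPoint_unbounded (B : ℝ) :
    ∃ (V : Type) (_ : Fintype V) (_ : DecidableEq V) (G : SimpleGraph V),
      Pool.Agent.W_79d227_h9.AlphaLE G 2 ∧
      ∀ k, 2 ≤ k → ∃ n₀ : ℕ, ∀ n, n₀ ≤ n → B ^ n ≤ kPoint (powG G n) k := by
  obtain ⟨V, hF, hD, G, hA, y, Y, h, hB⟩ := exists_theta_large (|B| + 1)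
  refine ⟨V, hF, hD, G, hA, fun k hk => ?_⟩
  have h1 : |B| < lovaszTheta G :=
    (by linarith : |B| < ∑ v, y v).trans_le (le_csSup (theta_bdd G) ⟨y, Y, h, rfl⟩)
  obtain ⟨n₀, hn₀⟩ := kPoint_power G hk (abs_nonneg B) h1
  refine ⟨n₀, fun n hn => le_trans ?_ (hn₀ n hn)⟩
  rw [← abs_pow]
  exact le_abs_self _

end Pool.Agent.W_79d227_kp
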