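import Pool.Agent.W_79d227_kp.Prod

set_option autoImplicit false

/-!
# From one power to all large powers
-/

namespace Pool.Agent.W_79d227_kp

open Finset

variable {V : Type} [Fintype V] [DecidableEq V]

/-- the feasible point of one vertex -/
private theorem Good_point {W : Type} [Fintype W] [DecidableEq W] (G : SimpleGraph W) (k : ℕ)
    (z : W) : KPoint G k (fun I : Finset W => if I ⊆ {z} then (1 : ℝ) else 0) where
  empty := by simp
  nonneg I := by
    split_ifs <;> norm_num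
  indep I a ha b hb hab := by
    rw [if_neg]
    intro h
    have h1 := mem_singleton.1 (h ha)
    have h2 := mem_singleton.1 (h hb)
    rw [h1, h2] at hab
    exact G.irrefl hab
  psd Q _ := by
    have h1 := ((PSD.rankOne (fun x : Option W => if x.toFinset ⊆ {z} then (1 : ℝ) else 0)).smul
      (a := if Q ⊆ {z} then (1 : ℝ) else 0) (by split_ifs <;> norm_num))
    have h2 : (fun x y : Option W => if Q ∪ x.toFinset ∪ y.toFinset ⊆ {z} then (1 : ℝ) else 0) =
        fun x y : Option W => (if Q ⊆ {z} then (1 : ℝ) else 0) *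
          ((if x.toFinset ⊆ {z} then (1 : ℝ) else 0) *
            if y.toFinset ⊆ {z} then (1 : ℝ) else 0) := by
      funext x y
      by_cases ha : Q ⊆ {z} <;> by_cases hb : x.toFinset ⊆ {z} <;>
        by_cases hc : y.toFinset ⊆ {z} <;>
        simp only [union_subset_iff, ha, hb, hc, and_true, and_false, and_self,
          if_true, if_false, mul_one, mul_zero]
    rw [h2]
    exact h1

private theorem Good_point_sum {W : Type} [Fintype W] [DecidableEq W] (z : W) :
    ∑ w : W, (if ({w} : Finset W) ⊆ {z} then (1 : ℝ) else 0) = 1 := by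
  rw [sum_eq_single z]
  · simp
  · intro w _ hw
    rw [if_neg]
    intro h
    exact hw (mem_singleton.1 (h (mem_singleton_self w)))
  · intro h
    exact absurd (mem_univ z) h

/-- one word: `ν I = 1` if `I ⊆ {z}` (`V` nonempty, or `n = 0`) -/
theorem kpoint_one [Nonempty V] (G : SimpleGraph V) (k n : ℕ) :
    ∃ ν : Finset (Fin n → V) → ℝ, KPoint (powG G n) k ν ∧ 1 ≤ ∑ z, ν {z} :=
  ⟨_, Good_point (powG G n) k (Classical.arbitrary (Fin n → V)), (Good_point_sum _).ge⟩

private theorem Good_cast {G : SimpleGraph V} {k a b : ℕ} (hab : a = b) {s : ℝ}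
    (h : ∃ ν : Finset (Fin a → V) → ℝ, KPoint (powG G a) k ν ∧ ∑ z, ν {z} = s) :
    ∃ ν : Finset (Fin b → V) → ℝ, KPoint (powG G b) k ν ∧ ∑ z, ν {z} = s := by
  subst hab
  exact h

/-- PROOF. `q` times `kpoint_prod`. -/
theorem kpoint_iter {G : SimpleGraph V} {k m : ℕ} {ν : Finset (Fin m → V) → ℝ}
    (h : KPoint (powG G m) k ν) (q : ℕ) :
    ∃ ν' : Finset (Fin (q * m) → V) → ℝ, KPoint (powG G (q * m)) k ν' ∧
      ∑ z, ν' {z} = (∑ z, ν {z}) ^ q := by
  induction q with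
  | zero =>
    refine Good_cast (zero_mul m).symm ?_
    rw [pow_zero]
    exact ⟨_, Good_point (powG G 0) k (fun i => Fin.elim0 i), Good_point_sum _⟩
  | succ q ih =>
    obtain ⟨ν', h', hs⟩ := ih
    refine Good_cast (Nat.succ_mul q m).symm ?_
    obtain ⟨ν'', h'', hs''⟩ := kpoint_prod h' h
    refine ⟨ν'', h'', ?_⟩
    rw [hs'', hs, pow_succ]

/-- the large powers have a feasible point of value at least `t ^ n` -/
def Good (G : SimpleGraph V) (k : ℕ) (t : ℝ) : Prop :=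
  ∃ n₀ : ℕ, ∀ n, n₀ ≤ n → ∃ ν : Finset (Fin n → V) → ℝ, KPoint (powG G n) k ν ∧
    t ^ n ≤ ∑ z, ν {z}

/-- PROOF. `n = q m + r`, `r < m`: `kpoint_iter`, `kpoint_one`, `kpoint_prod` give the value at least
`(t' ^ m) ^ q`, and `t' ^ (q m) ≥ t ^ (q m + r)` for large `q` (for `t ≤ 1` the value `1` suffices). -/
theorem good_of_one [Nonempty V] {G : SimpleGraph V} {k m : ℕ} (hm : 1 ≤ m) {t t' : ℝ}
    (ht : 0 ≤ t) (htt : t < t') {ν : Finset (Fin m → V) → ℝ} (h : KPoint (powG G m) k ν)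
    (hv : t' ^ m ≤ ∑ z, ν {z}) : Good G k t := by
  have ht' : 0 < t' := lt_of_le_of_lt ht htt
  -- the numerical part
  have hnum : ∃ n₀ : ℕ, ∀ n, n₀ ≤ n → t ^ n ≤ t' ^ (n / m * m) := by
    rcases le_or_gt t 1 with h1 | h1
    · refine ⟨0, fun n _ => ?_⟩
      have hle : n / m * m ≤ n := Nat.div_mul_le_self n m
      calc t ^ n ≤ t ^ (n / m * m) := pow_le_pow_of_le_one ht h1 hle
        _ ≤ t' ^ (n / m * m) := pow_le_pow_left₀ ht htt.le _
    · have ht0 : 0 < t := by linarith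
      have hr : 1 < t' / t := by rwa [one_lt_div ht0]
      obtain ⟨N, hN⟩ := pow_unbounded_of_one_lt (t ^ m) hr
      refine ⟨N + m, fun n hn => ?_⟩
      have hmod : n % m < m := Nat.mod_lt n (by omega)
      have hdm : n / m * m + n % m = n := Nat.div_add_mod' n m
      have hNq : N ≤ n / m * m := by omega
      have e1 : t ^ n = t ^ (n / m * m) * t ^ (n % m) := by
        rw [← pow_add, hdm]
      have e2 : t ^ (n % m) ≤ t ^ m := pow_le_pow_right₀ h1.le hmod.le
      have e3 : t ^ m ≤ (t' / t) ^ (n / m * m) :=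
        hN.le.trans (pow_le_pow_right₀ hr.le hNq)
      have e4 : t ^ (n / m * m) * (t' / t) ^ (n / m * m) = t' ^ (n / m * m) := by
        rw [← mul_pow, mul_div_cancel₀ _ ht0.ne']
      calc t ^ n = t ^ (n / m * m) * t ^ (n % m) := e1
        _ ≤ t ^ (n / m * m) * (t' / t) ^ (n / m * m) :=
          mul_le_mul_of_nonneg_left (e2.trans e3) (pow_nonneg ht _)
        _ = t' ^ (n / m * m) := e4
  obtain ⟨n₀, hn₀⟩ := hnum
  refine ⟨n₀, fun n hn => ?_⟩
  obtain ⟨ν₁, k₁, s₁⟩ := kpoint_iter h (n / m)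
  obtain ⟨ν₂, k₂, s₂⟩ := kpoint_one G k (n % m)
  have hsum : n / m * m + n % m = n := Nat.div_add_mod' n m
  obtain ⟨ν₃, k₃, s₃⟩ := Good_cast hsum
    (Exists.elim (kpoint_prod k₁ k₂) fun ν'' hh => ⟨ν'', hh⟩)
  refine ⟨ν₃, k₃, ?_⟩
  rw [s₃, s₁]
  have a1 : t' ^ (n / m * m) ≤ (∑ z, ν {z}) ^ (n / m) := by
    rw [mul_comm, pow_mul]
    exact pow_le_pow_left₀ (pow_nonneg ht'.le _) hv _
  have a2 : 0 ≤ (∑ z, ν {z}) ^ (n / m) := (pow_nonneg ht'.le _).trans a1
  calc t ^ n ≤ t' ^ (n / m * m) := hn₀ n hn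
    _ ≤ (∑ z, ν {z}) ^ (n / m) := a1
    _ ≤ (∑ z, ν {z}) ^ (n / m) * ∑ z, ν₂ {z} := le_mul_of_one_le_right a2 s₂

end Pool.Agent.W_79d227_kp
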