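import Pool.Agent.W_79d227_kp.PairPow

set_option autoImplicit false

/-!
# The recursion, k = 2
-/

namespace Pool.Agent.W_79d227_kp

open Finset

variable {V : Type} [Fintype V] [DecidableEq V]

private theorem PairRec_choose (n N : ℕ) :
    (((n + 1 + N).choose N : ℕ) : ℝ) * ((n : ℝ) + 1) =
      (((n + N).choose N : ℕ) : ℝ) * ((n : ℝ) + 1 + N) := by
  have h := Nat.choose_mul_succ_eq (n + N) N
  have h1 : n + N + 1 - N = n + 1 := by omega
  rw [h1] at h
  have h2 : n + N + 1 = n + 1 + N := by omega
  rw [h2] at h
  have h3 := congrArg (fun m : ℕ => (m : ℝ)) h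
  push_cast at h3
  linarith

private theorem PairRec_Wk_nonneg (G : SimpleGraph V) [DecidableRel G.Adj] {d : V → ℝ}
    (hd : ∀ v, 0 ≤ d v) (u v : V) : 0 ≤ Wk G d u v := by
  unfold Wk
  split_ifs
  · exact hd u
  · exact le_rfl
  · positivity

private theorem PairRec_lower (G : SimpleGraph V) {t : ℝ} (ht : 0 ≤ t) {d : V → ℝ}
    {X : V → V → ℝ} (hX : Pair G t d X) (u v : V) : -√(d u * d v) ≤ X u v := by
  have hP : PSD X := by
    have h := PSD.add hX.top (PSD.smul (PSD.rankOne d) ht)
    have h2 : (fun x y : V => X x y - t * d x * d y + t * (d x * d y)) = X := by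
      funext x y
      ring
    rwa [h2] at h
  have h := hP.sq_le u v
  rw [hX.diag, hX.diag] at h
  exact (abs_le.1 (Real.abs_le_sqrt h)).1

/-- PROOF. Induction on `n`. `n = 0`: the constant `1`. Step: `ε = N / (n + 1 + N)`,
`X_{n+1} = (1 - ε) (1 / (n + 1)) ∑ i, extP .. i + ε ∏ j, W (z j) (w j)`. Diagonal: both parts have diagonal
`∏ j, d (z j)`. Value: `(1 - ε) t t_n = ((n+1)/(n+1+N)) t t_n` and
`(n + N).choose N * (n + 1 + N) = (n + 1 + N).choose N * (n + 1)`; the `W` part is PSD (`PSD.prod`, `PSD.pull`).
Nonnegativity: `extP .. i z w ≥ 0` unless `z' = w'` and `z i ≠ w i`, in which case it is at least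
`- (∏ j ≠ i, d (z j)) √(d (z i) d (w i))` (`PSD.sq_le` for `X`, `X u u = d u`), and then `i` is the only such index, so
the sum is at least this number; the `W` part is
`(∏ j ≠ i, d (z j)) √(d (z i) d (w i)) / N` if `z i, w i` are not adjacent (if they are adjacent `X (z i) (w i) = 0`),
and `(1 - ε) / (n + 1) = ε / N`. -/
theorem pair_power (G : SimpleGraph V) {t : ℝ} (ht : 0 ≤ t) {d : V → ℝ} (hd : ∀ v, 0 ≤ d v)
    (hd1 : ∑ v, d v = 1) {X : V → V → ℝ} (hX : Pair G t d X) (n : ℕ) :
    ∃ Xn : (Fin n → V) → (Fin n → V) → ℝ,
      Pair (powG G n) (t ^ n / ((n + Fintype.card V).choose (Fintype.card V) : ℕ))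
        (fun z => ∏ j, d (z j)) Xn ∧ ∀ z w, 0 ≤ Xn z w := by
  classical
  have hne : Nonempty V := by
    by_contra h
    rw [not_nonempty_iff] at h
    rw [Finset.univ_eq_empty, Finset.sum_empty] at hd1
    exact zero_ne_one hd1
  have hN : (0 : ℝ) < Fintype.card V := by exact_mod_cast Fintype.card_pos
  induction n with
  | zero =>
    refine ⟨fun _ _ => 1, ⟨fun z => ?_, fun z w h => ?_, ?_⟩, fun _ _ => zero_le_one⟩
    · simp
    · exact absurd (Subsingleton.elim z w) h.1
    · have h : (fun x y : Fin 0 → V => (1 : ℝ) -
          t ^ 0 / ((0 + Fintype.card V).choose (Fintype.card V) : ℕ) * (∏ j, d (x j)) *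
            (∏ j, d (y j))) = fun _ _ => (0 : ℝ) := by
        funext x y
        simp
      rw [h]
      exact PSD.const le_rfl
  | succ n ih =>
    obtain ⟨Xn, hXn, hnn⟩ := ih
    set N : ℝ := (Fintype.card V : ℝ) with hNdef
    have hn1 : (0 : ℝ) < (n : ℝ) + 1 := by positivity
    have hnN : (0 : ℝ) < (n : ℝ) + 1 + N := by positivity
    set tn : ℝ := t ^ n / ((n + Fintype.card V).choose (Fintype.card V) : ℕ) with htn
    have hE := fun i : Fin (n + 1) => extP_pair G ht hd hX hXn i
    set c : ℝ := 1 / ((n : ℝ) + 1 + N) with hc
    have hc0 : 0 < c := by positivity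
    have hWnn : ∀ z w : Fin (n + 1) → V, 0 ≤ ∏ j, Wk G d (z j) (w j) := fun z w =>
      Finset.prod_nonneg fun j _ => PairRec_Wk_nonneg G hd _ _
    refine ⟨fun z w => c * (∑ i, extP t d X Xn i z w) + (c * N) * ∏ j, Wk G d (z j) (w j),
      ⟨fun z => ?_, fun z w hzw => ?_, ?_⟩, fun z w => ?_⟩
    · beta_reduce
      have h1 : ∀ i ∈ (univ : Finset (Fin (n + 1))), extP t d X Xn i z z = ∏ j, d (z j) :=
        fun i _ => (hE i).diag z
      rw [Finset.sum_congr rfl h1, Finset.sum_const, Finset.card_univ, Fintype.card_fin,
        nsmul_eq_mul]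
      have h2 : ∏ j, Wk G d (z j) (z j) = ∏ j, d (z j) :=
        Finset.prod_congr rfl fun j _ => if_pos rfl
      rw [h2]
      push_cast
      have h3 : c * ((n : ℝ) + 1 + N) = 1 := by
        rw [hc]
        field_simp
      linear_combination (∏ j, d (z j)) * h3
    · beta_reduce
      have h1 : ∀ i ∈ (univ : Finset (Fin (n + 1))), extP t d X Xn i z w = 0 :=
        fun i _ => (hE i).edge z w hzw
      rw [Finset.sum_congr rfl h1, Finset.sum_const_zero, mul_zero, zero_add]
      obtain ⟨hne2, hadj⟩ := hzw
      obtain ⟨j, hj⟩ := Function.ne_iff.1 hne2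
      have h2 : Wk G d (z j) (w j) = 0 := by
        unfold Wk
        rw [if_neg hj, if_pos ((hadj j).resolve_left hj)]
      rw [Finset.prod_eq_zero (Finset.mem_univ j) h2, mul_zero]
    · have hval : t ^ (n + 1) / ((n + 1 + Fintype.card V).choose (Fintype.card V) : ℕ) =
          c * (((n : ℝ) + 1) * (t * tn)) := by
        have h1 := PairRec_choose n (Fintype.card V)
        have hp1 : (0 : ℝ) < ((n + 1 + Fintype.card V).choose (Fintype.card V) : ℕ) := by
          exact_mod_cast Nat.choose_pos (by omega)
        have hp2 : (0 : ℝ) < ((n + Fintype.card V).choose (Fintype.card V) : ℕ) := by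
          exact_mod_cast Nat.choose_pos (by omega)
        rw [← hNdef] at h1
        rw [hc, htn]
        rw [div_eq_iff hp1.ne']
        have h3 : 1 / ((n : ℝ) + 1 + N) * (((n : ℝ) + 1) *
            (t * (t ^ n / ((n + Fintype.card V).choose (Fintype.card V) : ℕ)))) *
            ((n + 1 + Fintype.card V).choose (Fintype.card V) : ℕ) =
            t ^ (n + 1) * ((((n + 1 + Fintype.card V).choose (Fintype.card V) : ℕ) * ((n : ℝ) + 1)) /
              (((n + Fintype.card V).choose (Fintype.card V) : ℕ) * ((n : ℝ) + 1 + N))) := by
          rw [pow_succ]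
          field_simp
        rw [h3, h1, div_self (by positivity), mul_one]
      have hdec : (fun z w : Fin (n + 1) → V => (c * (∑ i, extP t d X Xn i z w) +
          (c * N) * ∏ j, Wk G d (z j) (w j)) -
          t ^ (n + 1) / ((n + 1 + Fintype.card V).choose (Fintype.card V) : ℕ) *
            (∏ j, d (z j)) * (∏ j, d (w j))) = fun z w =>
          c * (∑ i, (extP t d X Xn i z w - t * tn * (∏ j, d (z j)) * (∏ j, d (w j)))) +
          (c * N) * ∏ j, Wk G d (z j) (w j) := by
        funext z w
        rw [hval, Finset.sum_sub_distrib, Finset.sum_const, Finset.card_univ, Fintype.card_fin,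
          nsmul_eq_mul]
        push_cast
        ring
      show PSD (fun z w : Fin (n + 1) → V => (c * (∑ i, extP t d X Xn i z w) +
          (c * N) * ∏ j, Wk G d (z j) (w j)) -
          t ^ (n + 1) / ((n + 1 + Fintype.card V).choose (Fintype.card V) : ℕ) *
            (∏ j, d (z j)) * (∏ j, d (w j)))
      rw [hdec]
      refine PSD.add (PSD.smul (PSD.sum univ fun i _ => (hE i).top) hc0.le)
        (PSD.smul (PSD.prod univ fun j _ => ?_) (by positivity))
      exact PSD.pull (Wk_psd G hd) (fun z : Fin (n + 1) → V => z j)
    · beta_reduce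
      by_cases hex : ∃ i : Fin (n + 1), i.removeNth z = i.removeNth w ∧ z i ≠ w i
      · obtain ⟨i, hi, hzi⟩ := hex
        have hsplit : ∀ j, j ≠ i → z j = w j := by
          intro j hj
          obtain ⟨k, rfl⟩ := Fin.exists_succAbove_eq hj
          exact congrFun hi k
        have hothers : ∀ j ∈ univ.erase i, 0 ≤ extP t d X Xn j z w := by
          intro j hj
          have hji : j ≠ i := Finset.ne_of_mem_erase hj
          have hneq : j.removeNth z ≠ j.removeNth w := by
            intro h
            obtain ⟨k, hk⟩ := Fin.exists_succAbove_eq hji.symm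
            apply hzi
            have := congrFun h k
            change z (j.succAbove k) = w (j.succAbove k) at this
            rwa [hk] at this
          unfold extP
          rw [if_neg hneq]
          have h1 := hnn (j.removeNth z) (j.removeNth w)
          have h2 := hd (z j)
          have h3 := hd (w j)
          positivity
        have hsum : extP t d X Xn i z w ≤ ∑ j, extP t d X Xn j z w := by
          rw [← Finset.add_sum_erase univ (fun j => extP t d X Xn j z w) (Finset.mem_univ i)]
          have := Finset.sum_nonneg hothers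
          linarith
        set D : ℝ := ∏ j, d (i.removeNth z j) with hD
        have hD0 : 0 ≤ D := Finset.prod_nonneg fun j _ => hd _
        have hext : extP t d X Xn i z w = D * X (z i) (w i) := by
          unfold extP
          rw [if_pos hi]
        have hW : ∏ j, Wk G d (z j) (w j) = Wk G d (z i) (w i) * D := by
          rw [Fin.prod_univ_succAbove _ i, hD]
          congr 1
          refine Finset.prod_congr rfl fun j _ => ?_
          have h1 : z (i.succAbove j) = w (i.succAbove j) := congrFun hi j
          rw [← h1]
          exact if_pos rfl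
        rw [hW]
        by_cases hadj : G.Adj (z i) (w i)
        · rw [hX.edge _ _ hadj, mul_zero] at hext
          rw [hext] at hsum
          have h1 := PairRec_Wk_nonneg G hd (z i) (w i)
          positivity
        · have h1 : Wk G d (z i) (w i) = √(d (z i) * d (w i)) / N := by
            unfold Wk
            rw [if_neg hzi, if_neg hadj]
          have h2 := PairRec_lower G ht hX (z i) (w i)
          rw [h1]
          have h3 : (c * N) * (√(d (z i) * d (w i)) / N * D) =
              c * (D * √(d (z i) * d (w i))) := by
            field_simp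
          rw [h3, ← mul_add]
          apply mul_nonneg hc0.le
          have h4 : -(D * √(d (z i) * d (w i))) ≤ extP t d X Xn i z w := by
            rw [hext]
            have := mul_le_mul_of_nonneg_left h2 hD0
            linarith
          linarith
      · have hall : ∀ i ∈ (univ : Finset (Fin (n + 1))), 0 ≤ extP t d X Xn i z w := by
          intro i _
          unfold extP
          split_ifs with h
          · have h1 : z i = w i := by
              by_contra h2
              exact hex ⟨i, h, h2⟩
            rw [← h1, hX.diag]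
            exact mul_nonneg (Finset.prod_nonneg fun j _ => hd _) (hd _)
          · have h1 := hnn (i.removeNth z) (i.removeNth w)
            have h2 := hd (z i)
            have h3 := hd (w i)
            positivity
        have h1 := Finset.sum_nonneg hall
        have h2 := hWnn z w
        positivity

end Pool.Agent.W_79d227_kp
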