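import Pool.Agent.W_79d227_kp.Pow
import Pool.Agent.W_79d227_kp.Good
import Pool.Agent.W_79d227_kp.Conv
import Pool.Agent.W_79d227_kp.Feas
import Pool.Agent.W_79d227_kp.PairRec

set_option autoImplicit false

/-!
# The induction on k
-/

namespace Pool.Agent.W_79d227_kp

open Finset

variable {V : Type} [Fintype V] [DecidableEq V]

/-- PROOF. If `∑ y = 0` the claim is `0 ^ n / .. ≤ 1` (`n = 0`: the one word; `n ≥ 1`: any point, `kpoint_of_ind` with
`T = ∅`). Otherwise `pair_of_theta`, `pair_power`, `kpoint_of_pair`; `∑_z ∏ j, d (z j) = 1`. -/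
theorem theta_power {G : SimpleGraph V} {y : V → ℝ} {Y : V → V → ℝ} (h : ThetaFeas G y Y)
    (n : ℕ) :
    ∃ ν : Finset (Fin n → V) → ℝ, KPoint (powG G n) 2 ν ∧
      (∑ v, y v) ^ n / ((n + Fintype.card V).choose (Fintype.card V) : ℕ) ≤ ∑ z, ν {z} := by
  have hy : ∀ v, 0 ≤ y v := fun v => (h.le_one v).1
  rcases (Finset.sum_nonneg fun v _ => hy v : (0 : ℝ) ≤ ∑ v, y v).eq_or_lt with hs | hs
  · rw [← hs]
    rcases Nat.eq_zero_or_pos n with hn | hn
    · subst hn
      have hI : Ind (powG G 0) {(Fin.elim0 : Fin 0 → V)} := by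
        intro a _ b _ hab
        exact hab.1 (Subsingleton.elim a b)
      refine ⟨_, kpoint_of_ind 2 hI, ?_⟩
      have h1 : ∑ z : Fin 0 → V,
          (if ({z} : Finset (Fin 0 → V)) ⊆ {(Fin.elim0 : Fin 0 → V)} then (1 : ℝ) else 0) = 1 := by
        rw [Finset.sum_congr rfl (g := fun _ => (1 : ℝ))]
        · simp
        · intro z _
          rw [if_pos]
          rw [Subsingleton.elim z (Fin.elim0 : Fin 0 → V)]
      rw [h1, pow_zero, Nat.zero_add, Nat.choose_self, Nat.cast_one, div_one]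
    · have hI : Ind (powG G n) ∅ := fun a ha => absurd ha (Finset.notMem_empty a)
      refine ⟨_, kpoint_of_ind 2 hI, ?_⟩
      rw [zero_pow hn.ne', zero_div]
      exact Finset.sum_nonneg fun z _ => by split_ifs <;> norm_num
  · have hP := pair_of_theta h hs
    have hd : ∀ v, 0 ≤ y v / ∑ v, y v := fun v => div_nonneg (hy v) hs.le
    have hd1 : ∑ v, y v / ∑ v, y v = 1 := by
      rw [← Finset.sum_div, div_self hs.ne']
    obtain ⟨Xn, hXn, h0⟩ := pair_power G hs.le hd hd1 hP n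
    have ht : (0 : ℝ) ≤ (∑ v, y v) ^ n / ((n + Fintype.card V).choose (Fintype.card V) : ℕ) :=
      div_nonneg (pow_nonneg hs.le n) (Nat.cast_nonneg _)
    obtain ⟨ν, hν, hνs⟩ := kpoint_of_pair ht hXn h0
    refine ⟨ν, hν, ?_⟩
    have h1 : ∑ z : Fin n → V, ∏ j, (y (z j) / ∑ v, y v) = 1 := by
      have h2 := Fintype.sum_pow (fun v => y v / ∑ v, y v) n
      rw [hd1, one_pow] at h2
      exact h2.symm
    rw [Finset.sum_congr rfl fun z _ => hνs z, ← Finset.mul_sum, h1, mul_one]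

/-- `(t' / t) ^ n` grows faster than a binomial coefficient with fixed lower index -/
theorem exists_large {a b : ℝ} (ha : 0 ≤ a) (hab : a < b) (L : ℕ) :
    ∃ n : ℕ, 1 ≤ n ∧ a ^ n ≤ b ^ n / ((n + L).choose L : ℕ) := by
  have hb : 0 < b := lt_of_le_of_lt ha hab
  have hr0 : 0 ≤ a / b := div_nonneg ha hb.le
  have hr1 : a / b < 1 := (div_lt_one hb).2 hab
  have hlim := tendsto_pow_const_mul_const_pow_of_abs_lt_one L
    (abs_lt.2 ⟨by linarith, hr1⟩)
  have hc : (0 : ℝ) < 1 / ((L : ℝ) + 1) ^ L := by positivity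
  have hev := (hlim.eventually (gt_mem_nhds hc)).and (Filter.eventually_ge_atTop 1)
  obtain ⟨n, hn, hn1⟩ := hev.exists
  refine ⟨n, hn1, ?_⟩
  have hcpos : (0 : ℝ) < ((n + L).choose L : ℕ) := by
    exact_mod_cast Nat.choose_pos (Nat.le_add_left L n)
  have h1 : (((n + L).choose L : ℕ) : ℝ) ≤ ((L : ℝ) + 1) ^ L * (n : ℝ) ^ L := by
    have h2 : (n + L).choose L ≤ (n + L) ^ L := Nat.choose_le_pow (n + L) L
    have h3 : n + L ≤ (L + 1) * n := by nlinarith
    have h4 : (n + L).choose L ≤ (L + 1) ^ L * n ^ L := by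
      rw [← mul_pow]
      exact h2.trans (Nat.pow_le_pow_left h3 L)
    exact_mod_cast h4
  rw [le_div_iff₀ hcpos]
  have h5 : ((L : ℝ) + 1) ^ L * ((n : ℝ) ^ L * (a / b) ^ n) ≤ 1 := by
    rw [lt_div_iff₀ (by positivity)] at hn
    linarith
  have h6 : a ^ n = (a / b) ^ n * b ^ n := by
    rw [← mul_pow, div_mul_cancel₀ a hb.ne']
  calc a ^ n * (((n + L).choose L : ℕ) : ℝ)
      ≤ a ^ n * (((L : ℝ) + 1) ^ L * (n : ℝ) ^ L) :=
        mul_le_mul_of_nonneg_left h1 (pow_nonneg ha n)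
    _ = (((L : ℝ) + 1) ^ L * ((n : ℝ) ^ L * (a / b) ^ n)) * b ^ n := by rw [h6]; ring
    _ ≤ 1 * b ^ n := mul_le_mul_of_nonneg_right h5 (pow_nonneg hb.le n)
    _ = b ^ n := one_mul _

/-- PROOF. Choose `t < t' < ∑ y`; `theta_power` and `exists_large`, `good_of_one` (`m = n`). -/
theorem good_two {G : SimpleGraph V} {y : V → ℝ} {Y : V → V → ℝ} (h : ThetaFeas G y Y) {t : ℝ}
    (ht : 0 ≤ t) (hlt : t < ∑ v, y v) : Good G 2 t := by
  haveI : Nonempty V := by
    by_contra hV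
    rw [not_nonempty_iff] at hV
    rw [Finset.univ_eq_empty, Finset.sum_empty] at hlt
    linarith
  have h1 : t < (t + ∑ v, y v) / 2 := by linarith
  have h2 : (t + ∑ v, y v) / 2 < ∑ v, y v := by linarith
  obtain ⟨n, hn, hle⟩ := exists_large (by linarith : (0 : ℝ) ≤ (t + ∑ v, y v) / 2) h2
    (Fintype.card V)
  obtain ⟨ν, hν, hνs⟩ := theta_power h n
  exact good_of_one hn ht h1 hν (hle.trans hνs)

/-- PROOF. Choose `t < t₁ < t'`. `Good G (k - 1) t'` gives `r ≥ 1` and a feasible point of `powG G r` of value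
`≥ t' ^ r`; mix it with a small multiple of `exists_kpoint_pos`: a feasible point `ν₁` of value `s > t₁ ^ r`, positive on
the independent sets. `rsys_of_kpoint`; put `0` on the sets with at least `k` elements (this changes no condition of
level `k - 1`, `k ≥ 3`); `pow_system` for the graph `powG G r`; `kpoint_of_rsys` (value `s ^ n / (n + L).choose L`,
`∑_z ∏ d = 1`); `exists_large` with `a = t₁ ^ r`, `b = s`; `kpoint_pow_pow`; `good_of_one`. -/
theorem good_step {G : SimpleGraph V} {k : ℕ} (hk : 3 ≤ k) {t t' : ℝ} (ht : 0 ≤ t)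
    (htt : t < t') (h : Good G (k - 1) t') : Good G k t := by
  obtain ⟨n₀, hn₀⟩ := h
  have hr1 : 1 ≤ max n₀ 1 := le_max_right _ _
  obtain ⟨ν₀, hν₀, hv₀⟩ := hn₀ (max n₀ 1) (le_max_left _ _)
  generalize max n₀ 1 = r at hr1 ν₀ hν₀ hv₀
  have ht' : 0 < t' := lt_of_le_of_lt ht htt
  haveI : Nonempty V := by
    by_contra hV
    rw [not_nonempty_iff] at hV
    haveI : IsEmpty (Fin r → V) := ⟨fun z => hV.elim (z ⟨0, hr1⟩)⟩
    rw [Finset.univ_eq_empty, Finset.sum_empty] at hv₀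
    exact absurd hv₀ (not_le.2 (pow_pos ht' r))
  have h1 : t < (t + t') / 2 := by linarith
  have h2 : (t + t') / 2 < t' := by linarith
  have h0 : 0 ≤ (t + t') / 2 := by linarith
  generalize (t + t') / 2 = t₁ at h1 h2 h0
  have hpow : t₁ ^ r < t' ^ r := pow_lt_pow_left₀ h2 h0 (by omega)
  have hpow0 : 0 ≤ t₁ ^ r := pow_nonneg h0 r
  have hpow1 : 0 < t' ^ r := pow_pos ht' r
  obtain ⟨ν₁, hν₁, hpos₁⟩ := exists_kpoint_pos (powG G r) (k - 1)
  have hS₁ : 0 ≤ ∑ z, ν₁ {z} := Finset.sum_nonneg fun z _ => hν₁.nonneg _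
  obtain ⟨a, ha0, ha1, hagt⟩ : ∃ a : ℝ, 0 < a ∧ a ≤ 1 ∧ t₁ ^ r < (1 - a) * t' ^ r := by
    refine ⟨(t' ^ r - t₁ ^ r) / (2 * t' ^ r), by apply div_pos <;> linarith, ?_, ?_⟩
    · rw [div_le_one (by linarith)]
      linarith
    · have h3 : (1 - (t' ^ r - t₁ ^ r) / (2 * t' ^ r)) * t' ^ r = (t' ^ r + t₁ ^ r) / 2 := by
        field_simp
        ring
      rw [h3]
      linarith
  have hmix := hν₀.mix hν₁ ha0.le ha1
  have hmpos : ∀ I, Ind (powG G r) I → 0 < (1 - a) * ν₀ I + a * ν₁ I := by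
    intro I hI
    have h3 := mul_pos ha0 (hpos₁ I hI)
    have h4 := mul_nonneg (by linarith : (0 : ℝ) ≤ 1 - a) (hν₀.nonneg I)
    linarith
  have hsum : t₁ ^ r < ∑ z : Fin r → V, ((1 - a) * ν₀ {z} + a * ν₁ {z}) := by
    rw [Finset.sum_add_distrib, ← Finset.mul_sum, ← Finset.mul_sum]
    have h3 : (1 - a) * t' ^ r ≤ (1 - a) * ∑ z, ν₀ {z} :=
      mul_le_mul_of_nonneg_left hv₀ (by linarith)
    have h4 := mul_nonneg ha0.le hS₁
    linarith
  obtain ⟨ν, hν, hνpos, hνs⟩ : ∃ ν : Finset (Fin r → V) → ℝ, KPoint (powG G r) (k - 1) ν ∧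
      (∀ I, Ind (powG G r) I → 0 < ν I) ∧ t₁ ^ r < ∑ z, ν {z} := ⟨_, hmix, hmpos, hsum⟩
  clear hmix hmpos hsum hagt ha0 ha1 hS₁ hpos₁ hν₁ hpow hν₀ hv₀ hn₀
  have hs : 0 < ∑ z, ν {z} := lt_of_le_of_lt hpow0 hνs
  have hR := rsys_of_kpoint (by omega : 2 ≤ k - 1) hν hs
  have hsing : ∀ z : Fin r → V, Ind (powG G r) {z} := by
    intro z a ha b hb hab
    rw [Finset.mem_singleton] at ha hb
    exact hab.1 (ha.trans hb.symm)
  have hd : ∀ z : Fin r → V, 0 < ν {z} / ∑ z, ν {z} := fun z =>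
    div_pos (hνpos _ (hsing z)) hs
  have hd1 : ∑ z : Fin r → V, ν {z} / ∑ z, ν {z} = 1 := by
    rw [← Finset.sum_div, div_self hs.ne']
  have hcard : ∀ (Q : Finset (Fin r → V)) (x y : Fin r → V), Q.card + 2 < k →
      ¬ k ≤ (insert x (insert y Q)).card := by
    intro Q x y hQ
    have h3 := Finset.card_insert_le x (insert y Q)
    have h4 := Finset.card_insert_le y Q
    omega
  have hμ : RSys (powG G r) (k - 1) (∑ z, ν {z}) (fun z => ν {z} / ∑ z, ν {z})
      (fun I => if k ≤ I.card then 0 else ν I / ∑ z, ν {z}) := by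
    refine ⟨?_, ?_, ?_, ?_, ?_⟩
    · intro v
      show (if k ≤ ({v} : Finset (Fin r → V)).card then (0 : ℝ) else ν {v} / ∑ z, ν {z}) = _
      rw [if_neg]
      rw [Finset.card_singleton]
      omega
    · intro I
      show (0 : ℝ) ≤ if k ≤ I.card then (0 : ℝ) else ν I / ∑ z, ν {z}
      split_ifs
      · exact le_rfl
      · exact hR.nonneg I
    · intro I a ha b hb hab
      show (if k ≤ I.card then (0 : ℝ) else ν I / ∑ z, ν {z}) = 0
      split_ifs
      · rfl
      · exact hR.indep I a ha b hb hab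
    · intro Q hQ hQk
      have h3 : (fun x y : Fin r → V => if k ≤ (insert x (insert y Q)).card then (0 : ℝ) else
          ν (insert x (insert y Q)) / ∑ z, ν {z}) =
          fun x y : Fin r → V => ν (insert x (insert y Q)) / ∑ z, ν {z} := by
        funext x y
        rw [if_neg (hcard Q x y (by omega))]
      show PSD (fun x y : Fin r → V => if k ≤ (insert x (insert y Q)).card then (0 : ℝ) else
          ν (insert x (insert y Q)) / ∑ z, ν {z})
      rw [h3]
      exact hR.psd Q hQ hQk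
    · have h3 : (fun x y : Fin r → V =>
          (if k ≤ ({x, y} : Finset (Fin r → V)).card then (0 : ℝ) else
            ν {x, y} / ∑ z, ν {z}) -
          (∑ z, ν {z}) * (ν {x} / ∑ z, ν {z}) * (ν {y} / ∑ z, ν {z})) =
          fun x y : Fin r → V => ν {x, y} / ∑ z, ν {z} -
          (∑ z, ν {z}) * (ν {x} / ∑ z, ν {z}) * (ν {y} / ∑ z, ν {z}) := by
        funext x y
        rw [if_neg]
        have h4 := Finset.card_le_two (a := x) (b := y)
        omega
      show PSD (fun x y : Fin r → V =>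
          (if k ≤ ({x, y} : Finset (Fin r → V)).card then (0 : ℝ) else
            ν {x, y} / ∑ z, ν {z}) -
          (∑ z, ν {z}) * (ν {x} / ∑ z, ν {z}) * (ν {y} / ∑ z, ν {z}))
      rw [h3]
      exact hR.top
  obtain ⟨L, hL⟩ := pow_system hk hs hd hμ
    (fun S hS => by
      show (if k ≤ S.card then (0 : ℝ) else ν S / ∑ z, ν {z}) = 0
      rw [if_pos hS])
    (fun S _ hSk hSI => by
      show 0 < if k ≤ S.card then (0 : ℝ) else ν S / ∑ z, ν {z}
      rw [if_neg (by omega)]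
      exact div_pos (hνpos S hSI) hs)
  obtain ⟨n, hn, hle⟩ := exists_large hpow0 hνs L
  obtain ⟨νn, hνn⟩ := hL n
  have hT : (0 : ℝ) ≤ (∑ z, ν {z}) ^ n / ((n + L).choose L : ℕ) :=
    div_nonneg (pow_nonneg hs.le n) (Nat.cast_nonneg _)
  have hK := kpoint_of_rsys hT hνn
  obtain ⟨ν', hν', hν's⟩ := kpoint_pow_pow hK
  have hval : ∑ z, ν' {z} = (∑ z, ν {z}) ^ n / ((n + L).choose L : ℕ) := by
    rw [hν's]
    have h3 : ∀ z : Fin n → Fin r → V, (if ({z} : Finset (Fin n → Fin r → V)) = ∅ then (1 : ℝ) else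
        (∑ z, ν {z}) ^ n / ((n + L).choose L : ℕ) * νn {z}) =
        (∑ z, ν {z}) ^ n / ((n + L).choose L : ℕ) * ∏ j, (ν {z j} / ∑ z, ν {z}) := by
      intro z
      rw [if_neg (Finset.singleton_ne_empty z), hνn.sing]
    rw [Finset.sum_congr rfl fun z _ => h3 z, ← Finset.mul_sum]
    have h4 := Fintype.sum_pow (fun z : Fin r → V => ν {z} / ∑ z, ν {z}) n
    rw [hd1, one_pow] at h4
    rw [← h4, mul_one]
  have hnr : 1 ≤ n * r := Nat.mul_pos hn hr1
  refine good_of_one hnr ht h1 hν' ?_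
  rw [hval, mul_comm n r, pow_mul]
  exact hle

/-- PROOF. Induction on `k` (`good_two`, `good_step`). -/
theorem good_all {G : SimpleGraph V} {y : V → ℝ} {Y : V → V → ℝ} (h : ThetaFeas G y Y) {k : ℕ}
    (hk : 2 ≤ k) {t : ℝ} (ht : 0 ≤ t) (hlt : t < ∑ v, y v) : Good G k t := by
  induction k, hk using Nat.le_induction generalizing t with
  | base => exact good_two h ht hlt
  | succ k hk ih =>
    have h1 : t < (t + ∑ v, y v) / 2 := by linarith
    have h2 : (t + ∑ v, y v) / 2 < ∑ v, y v := by linarith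
    exact good_step (by omega) ht h1 (ih (by linarith) h2)

end Pool.Agent.W_79d227_kp
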