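import Pool.Agent.W_79d227_kp.Psd

set_option autoImplicit false

/-!
# Signed pair systems: the recursion, k = 2

`E_i (z, w) = D (z') X (z_i, w_i)` if the words `z, w` agree after the removal of the coordinate `i` (`z'` the shorter
word), and `t Xn (z', w') d (z_i) d (w_i)` otherwise; `W u u = d u`, `W u v = sqrt (d u d v) / N` if `u ≠ v` are
not adjacent, and `0` if they are adjacent, `N` the number of vertices.
-/

namespace Pool.Agent.W_79d227_kp

open Finset

variable {V : Type} [Fintype V] [DecidableEq V]

/-- the kernel `W` -/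
noncomputable def Wk (G : SimpleGraph V) [DecidableRel G.Adj] (d : V → ℝ) (u v : V) : ℝ :=
  if u = v then d u else if G.Adj u v then 0 else √(d u * d v) / Fintype.card V

/-- `W` is diagonally dominant after the scaling by `√ d`: for `c`,
`∑_{u ≠ v} |c_u c_v| √(d_u d_v) / N ≤ ∑ (c_u² d_u + c_v² d_v) / (2 N) ≤ ((N-1)/N) ∑ c_u² d_u`. -/
theorem Wk_psd (G : SimpleGraph V) [DecidableRel G.Adj] {d : V → ℝ} (hd : ∀ v, 0 ≤ d v) :
    PSD (Wk G d) := by
  let K : V → V → ℝ := fun u v => if u = v then 1 else if G.Adj u v then 0 else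
    1 / (Fintype.card V : ℝ)
  have hN : ∀ _ : V, (0 : ℝ) < Fintype.card V := by
    intro v
    exact_mod_cast Fintype.card_pos_iff.2 ⟨v⟩
  have hK : PSD K := by
    refine PSD.of_dom ?_ ?_
    · intro x y
      show (if x = y then (1 : ℝ) else if G.Adj x y then 0 else 1 / (Fintype.card V : ℝ)) =
        if y = x then 1 else if G.Adj y x then 0 else 1 / (Fintype.card V : ℝ)
      by_cases h : x = y
      · rw [if_pos h, if_pos h.symm]
      · rw [if_neg h, if_neg (Ne.symm h)]
        by_cases h2 : G.Adj x y
        · rw [if_pos h2, if_pos h2.symm]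
        · rw [if_neg h2, if_neg (fun h3 => h2 h3.symm)]
    · intro x
      have hx : K x x = 1 := if_pos rfl
      rw [hx]
      have h1 : ∀ y ∈ univ.erase x, |K x y| ≤ 1 / (Fintype.card V : ℝ) := by
        intro y hy
        have hne : x ≠ y := (Finset.ne_of_mem_erase hy).symm
        show |if x = y then (1 : ℝ) else if G.Adj x y then 0 else 1 / (Fintype.card V : ℝ)| ≤ _
        rw [if_neg hne]
        split_ifs
        · rw [abs_zero]
          have := hN x
          positivity
        · rw [abs_of_nonneg]
          have := hN x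
          positivity
      refine (Finset.sum_le_card_nsmul _ _ _ h1).trans ?_
      rw [nsmul_eq_mul, mul_one_div, div_le_one (hN x)]
      exact_mod_cast Finset.card_le_univ _
  have hW : Wk G d = fun u v => (√(d u) * √(d v)) * K u v := by
    funext u v
    show (if u = v then d u else if G.Adj u v then 0 else √(d u * d v) / Fintype.card V) =
      (√(d u) * √(d v)) * if u = v then 1 else if G.Adj u v then 0 else
        1 / (Fintype.card V : ℝ)
    by_cases h : u = v
    · subst h
      rw [if_pos rfl, if_pos rfl, mul_one, Real.mul_self_sqrt (hd u)]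
    · rw [if_neg h, if_neg h]
      by_cases h2 : G.Adj u v
      · rw [if_pos h2, if_pos h2, mul_zero]
      · rw [if_neg h2, if_neg h2, Real.sqrt_mul (hd u), mul_one_div]
  rw [hW]
  exact PSD.mul (PSD.rankOne (fun u => √(d u))) hK

/-- the extension in the coordinate `i` -/
def extP {n : ℕ} (t : ℝ) (d : V → ℝ) (X : V → V → ℝ) (Xn : (Fin n → V) → (Fin n → V) → ℝ)
    (i : Fin (n + 1)) (z w : Fin (n + 1) → V) : ℝ :=
  if i.removeNth z = i.removeNth w then (∏ j, d (i.removeNth z j)) * X (z i) (w i)
  else t * Xn (i.removeNth z) (i.removeNth w) * d (z i) * d (w i)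

/-- PROOF. Under the bijection `z ↦ (z i, i.removeNth z)` (`Fin.insertNthEquiv`), the kernel
`extP - t tn D D` is `(Xn - tn D' D') (z', w') * (t d (z i) d (w i))` plus, on pairs with `z' = w'`,
`D' z' * (X - t d d) (z i, w i)` (use `Xn z' z' = D' z'`). Both are PSD (`PSD.pull`, `PSD.mul`, `PSD.rankOne`,
a block diagonal kernel is `PSD.diag` pulled back to `z'` times the pulled back `X - t d d`). The edges: if `z, w` are
adjacent and `z' ≠ w'` then `z', w'` are adjacent in `G ^ n`; if `z' = w'` then `z i, w i` are adjacent. -/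
theorem extP_pair (G : SimpleGraph V) {n : ℕ} {t tn : ℝ} (ht : 0 ≤ t) {d : V → ℝ}
    (hd : ∀ v, 0 ≤ d v) {X : V → V → ℝ} (hX : Pair G t d X) {Xn : (Fin n → V) → (Fin n → V) → ℝ}
    (hXn : Pair (powG G n) tn (fun z => ∏ j, d (z j)) Xn) (i : Fin (n + 1)) :
    Pair (powG G (n + 1)) (t * tn) (fun z => ∏ j, d (z j)) (extP t d X Xn i) := by
  have hD : ∀ z : Fin (n + 1) → V, ∏ j, d (z j) = (∏ j, d (i.removeNth z j)) * d (z i) := by
    intro z
    rw [Fin.prod_univ_succAbove _ i, mul_comm]
    rfl
  refine ⟨?_, ?_, ?_⟩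
  · intro z
    show extP t d X Xn i z z = ∏ j, d (z j)
    unfold extP
    rw [if_pos rfl, hX.diag, hD]
  · intro z w hzw
    obtain ⟨hne, hadj⟩ := hzw
    unfold extP
    split_ifs with h
    · have h2 : z i ≠ w i := by
        intro h3
        apply hne
        funext j
        rcases Fin.eq_self_or_eq_succAbove i j with rfl | ⟨k, rfl⟩
        · exact h3
        · exact congrFun h k
      rw [hX.edge _ _ ((hadj i).resolve_left h2), mul_zero]
    · have h2 : (powG G n).Adj (i.removeNth z) (i.removeNth w) :=
        ⟨h, fun j => hadj (i.succAbove j)⟩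
      rw [hXn.edge _ _ h2]
      ring
  · have hdec : (fun z w : Fin (n + 1) → V => extP t d X Xn i z w -
        t * tn * (∏ j, d (z j)) * (∏ j, d (w j))) = fun z w =>
        (Xn (i.removeNth z) (i.removeNth w) -
          tn * (∏ j, d (i.removeNth z j)) * (∏ j, d (i.removeNth w j))) *
          (t * (d (z i) * d (w i))) +
        (if i.removeNth z = i.removeNth w then (∏ j, d (i.removeNth z j)) else 0) *
          (X (z i) (w i) - t * d (z i) * d (w i)) := by
      funext z w
      rw [hD z, hD w]
      unfold extP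
      by_cases h : i.removeNth z = i.removeNth w
      · rw [if_pos h, if_pos h, ← h, hXn.diag]
        ring
      · rw [if_neg h, if_neg h]
        ring
    show PSD (fun z w : Fin (n + 1) → V => extP t d X Xn i z w -
        t * tn * (∏ j, d (z j)) * (∏ j, d (w j)))
    rw [hdec]
    refine PSD.add (PSD.mul ?_ ?_) (PSD.mul ?_ ?_)
    · exact PSD.pull hXn.top (fun z : Fin (n + 1) → V => i.removeNth z)
    · exact PSD.smul (PSD.rankOne (fun z : Fin (n + 1) → V => d (z i))) ht
    · exact PSD.pull (PSD.diag (d := fun z : Fin n → V => ∏ j, d (z j))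
        (fun z => Finset.prod_nonneg fun j _ => hd (z j)))
        (fun z : Fin (n + 1) → V => i.removeNth z)
    · exact PSD.pull hX.top (fun z : Fin (n + 1) → V => z i)

end Pool.Agent.W_79d227_kp
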