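import Pool.Agent.W_79d227_kp.Psd

set_option autoImplicit false

/-!
# The polarity kernel
-/

namespace Pool.Agent.W_79d227_kp

open Finset

/-- the incidence kernel of the polarity `b + b' = a a'` of the affine plane -/
def Mp (p : ℕ) (u v : ZMod p × ZMod p) : ℝ := if u.2 + v.2 = u.1 * v.1 then 1 else 0

private theorem PolarM_symm (p : ℕ) (u v : ZMod p × ZMod p) : Mp p u v = Mp p v u := by
  unfold Mp
  rw [add_comm, mul_comm]

private theorem PolarM_iff (p : ℕ) (u : ZMod p × ZMod p) (a b : ZMod p) :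
    (u.2 + b = u.1 * a) ↔ b = u.1 * a - u.2 := by
  constructor
  · intro h
    rw [← h]
    ring
  · intro h
    rw [h]
    ring

/-- every vertex is incident with `p` vertices -/
theorem Mp_row (p : ℕ) [Fact p.Prime] (u : ZMod p × ZMod p) : ∑ v, Mp p u v = p := by
  rw [Fintype.sum_prod_type]
  have h1 : ∀ a : ZMod p, ∑ b : ZMod p, Mp p u (a, b) = 1 := by
    intro a
    unfold Mp
    simp only [PolarM_iff]
    rw [Finset.sum_ite_eq' Finset.univ (u.1 * a - u.2) (fun _ => (1 : ℝ)), if_pos (Finset.mem_univ _)]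
  rw [Finset.sum_congr rfl fun a _ => h1 a, Finset.sum_const, Finset.card_univ, ZMod.card,
    nsmul_eq_mul, mul_one]

/-- two vertices have one common neighbour if the first coordinates differ, none if they are equal
and the vertices different -/
theorem Mp_sq (p : ℕ) [Fact p.Prime] (u v : ZMod p × ZMod p) :
    ∑ w, Mp p u w * Mp p w v = if u = v then (p : ℝ) else if u.1 = v.1 then 0 else 1 := by
  rw [Fintype.sum_prod_type]
  have h1 : ∀ a : ZMod p, ∑ b : ZMod p, Mp p u (a, b) * Mp p (a, b) v =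
      if (u.1 - v.1) * a = u.2 - v.2 then (1 : ℝ) else 0 := by
    intro a
    have e1 : ∀ b : ZMod p, Mp p u (a, b) * Mp p (a, b) v =
        if b = u.1 * a - u.2 then Mp p (a, b) v else 0 := by
      intro b
      have e2 : Mp p u (a, b) = if b = u.1 * a - u.2 then 1 else 0 := by
        unfold Mp
        simp only [PolarM_iff]
      rw [e2]
      split_ifs
      · rw [one_mul]
      · rw [zero_mul]
    rw [Finset.sum_congr rfl fun b _ => e1 b,
      Finset.sum_ite_eq' Finset.univ (u.1 * a - u.2) (fun b => Mp p (a, b) v),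
      if_pos (Finset.mem_univ _)]
    unfold Mp
    have e3 : (u.1 * a - u.2 + v.2 = a * v.1) ↔ ((u.1 - v.1) * a = u.2 - v.2) := by
      constructor
      · intro h
        linear_combination h
      · intro h
        linear_combination h
    simp only [e3]
  rw [Finset.sum_congr rfl fun a _ => h1 a]
  by_cases h2 : u.1 = v.1
  · have e4 : u.1 - v.1 = 0 := sub_eq_zero.2 h2
    by_cases h3 : u.2 = v.2
    · have h4 : u = v := Prod.ext h2 h3
      rw [if_pos h4]
      have e5 : u.2 - v.2 = 0 := sub_eq_zero.2 h3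
      simp only [e4, e5, zero_mul, if_true]
      rw [Finset.sum_const, Finset.card_univ, ZMod.card, nsmul_eq_mul, mul_one]
    · have h4 : u ≠ v := fun h => h3 (by rw [h])
      rw [if_neg h4, if_pos h2]
      have e5 : ¬ (0 : ZMod p) = u.2 - v.2 := fun h => h3 (sub_eq_zero.1 h.symm)
      simp only [e4, zero_mul, if_neg e5]
      exact Finset.sum_const_zero
  · have h4 : u ≠ v := fun h => h2 (by rw [h])
    rw [if_neg h4, if_neg h2]
    have e4 : u.1 - v.1 ≠ 0 := sub_ne_zero.2 h2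
    have e5 : ∀ a : ZMod p, ((u.1 - v.1) * a = u.2 - v.2) ↔
        a = (u.1 - v.1)⁻¹ * (u.2 - v.2) := by
      intro a
      rw [eq_inv_mul_iff_mul_eq₀ e4]
    simp only [e5]
    rw [Finset.sum_ite_eq' Finset.univ _ (fun _ => (1 : ℝ)), if_pos (Finset.mem_univ _)]

private theorem PolarM_sq_bound (p : ℕ) [Fact p.Prime] (c : ZMod p × ZMod p → ℝ) :
    ∑ u, (∑ v, Mp p u v * c v) ^ 2 ≤ p * ∑ u, c u ^ 2 + (∑ u, c u) ^ 2 := by
  have e1 : ∑ u, (∑ v, Mp p u v * c v) ^ 2 =
      ∑ v, ∑ w, c v * c w * ∑ u, Mp p v u * Mp p u w := by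
    have e2 : ∀ u : ZMod p × ZMod p, (∑ v, Mp p u v * c v) ^ 2 =
        ∑ v, ∑ w, c v * c w * (Mp p v u * Mp p u w) := by
      intro u
      rw [sq, Finset.sum_mul_sum]
      refine Finset.sum_congr rfl fun v _ => Finset.sum_congr rfl fun w _ => ?_
      rw [PolarM_symm p v u]
      ring
    rw [Finset.sum_congr rfl fun u _ => e2 u, Finset.sum_comm]
    refine Finset.sum_congr rfl fun v _ => ?_
    rw [Finset.sum_comm]
    refine Finset.sum_congr rfl fun w _ => ?_
    rw [Finset.mul_sum]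
  have e3 : ∀ v w : ZMod p × ZMod p, c v * c w * ∑ u, Mp p v u * Mp p u w =
      c v * c w - (if v.1 = w.1 then c v * c w else 0) + (if v = w then p * (c v * c w) else 0) := by
    intro v w
    rw [Mp_sq]
    by_cases h1 : v = w
    · rw [if_pos h1, if_pos (by rw [h1]), if_pos h1]
      ring
    · rw [if_neg h1, if_neg h1]
      by_cases h2 : v.1 = w.1
      · rw [if_pos h2, if_pos h2]
        ring
      · rw [if_neg h2, if_neg h2]
        ring
  have e4 : ∑ v, ∑ w, c v * c w = (∑ u, c u) ^ 2 := by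
    rw [sq, Finset.sum_mul_sum]
  have e5 : ∑ v, ∑ w, (if v = w then (p : ℝ) * (c v * c w) else 0) = p * ∑ u, c u ^ 2 := by
    rw [Finset.mul_sum]
    refine Finset.sum_congr rfl fun v _ => ?_
    rw [Finset.sum_ite_eq, if_pos (Finset.mem_univ _)]
    ring
  have e6 : 0 ≤ ∑ v : ZMod p × ZMod p, ∑ w : ZMod p × ZMod p,
      (if v.1 = w.1 then c v * c w else 0) := by
    have e7 : ∑ v : ZMod p × ZMod p, ∑ w : ZMod p × ZMod p,
        (if v.1 = w.1 then c v * c w else 0) = ∑ a : ZMod p, (∑ b : ZMod p, c (a, b)) ^ 2 := by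
      rw [Fintype.sum_prod_type]
      refine Finset.sum_congr rfl fun a _ => ?_
      rw [sq, Finset.sum_mul_sum]
      refine Finset.sum_congr rfl fun b _ => ?_
      rw [Fintype.sum_prod_type, Finset.sum_comm]
      refine Finset.sum_congr rfl fun b' _ => ?_
      rw [Finset.sum_ite_eq, if_pos (Finset.mem_univ _)]
    rw [e7]
    exact Finset.sum_nonneg fun _ _ => sq_nonneg _
  have e8 : ∑ v, ∑ w, c v * c w * ∑ u, Mp p v u * Mp p u w =
      (∑ u, c u) ^ 2 - ∑ v : ZMod p × ZMod p, ∑ w : ZMod p × ZMod p,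
        (if v.1 = w.1 then c v * c w else 0) + p * ∑ u, c u ^ 2 := by
    simp only [e3]
    simp only [Finset.sum_add_distrib, Finset.sum_sub_distrib]
    rw [e4, e5]
  rw [e1, e8]
  linarith

/-- PROOF. Let `s = ∑ c`, `g = M c`. `∑ g² = ∑∑ c c M² = p ∑ c² + s² - ∑_a (∑_b c (a, b))² ≤ p ∑ c² + s²` and
`∑ g = p s`. With `c₀ = c - s / p²`: `M c₀ = g - s / p`, `∑ (M c₀)² = ∑ g² - s² ≤ p ∑ c²`, more precisely
`≤ p ∑ c₀²` (apply the first inequality to `c₀`, whose sum is `0`), so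
`|∑∑ c₀ c₀ M| ≤ √p ∑ c₀²`, and `∑∑ c c M = ∑∑ c₀ c₀ M + s² / p`. -/
theorem Mp_form (p : ℕ) [Fact p.Prime] (c : ZMod p × ZMod p → ℝ) :
    (∑ u, c u) ^ 2 / p - √p * ∑ u, c u ^ 2 ≤ ∑ u, ∑ v, c u * c v * Mp p u v := by
  have hp0 : (0 : ℝ) < p := by exact_mod_cast (Fact.out : p.Prime).pos
  set s : ℝ := ∑ u, c u with hs
  set t : ℝ := s / (p : ℝ) ^ 2 with ht
  set c0 : ZMod p × ZMod p → ℝ := fun u => c u - t with hc0
  have hcard : ∀ x : ℝ, ∑ _u : ZMod p × ZMod p, x = (p : ℝ) ^ 2 * x := by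
    intro x
    rw [Finset.sum_const, Finset.card_univ, Fintype.card_prod, ZMod.card, nsmul_eq_mul]
    push_cast
    ring
  have hpt : (p : ℝ) ^ 2 * t = s := by
    rw [ht]
    field_simp
  have hsum0 : ∑ u, c0 u = 0 := by
    simp only [hc0]
    rw [Finset.sum_sub_distrib, hcard, hpt, ← hs, sub_self]
  have hsq0 : ∑ u, c0 u ^ 2 ≤ ∑ u, c u ^ 2 := by
    have e1 : ∑ u, c0 u ^ 2 = ∑ u, c u ^ 2 - t * s := by
      have e2 : ∀ u : ZMod p × ZMod p, c0 u ^ 2 = c u ^ 2 - 2 * t * c u + t ^ 2 := by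
        intro u
        simp only [hc0]
        ring
      rw [Finset.sum_congr rfl fun u _ => e2 u, Finset.sum_add_distrib, Finset.sum_sub_distrib,
        ← Finset.mul_sum, hcard, ← hs]
      have e3 : (p : ℝ) ^ 2 * t ^ 2 = t * s := by
        rw [← hpt]
        ring
      rw [e3]
      ring
    have e4 : 0 ≤ t * s := by
      rw [ht, div_mul_eq_mul_div]
      have : 0 ≤ s * s := mul_self_nonneg s
      positivity
    linarith
  have hB := PolarM_sq_bound p c0
  rw [hsum0] at hB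
  set g0 : ZMod p × ZMod p → ℝ := fun u => ∑ v, Mp p u v * c0 v with hg0
  have hB' : ∑ u, g0 u ^ 2 ≤ p * ∑ u, c0 u ^ 2 := by
    have : ∑ u, g0 u ^ 2 ≤ p * ∑ u, c0 u ^ 2 + 0 ^ 2 := hB
    linarith
  have hN0 : 0 ≤ ∑ u, c0 u ^ 2 := Finset.sum_nonneg fun _ _ => sq_nonneg _
  have hcs : (∑ u, c0 u * g0 u) ^ 2 ≤ (√p * ∑ u, c0 u ^ 2) ^ 2 := by
    refine (Finset.sum_mul_sq_le_sq_mul_sq Finset.univ c0 g0).trans ?_
    rw [mul_pow, Real.sq_sqrt hp0.le]
    calc (∑ u, c0 u ^ 2) * ∑ u, g0 u ^ 2 ≤ (∑ u, c0 u ^ 2) * (p * ∑ u, c0 u ^ 2) :=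
          mul_le_mul_of_nonneg_left hB' hN0
      _ = p * (∑ u, c0 u ^ 2) ^ 2 := by ring
  have hlow : -(√p * ∑ u, c0 u ^ 2) ≤ ∑ u, c0 u * g0 u :=
    (abs_le_of_sq_le_sq' hcs (by positivity)).1
  have hg0sum : ∑ u, g0 u = 0 := by
    simp only [hg0]
    rw [Finset.sum_comm]
    have e1 : ∀ v : ZMod p × ZMod p, ∑ u, Mp p u v * c0 v = p * c0 v := by
      intro v
      rw [← Finset.sum_mul]
      congr 1
      rw [← Mp_row p v]
      exact Finset.sum_congr rfl fun u _ => PolarM_symm p u v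
    rw [Finset.sum_congr rfl fun v _ => e1 v, ← Finset.mul_sum, hsum0, mul_zero]
  have hmain : ∑ u, ∑ v, c u * c v * Mp p u v = ∑ u, c0 u * g0 u + s ^ 2 / p := by
    have e1 : ∀ u : ZMod p × ZMod p, ∑ v, c u * c v * Mp p u v =
        c0 u * g0 u + t * g0 u + c0 u * (t * p) + t * (t * p) := by
      intro u
      have e2 : ∀ v : ZMod p × ZMod p, c u * c v * Mp p u v =
          (c0 u + t) * (Mp p u v * c0 v) + (c0 u + t) * t * Mp p u v := by
        intro v
        simp only [hc0]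
        ring
      rw [Finset.sum_congr rfl fun v _ => e2 v, Finset.sum_add_distrib, ← Finset.mul_sum,
        ← Finset.mul_sum, Mp_row]
      simp only [hg0]
      ring
    rw [Finset.sum_congr rfl fun u _ => e1 u, Finset.sum_add_distrib, Finset.sum_add_distrib,
      Finset.sum_add_distrib, ← Finset.mul_sum, ← Finset.sum_mul, hg0sum, hsum0, hcard]
    have e3 : (p : ℝ) ^ 2 * (t * (t * p)) = s ^ 2 / p := by
      rw [ht]
      field_simp
    rw [e3]
    ring
  rw [hmain]
  have h1 : √p * ∑ u, c0 u ^ 2 ≤ √p * ∑ u, c u ^ 2 :=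
    mul_le_mul_of_nonneg_left hsq0 (Real.sqrt_nonneg _)
  linarith

end Pool.Agent.W_79d227_kp
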