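import Pool.Agent.W_79d227_kp.Psd

set_option autoImplicit false

/-!
# The thinned product sets
-/

namespace Pool.Agent.W_79d227_kp

open Finset

variable {V : Type} [Fintype V] [DecidableEq V]

/-- the weight of the sets of the family that contain `S` -/
def lam (w : Finset V → ℝ) (S : Finset V) : ℝ := ∑ C, if S ⊆ C then w C else 0

/-- PROOF. `w C = κ` for the independent sets `C` with at least two elements, `w {v} = d v - κ #{C ∋ v}`, `0` otherwise,
`κ = (min d) / 2 ^ (card V + 1)`. Then `lam w S ≥ κ` for every nonempty independent `S` (also `{v}`, since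
`d v ≥ κ`). -/
theorem exists_weights (G : SimpleGraph V) {d : V → ℝ} (hd : ∀ v, 0 < d v) :
    ∃ w : Finset V → ℝ, (∀ C, 0 ≤ w C) ∧ (∀ C, ¬ Ind G C → w C = 0) ∧ w ∅ = 0 ∧
      (∀ v, lam w {v} = d v) ∧ ∃ κ : ℝ, 0 < κ ∧ ∀ S, S.Nonempty → Ind G S → κ ≤ lam w S := by
  classical
  obtain ⟨m, hm0, hm⟩ : ∃ m : ℝ, 0 < m ∧ ∀ v, m ≤ d v := by
    rcases isEmpty_or_nonempty V with hV | hV
    · exact ⟨1, one_pos, fun v => (hV.false v).elim⟩
    · obtain ⟨v0, hv0⟩ := Finite.exists_min d
      exact ⟨d v0, hd v0, hv0⟩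
  set M : ℝ := 2 ^ Fintype.card V with hM
  have hM1 : 1 ≤ M := one_le_pow₀ (by norm_num)
  have hM0 : 0 < M := lt_of_lt_of_le one_pos hM1
  set κ : ℝ := m / M with hκ
  have hκ0 : 0 < κ := div_pos hm0 hM0
  have hκm : κ ≤ m := div_le_self hm0.le hM1
  set N : V → ℕ := fun v => (univ.filter (fun C : Finset V => (2 ≤ C.card ∧ Ind G C) ∧ v ∈ C)).card with hN
  have hNM : ∀ v, κ * (N v : ℝ) ≤ m := by
    intro v
    have h1 : (N v : ℝ) ≤ M := by
      have h2 : N v ≤ 2 ^ Fintype.card V := by
        refine (card_filter_le _ _).trans ?_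
        rw [card_univ, Fintype.card_finset]
      rw [hM]
      exact_mod_cast h2
    calc κ * (N v : ℝ) ≤ κ * M := mul_le_mul_of_nonneg_left h1 hκ0.le
      _ = m := by rw [hκ]; field_simp
  set w : Finset V → ℝ := fun C => if C.card = 1 then ∑ v ∈ C, (d v - κ * (N v : ℝ))
    else if 2 ≤ C.card ∧ Ind G C then κ else 0 with hw
  have hw0 : ∀ C, 0 ≤ w C := by
    intro C
    simp only [hw]
    split_ifs with h1 h2
    · exact sum_nonneg fun v _ => by linarith [hNM v, hm v]
    · exact hκ0.le
    · exact le_rfl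
  have hsing : ∀ v, w {v} = d v - κ * (N v : ℝ) := by
    intro v
    simp [hw]
  have hlam : ∀ v, lam w {v} = d v := by
    intro v
    unfold lam
    have h1 : ∀ C : Finset V, (if {v} ⊆ C then w C else 0) =
        (if C = {v} then d v - κ * (N v : ℝ) else 0) +
          (if (2 ≤ C.card ∧ Ind G C) ∧ v ∈ C then κ else 0) := by
      intro C
      by_cases hv : v ∈ C
      · rw [if_pos (singleton_subset_iff.2 hv)]
        by_cases h1 : C = {v}
        · rw [if_pos h1, if_neg, h1, hsing, add_zero]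
          rw [h1, card_singleton]
          rintro ⟨⟨h2, _⟩, _⟩
          omega
        · have hc1 : C.card ≠ 1 := by
            intro hc
            obtain ⟨a, ha⟩ := card_eq_one.1 hc
            rw [ha, mem_singleton] at hv
            exact h1 (by rw [ha, hv])
          rw [if_neg h1, zero_add]
          simp only [hw]
          rw [if_neg hc1]
          by_cases h2 : 2 ≤ C.card ∧ Ind G C
          · rw [if_pos h2, if_pos ⟨h2, hv⟩]
          · rw [if_neg h2, if_neg (fun h => h2 h.1)]
      · rw [if_neg (fun h => hv (singleton_subset_iff.1 h)), if_neg, if_neg (fun h => hv h.2), add_zero]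
        intro h
        exact hv (by rw [h]; exact mem_singleton_self v)
    rw [sum_congr rfl fun C _ => h1 C, sum_add_distrib, sum_ite_eq' univ ({v} : Finset V),
      if_pos (mem_univ _), ← sum_filter, sum_const, nsmul_eq_mul]
    simp only [hN]
    ring
  refine ⟨w, hw0, ?_, ?_, hlam, κ, hκ0, ?_⟩
  · intro C hC
    simp only [hw]
    rw [if_neg, if_neg (fun h => hC h.2)]
    intro hc
    obtain ⟨a, ha⟩ := card_eq_one.1 hc
    apply hC
    intro x hx y hy
    rw [ha, mem_singleton] at hx hy
    rw [hx, hy]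
    exact G.loopless.irrefl a
  · simp [hw]
  · intro S hS hI
    by_cases h2 : 2 ≤ S.card
    · have h3 : w S = κ := by
        simp only [hw]
        rw [if_neg (by omega), if_pos ⟨h2, hI⟩]
      rw [← h3]
      unfold lam
      have h4 := single_le_sum (f := fun C => if S ⊆ C then w C else 0) (s := univ)
        (fun C _ => by
          beta_reduce
          split_ifs
          · exact hw0 C
          · exact le_rfl) (mem_univ S)
      simpa using h4
    · have h3 : S.card = 1 := by
        have := hS.card_pos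
        omega
      obtain ⟨v, hv⟩ := card_eq_one.1 h3
      rw [hv, hlam]
      exact hκm.trans (hm v)

/-- the product system: `∏ j, lam (projection of I to the coordinate j)` -/
noncomputable def rho0 (w : Finset V → ℝ) {n : ℕ} (I : Finset (Fin n → V)) : ℝ :=
  ∏ j, lam w (I.image (fun z => z j))

/-- the thinned product system -/
noncomputable def rho (w : Finset V → ℝ) {n : ℕ} (I : Finset (Fin n → V)) : ℝ :=
  (1 / 2) ^ (I.card - 1) * rho0 w I

/-- `rho0 I` is the total weight of the product sets containing `I`: `Finset.prod_univ_sum`,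
`I ⊆ ∏ C_j` iff every projection is contained in `C_j` -/
theorem rho0_eq (w : Finset V → ℝ) {n : ℕ} (I : Finset (Fin n → V)) :
    rho0 w I = ∑ C : Fin n → Finset V, if ∀ z ∈ I, ∀ j, z j ∈ C j then ∏ j, w (C j) else 0 := by
  unfold rho0 lam
  rw [prod_univ_sum, Fintype.piFinset_univ]
  refine sum_congr rfl fun C _ => ?_
  rw [prod_ite_zero]
  have h : (∀ j ∈ (univ : Finset (Fin n)), I.image (fun z => z j) ⊆ C j) ↔ ∀ z ∈ I, ∀ j, z j ∈ C j := by
    constructor
    · intro h z hz j
      exact h j (mem_univ j) (mem_image_of_mem _ hz)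
    · intro h j _ a ha
      obtain ⟨z, hz, rfl⟩ := mem_image.1 ha
      exact h z hz j
  by_cases hc : ∀ z ∈ I, ∀ j, z j ∈ C j
  · rw [if_pos hc, if_pos (h.2 hc)]
  · rw [if_neg hc, if_neg (fun h' => hc (h.1 h'))]

private theorem Rho_lam_nonneg {w : Finset V → ℝ} (hw : ∀ C, 0 ≤ w C) (S : Finset V) : 0 ≤ lam w S := by
  unfold lam
  refine sum_nonneg fun C _ => ?_
  split_ifs
  · exact hw C
  · exact le_rfl

theorem rho_sing (w : Finset V → ℝ) {n : ℕ} (z : Fin n → V) :
    rho w {z} = ∏ j, lam w {z j} := by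
  unfold rho rho0
  simp

theorem rho_nonneg {w : Finset V → ℝ} (hw : ∀ C, 0 ≤ w C) {n : ℕ} (I : Finset (Fin n → V)) :
    0 ≤ rho w I := by
  unfold rho rho0
  exact mul_nonneg (by positivity) (prod_nonneg fun j _ => Rho_lam_nonneg hw _)

theorem rho_indep {G : SimpleGraph V} {w : Finset V → ℝ} (hw : ∀ C, ¬ Ind G C → w C = 0) {n : ℕ}
    (I : Finset (Fin n → V)) : ∀ a ∈ I, ∀ b ∈ I, (powG G n).Adj a b → rho w I = 0 := by
  intro a ha b hb hab
  obtain ⟨hne, hadj⟩ := hab
  obtain ⟨j, hj⟩ := Function.ne_iff.1 hne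
  have hG : G.Adj (a j) (b j) := (hadj j).resolve_left hj
  unfold rho rho0
  rw [prod_eq_zero (mem_univ j), mul_zero]
  unfold lam
  refine sum_eq_zero fun C _ => ?_
  split_ifs with h
  · exact hw C fun hI => hI (a j) (h (mem_image_of_mem _ ha)) (b j) (h (mem_image_of_mem _ hb)) hG
  · rfl

/-- PROOF. `rho` is twice the sum over the product sets of `∏ w (C j)` times `(1/2) ^ card I` if `I` is contained; for
one product set the kernel is `(1/4) 1_C 1_C + (1/4) diag`. -/
theorem rho_pairs {w : Finset V → ℝ} (hw : ∀ C, 0 ≤ w C) {n : ℕ} :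
    PSD (fun x y : Fin n → V => rho w {x, y}) := by
  have h1 : (fun x y : Fin n → V => rho w {x, y}) = fun x y => ∑ C : Fin n → Finset V,
      (∏ j, w (C j)) * (1 / 2 * ((if ∀ j, x j ∈ C j then (1 : ℝ) else 0) * (if ∀ j, y j ∈ C j then (1 : ℝ) else 0)) +
        (if x = y then (1 / 2 * if ∀ j, x j ∈ C j then (1 : ℝ) else 0) else 0)) := by
    funext x y
    unfold rho
    rw [rho0_eq, mul_sum]
    refine sum_congr rfl fun C _ => ?_
    have h2 : (∀ z ∈ ({x, y} : Finset (Fin n → V)), ∀ j, z j ∈ C j) ↔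
        (∀ j, x j ∈ C j) ∧ (∀ j, y j ∈ C j) := by
      simp
    by_cases hx : ∀ j, x j ∈ C j
    · by_cases hy : ∀ j, y j ∈ C j
      · rw [if_pos (h2.2 ⟨hx, hy⟩), if_pos hx, if_pos hy]
        by_cases hxy : x = y
        · rw [if_pos hxy, hxy]
          simp
          ring
        · rw [if_neg hxy, card_pair hxy]
          norm_num
          ring
      · have hxy : x ≠ y := fun h => hy (h ▸ hx)
        rw [if_neg (fun h => hy (h2.1 h).2), if_neg hy, if_neg hxy]
        simp
    · rw [if_neg (fun h => hx (h2.1 h).1), if_neg hx]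
      simp
  rw [h1]
  refine PSD.sum _ fun C _ => PSD.smul (PSD.add (PSD.smul (PSD.rankOne _) (by norm_num)) (PSD.diag ?_))
    (prod_nonneg fun j _ => hw _)
  intro x
  split_ifs <;> norm_num

/-- PROOF. For a product set `C ⊇ Q` the matrix `(1/2) ^ ((Q ∪ x ∪ y).card - 1) 1[x, y ∈ C]` is
`(1/2) ^ (Q.card - 1) (γ γ^T + (1/4) Id_{C \ Q})`, `γ = 1` on `Q`, `1/2` on `C \ Q`, `0` outside `C`. Sum over `C` with
the weights (`rho0_eq`): the diagonal part is
`(1/2) ^ (Q.card + 1) rho0 (Q ∪ x)` on the rows `x ∉ Q`. -/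
theorem rho_psd {w : Finset V → ℝ} (hw : ∀ C, 0 ≤ w C) {n : ℕ} {Q : Finset (Fin n → V)}
    (hQ : Q.Nonempty) :
    PSD (fun x y : Fin n → V => rho w (insert x (insert y Q)) -
      if x = y ∧ x ∉ Q then (1 / 2) ^ (Q.card + 1) * rho0 w (insert x Q) else 0) := by
  have hQ1 : 1 ≤ Q.card := hQ.card_pos
  obtain ⟨m, hm⟩ : ∃ m, Q.card = m + 1 := ⟨Q.card - 1, by omega⟩
  have h1 : (fun x y : Fin n → V => rho w (insert x (insert y Q)) -
      if x = y ∧ x ∉ Q then (1 / 2) ^ (Q.card + 1) * rho0 w (insert x Q) else 0) =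
      fun x y => ∑ C : Fin n → Finset V,
        ((if ∀ z ∈ Q, ∀ j, z j ∈ C j then ∏ j, w (C j) else 0) * (1 / 2) ^ m) *
        ((if ∀ j, x j ∈ C j then (if x ∈ Q then (1 : ℝ) else 1 / 2) else 0) *
          (if ∀ j, y j ∈ C j then (if y ∈ Q then (1 : ℝ) else 1 / 2) else 0)) := by
    funext x y
    have h2 : (if x = y ∧ x ∉ Q then (1 / 2 : ℝ) ^ (Q.card + 1) * rho0 w (insert x Q) else 0) =
        ∑ C : Fin n → Finset V, if x = y ∧ x ∉ Q then (1 / 2) ^ (Q.card + 1) *
          (if ∀ z ∈ insert x Q, ∀ j, z j ∈ C j then ∏ j, w (C j) else 0) else 0 := by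
      by_cases h : x = y ∧ x ∉ Q
      · simp only [if_pos h]
        rw [rho0_eq, mul_sum]
      · simp only [if_neg h, sum_const_zero]
    rw [h2]
    unfold rho
    rw [rho0_eq, mul_sum, ← sum_sub_distrib]
    refine sum_congr rfl fun C _ => ?_
    have e1 : (∀ z ∈ insert x (insert y Q), ∀ j, z j ∈ C j) ↔
        (∀ j, x j ∈ C j) ∧ (∀ j, y j ∈ C j) ∧ ∀ z ∈ Q, ∀ j, z j ∈ C j := by
      simp only [mem_insert, forall_eq_or_imp]
    have e2 : (∀ z ∈ insert x Q, ∀ j, z j ∈ C j) ↔
        (∀ j, x j ∈ C j) ∧ ∀ z ∈ Q, ∀ j, z j ∈ C j := by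
      simp only [mem_insert, forall_eq_or_imp]
    simp only [e1, e2]
    by_cases hq : ∀ z ∈ Q, ∀ j, z j ∈ C j
    swap
    · simp only [eq_false hq, and_false, if_false, mul_zero, zero_mul, ite_self, sub_zero]
    by_cases hx : ∀ j, x j ∈ C j
    swap
    · simp only [eq_false hx, false_and, if_false, mul_zero, zero_mul, ite_self, sub_zero]
    by_cases hy : ∀ j, y j ∈ C j
    swap
    · have hxy : x ≠ y := fun h => hy (h ▸ hx)
      simp only [eq_false hy, false_and, and_false, if_false, mul_zero, sub_zero,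
        eq_false hxy]
    simp only [eq_true hq, eq_true hx, eq_true hy, and_self, if_true]
    by_cases hxQ : x ∈ Q
    · simp only [eq_true hxQ, not_true, and_false, if_false, if_true, sub_zero, one_mul]
      by_cases hyQ : y ∈ Q
      · rw [insert_eq_of_mem hyQ, insert_eq_of_mem hxQ, hm, if_pos hyQ]
        simp only [Nat.add_sub_cancel]
        ring
      · rw [insert_eq_of_mem (mem_insert_of_mem hxQ), card_insert_of_notMem hyQ, hm, if_neg hyQ]
        simp only [Nat.add_sub_cancel]
        ring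
    · by_cases hyQ : y ∈ Q
      · have hxy : x ≠ y := fun h => hxQ (h ▸ hyQ)
        rw [insert_eq_of_mem hyQ, card_insert_of_notMem hxQ, hm]
        simp only [eq_false hxy, eq_false hxQ, eq_true hyQ, false_and, if_false, if_true,
          Nat.add_sub_cancel]
        ring
      · by_cases hxy : x = y
        · rw [← hxy, insert_idem, card_insert_of_notMem hxQ, hm]
          simp only [eq_false hxQ, not_false_iff, and_self, if_true, if_false, Nat.add_sub_cancel]
          ring
        · have hxi : x ∉ insert y Q := by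
            rw [mem_insert]
            rintro (h | h)
            · exact hxy h
            · exact hxQ h
          rw [card_insert_of_notMem hxi, card_insert_of_notMem hyQ, hm]
          simp only [eq_false hxy, eq_false hxQ, eq_false hyQ, false_and, if_false,
            Nat.add_sub_cancel]
          ring
  rw [h1]
  refine PSD.sum _ fun C _ => PSD.smul (PSD.rankOne _) (mul_nonneg ?_ (by positivity))
  split_ifs
  · exact prod_nonneg fun j _ => hw _
  · exact le_rfl

/-- if `Q` and `x` agree off the coordinate `i` -/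
theorem rho0_fibre (w : Finset V → ℝ) {n : ℕ} (i : Fin n) {Q : Finset (Fin n → V)}
    {x : Fin n → V} (h : ∀ q ∈ Q, ∀ j, j ≠ i → q j = x j) :
    rho0 w (insert x Q) =
      (∏ j ∈ univ.erase i, lam w {x j}) * lam w (insert (x i) (Q.image (fun z => z i))) := by
  unfold rho0
  rw [← prod_erase_mul univ _ (mem_univ i), image_insert]
  congr 1
  refine prod_congr rfl fun j hj => ?_
  have hji : j ≠ i := (mem_erase.1 hj).1
  congr 1
  rw [image_insert]
  ext a
  rw [mem_insert, mem_singleton, mem_image]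
  constructor
  · rintro (h1 | ⟨q, hq, rfl⟩)
    · exact h1
    · exact h q hq j hji
  · intro h1
    exact Or.inl h1

end Pool.Agent.W_79d227_kp
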