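import Pool.Agent.W_79d227_kp.Coord
import Pool.Agent.W_79d227_kp.ExtC
import Pool.Agent.W_79d227_kp.Rho

set_option autoImplicit false

/-!
# The recursion, k ≥ 3
-/

namespace Pool.Agent.W_79d227_kp

open Finset

variable {V : Type} [Fintype V] [DecidableEq V]

private theorem Pow_congr {X : Type} [Fintype X] {K L : X → X → ℝ} (hK : PSD K)
    (h : ∀ x y, L x y = K x y) : PSD L := by
  have h1 : L = K := funext fun x => funext fun y => h x y
  rw [h1]
  exact hK

/-- One step. PROOF. `ν = (1 - ε) (1 / (n + 1)) ∑ i, extI .. i + ε rho w`, `ε = L / (n + 1 + L)`. For `Q ≠ ∅` the kernel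
is `(1 - ε) / (n + 1) ∑ i` (the PSD kernels of `extI_psd`) `+ ε` (the PSD kernel of `rho_psd`) plus the diagonal kernel
`ε (1/2)^(Q.card + 1) rho0 w (insert x Q) [x ∉ Q] - (1 - ε) / (n + 1) ∑ i, dfI .. i Q x`, which is
nonnegative: at most one `i` counts (`defI_unique`), and then `Q.card + 1 = k - 1`,
`rho0 w (insert x Q) ≥ (∏_{j ≠ i} d (x j)) κ` (`rho0_fibre`, `lam w {v} = d v`), `(1 - ε) / (n + 1) = 1 / (n + 1 + L)`
and `C ≤ L κ (1/2)^(k-1)`. The value: `(1 - ε) s t` since `rho_pairs`. -/
theorem pow_step {G : SimpleGraph V} {k n L : ℕ} (hk : 3 ≤ k) {s t C κ : ℝ} (hs : 0 < s)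
    (ht : 0 ≤ t) {d : V → ℝ} (hd : ∀ v, 0 < d v) {μ : Finset V → ℝ} (hμ : RSys G (k - 1) s d μ)
    (hC0 : 0 ≤ C) (hC : CBound G k μ C)
    {w : Finset V → ℝ} (hw : ∀ C, 0 ≤ w C) (hwI : ∀ C, ¬ Ind G C → w C = 0)
    (hwd : ∀ v, lam w {v} = d v) (hκ : ∀ S, S.Nonempty → Ind G S → κ ≤ lam w S)
    (hL : C * 2 ^ (k - 1) ≤ L * κ) {νn : Finset (Fin n → V) → ℝ}
    (hν : RSys (powG G n) k t (fun z => ∏ j, d (z j)) νn) :
    ∃ ν, RSys (powG G (n + 1)) k (s * t * ((n + 1) / (n + 1 + L))) (fun z => ∏ j, d (z j)) ν := by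
  classical
  have hL0 : (0 : ℝ) ≤ L := Nat.cast_nonneg _
  have hn0 : (0 : ℝ) ≤ n := Nat.cast_nonneg _
  have hden : (0 : ℝ) < n + 1 + L := by positivity
  set a : ℝ := (n + 1 + L : ℝ)⁻¹ with ha
  have ha0 : 0 < a := inv_pos.2 hden
  have haden : a * (n + 1 + L) = 1 := inv_mul_cancel₀ hden.ne'
  have hlam : ∀ S, 0 ≤ lam w S := by
    intro S
    unfold lam
    refine sum_nonneg fun C _ => ?_
    split_ifs
    · exact hw C
    · exact le_rfl
  have hrho0 : ∀ (I : Finset (Fin (n + 1) → V)), 0 ≤ rho0 w I := by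
    intro I
    unfold rho0
    exact prod_nonneg fun j _ => hlam _
  refine ⟨fun I => a * ∑ i, extI s μ νn i I + L * a * rho w I, ?_, ?_, ?_, ?_, ?_⟩
  · -- singletons
    intro z
    have h1 : ∀ i : Fin (n + 1), extI s μ νn i {z} = ∏ j, d (z j) := fun i =>
      extI_sing hs hμ hν i z
    have h2 : rho w {z} = ∏ j, d (z j) := by
      rw [rho_sing]
      exact prod_congr rfl fun j _ => hwd _
    simp only [h1, h2, sum_const, card_univ, Fintype.card_fin, nsmul_eq_mul]
    push_cast
    linear_combination (∏ j, d (z j)) * haden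
  · -- nonnegativity
    intro I
    exact add_nonneg (mul_nonneg ha0.le (sum_nonneg fun i _ => extI_nonneg hs hμ hν i I))
      (mul_nonneg (mul_nonneg hL0 ha0.le) (rho_nonneg hw I))
  · -- independence
    intro I x hx y hy hxy
    have h1 : ∑ i, extI s μ νn i I = 0 :=
      sum_eq_zero fun i _ => extI_indep hμ hν i I x hx y hy hxy
    have h2 : rho w I = 0 := rho_indep hwI I x hx y hy hxy
    simp only [h1, h2]
    ring
  · -- the rooted kernels
    intro Q hQ hQk
    have h1 : PSD (fun x y : Fin (n + 1) → V => a * ∑ i ∈ (univ : Finset (Fin (n + 1))),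
        (extI s μ νn i (insert x (insert y Q)) + if x = y then dfI G k C d i Q x else 0)) :=
      (PSD.sum univ fun i _ => extI_psd hk hs hμ hν hC i hQ hQk).smul ha0.le
    have h2 : PSD (fun x y : Fin (n + 1) → V => L * a * (rho w (insert x (insert y Q)) -
        if x = y ∧ x ∉ Q then (1 / 2) ^ (Q.card + 1) * rho0 w (insert x Q) else 0)) :=
      (rho_psd hw hQ).smul (mul_nonneg hL0 ha0.le)
    set g : (Fin (n + 1) → V) → ℝ := fun x =>
      L * a * (if x ∉ Q then (1 / 2) ^ (Q.card + 1) * rho0 w (insert x Q) else 0) -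
        a * ∑ i, dfI G k C d i Q x with hg
    have hg0 : ∀ x, 0 ≤ g x := by
      intro x
      by_cases hex : ∃ i, DefI G k i Q x
      · obtain ⟨i, hi⟩ := hex
        have hsum : ∑ j, dfI G k C d j Q x = C * ∏ j ∈ univ.erase i, d (x j) := by
          rw [sum_eq_single i]
          · unfold dfI
            rw [if_pos hi]
          · intro j _ hj
            unfold dfI
            rw [if_neg]
            intro hj'
            exact hj (defI_unique hQ hj' hi)
          · intro h
            exact absurd (mem_univ i) h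
        obtain ⟨hc1, hc2, hc3, hc4⟩ := hi
        have hfib : ∀ q ∈ Q, ∀ j, j ≠ i → q j = x j := by
          intro q hq j hj
          obtain ⟨j', rfl⟩ := Fin.exists_succAbove_eq hj
          exact congrFun (hc3 q hq) j'
        have hr := rho0_fibre w i hfib
        have hprod : ∏ j ∈ univ.erase i, lam w {x j} = ∏ j ∈ univ.erase i, d (x j) :=
          prod_congr rfl fun j _ => hwd _
        have hP : 0 ≤ ∏ j ∈ univ.erase i, d (x j) := prod_nonneg fun j _ => (hd _).le
        have hk1 : κ ≤ lam w (insert (x i) (Q.image (fun z => z i))) :=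
          hκ _ (insert_nonempty _ _) hc4
        have hcard : Q.card + 1 = k - 1 := by omega
        simp only [hg]
        rw [if_pos hc2, hsum, hr, hprod, hcard]
        set P : ℝ := ∏ j ∈ univ.erase i, d (x j) with hPdef
        set M : ℝ := lam w (insert (x i) (Q.image (fun z => z i))) with hMdef
        have h2p : (0 : ℝ) < 2 ^ (k - 1) := by positivity
        have hhalf : ((1 : ℝ) / 2) ^ (k - 1) * 2 ^ (k - 1) = 1 := by
          rw [← mul_pow]
          norm_num
        have hh0 : (0 : ℝ) < (1 / 2) ^ (k - 1) := by positivity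
        have h3 : C ≤ L * ((1 / 2) ^ (k - 1) * M) := by
          have h4 : C * 2 ^ (k - 1) ≤ L * M := hL.trans (mul_le_mul_of_nonneg_left hk1 hL0)
          have h5 := mul_le_mul_of_nonneg_left h4 hh0.le
          have h6 : ((1 : ℝ) / 2) ^ (k - 1) * (C * 2 ^ (k - 1)) = C := by
            linear_combination C * hhalf
          rw [h6] at h5
          linarith
        have h7 : a * (C * P) ≤ a * (L * ((1 / 2) ^ (k - 1) * M) * P) :=
          mul_le_mul_of_nonneg_left (mul_le_mul_of_nonneg_right h3 hP) ha0.le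
        linarith
      · have hsum : ∑ j, dfI G k C d j Q x = 0 := by
          refine sum_eq_zero fun j _ => ?_
          unfold dfI
          rw [if_neg]
          exact fun h => hex ⟨j, h⟩
        simp only [hg]
        rw [hsum, mul_zero, sub_zero]
        refine mul_nonneg (mul_nonneg hL0 ha0.le) ?_
        by_cases hxQ : x ∉ Q
        · rw [if_pos hxQ]
          exact mul_nonneg (by positivity) (hrho0 _)
        · rw [if_neg hxQ]
    have h3 := (h1.add h2).add (PSD.diag hg0)
    refine Pow_congr h3 ?_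
    intro x y
    simp only [sum_add_distrib]
    by_cases hxy : x = y
    · subst hxy
      simp only [if_true, true_and, hg]
      ring
    · simp only [hxy, if_false, false_and, sum_const_zero]
      ring
  · -- pairs
    have h1 : PSD (fun x y : Fin (n + 1) → V => a * ∑ i ∈ (univ : Finset (Fin (n + 1))),
        (extI s μ νn i {x, y} - s * t * (∏ j, d (x j)) * (∏ j, d (y j)))) :=
      (PSD.sum univ fun i _ => extI_top hs hμ hν i).smul ha0.le
    have h2 : PSD (fun x y : Fin (n + 1) → V => L * a * rho w {x, y}) :=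
      (rho_pairs hw).smul (mul_nonneg hL0 ha0.le)
    refine Pow_congr (h1.add h2) ?_
    intro x y
    simp only [sum_sub_distrib, sum_const, card_univ, Fintype.card_fin, nsmul_eq_mul]
    push_cast
    rw [div_eq_mul_inv, ← ha]
    ring

/-- PROOF. `exists_C`, `exists_weights`, `L = ⌈C 2^(k-1) / κ⌉`, induction on `n` with `pow_step`;
`(n + L).choose L * (n + 1 + L) = (n + 1 + L).choose L * (n + 1)`. For `n = 0` take the constant `1`. -/
theorem pow_system {G : SimpleGraph V} {k : ℕ} (hk : 3 ≤ k) {s : ℝ} (hs : 0 < s)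
    {d : V → ℝ} (hd : ∀ v, 0 < d v) {μ : Finset V → ℝ} (hμ : RSys G (k - 1) s d μ)
    (hbig : ∀ S, k ≤ S.card → μ S = 0)
    (hpos : ∀ S, S.Nonempty → S.card ≤ k - 1 → Ind G S → 0 < μ S) :
    ∃ L : ℕ, ∀ n : ℕ, ∃ ν, RSys (powG G n) k (s ^ n / ((n + L).choose L : ℕ))
      (fun z => ∏ j, d (z j)) ν := by
  classical
  obtain ⟨C, hC0, hC⟩ := exists_C hk hμ.nonneg hμ.indep hbig hpos
  obtain ⟨w, hw, hwI, _, hwd, κ, hκ0, hκ⟩ := exists_weights G hd
  refine ⟨⌈C * 2 ^ (k - 1) / κ⌉₊, ?_⟩
  set L := ⌈C * 2 ^ (k - 1) / κ⌉₊ with hLdef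
  have hL : C * 2 ^ (k - 1) ≤ L * κ := by
    have h := Nat.le_ceil (C * 2 ^ (k - 1) / κ)
    rw [div_le_iff₀ hκ0] at h
    exact h
  intro n
  induction n with
  | zero =>
    refine ⟨fun _ => 1, ?_, ?_, ?_, ?_, ?_⟩
    · intro v
      simp
    · intro I
      norm_num
    · intro I x _ y _ hxy
      exact absurd (Subsingleton.elim x y) hxy.1
    · intro Q _ _
      exact PSD.const zero_le_one
    · refine Pow_congr (PSD.const (le_refl (0 : ℝ))) ?_
      intro x y
      simp
  | succ n ih =>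
    obtain ⟨νn, hν⟩ := ih
    have ht : 0 ≤ s ^ n / ((n + L).choose L : ℕ) := by positivity
    obtain ⟨ν, h⟩ := pow_step hk hs ht hd hμ hC0 hC hw hwI hwd hκ hL hν
    refine ⟨ν, ?_⟩
    have he : s * (s ^ n / ((n + L).choose L : ℕ)) * (((n : ℝ) + 1) / (n + 1 + L)) =
        s ^ (n + 1) / ((n + 1 + L).choose L : ℕ) := by
      have h1 := Nat.choose_mul_succ_eq (n + L) L
      have h2 : n + L + 1 - L = n + 1 := by omega
      have h3 : n + L + 1 = n + 1 + L := by omega
      rw [h2, h3] at h1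
      have h4 : (((n + L).choose L : ℕ) : ℝ) * (n + 1 + L) =
          (((n + 1 + L).choose L : ℕ) : ℝ) * (n + 1) := by
        exact_mod_cast h1
      have h5 : (((n + L).choose L : ℕ) : ℝ) ≠ 0 := by
        have := Nat.choose_pos (Nat.le_add_left L n)
        exact_mod_cast this.ne'
      have h6 : (((n + 1 + L).choose L : ℕ) : ℝ) ≠ 0 := by
        have := Nat.choose_pos (Nat.le_add_left L (n + 1))
        exact_mod_cast this.ne'
      have h7 : (n + 1 + L : ℝ) ≠ 0 := by positivity
      have h8 : s * (s ^ n / ((n + L).choose L : ℕ)) * (((n : ℝ) + 1) / (n + 1 + L)) =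
          (s ^ (n + 1) * (n + 1)) / (((n + L).choose L : ℕ) * (n + 1 + L)) := by
        rw [pow_succ]
        field_simp
      have h9 : (n + 1 : ℝ) ≠ 0 := by positivity
      rw [h8, h4, mul_div_mul_right _ _ h9]
    rw [he] at h
    exact h

end Pool.Agent.W_79d227_kp
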