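import Pool.Agent.W_79d227_kp.Psd

set_option autoImplicit false

/-!
# Products and transport of feasible points
-/

namespace Pool.Agent.W_79d227_kp

open Finset

variable {V W : Type} [Fintype V] [DecidableEq V] [Fintype W] [DecidableEq W]

omit [Fintype V] [Fintype W] in
private theorem Prod_image (f : W → V) (Q : Finset W) (x y : Option W) :
    (Q ∪ x.toFinset ∪ y.toFinset).image f =
      Q.image f ∪ (x.map f).toFinset ∪ (y.map f).toFinset := by
  rw [Finset.image_union, Finset.image_union]
  cases x <;> cases y <;> simp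

/-- the matrices of a feasible point, pulled back along any map -/
private theorem Prod_psd {G : SimpleGraph V} {k : ℕ} {ν : Finset V → ℝ} (h : KPoint G k ν)
    (f : W → V) {Q : Finset W} (hQ : Q.card + 2 ≤ k) :
    PSD (fun x y : Option W => ν ((Q ∪ x.toFinset ∪ y.toFinset).image f)) := by
  have h1 : (Q.image f).card + 2 ≤ k :=
    (Nat.add_le_add_right Finset.card_image_le 2).trans hQ
  have h2 := (h.psd (Q.image f) h1).pull (Option.map f)
  have e : (fun x y : Option W => ν ((Q ∪ x.toFinset ∪ y.toFinset).image f)) =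
      fun x y : Option W => ν (Q.image f ∪ (x.map f).toFinset ∪ (y.map f).toFinset) := by
    funext x y
    rw [Prod_image]
  rw [e]
  exact h2

/-- `ν' I = ν (I.map e.symm)` -/
theorem kpoint_equiv {G : SimpleGraph V} {H : SimpleGraph W} (e : V ≃ W)
    (he : ∀ a b, G.Adj a b ↔ H.Adj (e a) (e b)) {k : ℕ} {ν : Finset V → ℝ} (h : KPoint G k ν) :
    ∃ ν' : Finset W → ℝ, KPoint H k ν' ∧ ∑ w, ν' {w} = ∑ v, ν {v} := by
  refine ⟨fun I => ν (I.image e.symm), ⟨?_, ?_, ?_, ?_⟩, ?_⟩
  · rw [Finset.image_empty]
    exact h.empty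
  · intro I
    exact h.nonneg _
  · intro I a ha b hb hab
    refine h.indep _ (e.symm a) (Finset.mem_image_of_mem _ ha) (e.symm b)
      (Finset.mem_image_of_mem _ hb) ?_
    rw [he, e.apply_symm_apply, e.apply_symm_apply]
    exact hab
  · intro Q hQ
    exact Prod_psd h e.symm hQ
  · have h1 : ∀ w : W, ν (({w} : Finset W).image e.symm) = ν {e.symm w} := by
      intro w
      rw [Finset.image_singleton]
    rw [Finset.sum_congr rfl fun w _ => h1 w]
    exact Equiv.sum_comp e.symm fun v => ν {v}

private def Prod_left {m n : ℕ} (z : Fin (m + n) → V) : Fin m → V := fun i => z (Fin.castAdd n i)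

private def Prod_right {m n : ℕ} (z : Fin (m + n) → V) : Fin n → V := fun i => z (Fin.natAdd m i)

/-- PROOF. `ν'' I = ν (left parts of I) * ν' (right parts of I)`; for a pair of words with the left
parts and the right parts `Fin.append`; Schur product of two kernels pulled back along
`Option (Fin (m + n) → V) → Option (Fin m → V)` and `.. → Option (Fin n → V)`. -/
theorem kpoint_prod {G : SimpleGraph V} {k m n : ℕ} {ν : Finset (Fin m → V) → ℝ}
    {ν' : Finset (Fin n → V) → ℝ} (h : KPoint (powG G m) k ν) (h' : KPoint (powG G n) k ν') :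
    ∃ ν'' : Finset (Fin (m + n) → V) → ℝ, KPoint (powG G (m + n)) k ν'' ∧
      ∑ z, ν'' {z} = (∑ z, ν {z}) * ∑ z, ν' {z} := by
  refine ⟨fun I => ν (I.image Prod_left) * ν' (I.image Prod_right), ⟨?_, ?_, ?_, ?_⟩, ?_⟩
  · rw [Finset.image_empty, Finset.image_empty, h.empty, h'.empty, mul_one]
  · intro I
    exact mul_nonneg (h.nonneg _) (h'.nonneg _)
  · intro I a ha b hb hab
    obtain ⟨hne, hc⟩ := hab
    by_cases hl : Prod_left a = Prod_left b
    · have hr : Prod_right a ≠ Prod_right b := by
        intro hr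
        apply hne
        funext i
        refine Fin.addCases (fun j => ?_) (fun j => ?_) i
        · exact congrFun hl j
        · exact congrFun hr j
      rw [h'.indep _ _ (Finset.mem_image_of_mem _ ha) _ (Finset.mem_image_of_mem _ hb)
        ⟨hr, fun i => hc (Fin.natAdd m i)⟩, mul_zero]
    · rw [h.indep _ _ (Finset.mem_image_of_mem _ ha) _ (Finset.mem_image_of_mem _ hb)
        ⟨hl, fun i => hc (Fin.castAdd n i)⟩, zero_mul]
  · intro Q hQ
    exact (Prod_psd h Prod_left hQ).mul (Prod_psd h' Prod_right hQ)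
  · have h1 : ∀ z : Fin (m + n) → V,
        ν (({z} : Finset (Fin (m + n) → V)).image Prod_left) *
          ν' (({z} : Finset (Fin (m + n) → V)).image Prod_right) =
        (fun p : (Fin m → V) × (Fin n → V) => ν {p.1} * ν' {p.2})
          ((Fin.appendEquiv m n).symm z) := by
      intro z
      rw [Finset.image_singleton, Finset.image_singleton]
      rfl
    rw [Finset.sum_congr rfl fun z _ => h1 z,
      Equiv.sum_comp (Fin.appendEquiv m n).symm
        (fun p : (Fin m → V) × (Fin n → V) => ν {p.1} * ν' {p.2}),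
      Fintype.sum_prod_type, Finset.sum_mul_sum]

/-- PROOF. `kpoint_equiv` with `(Fin n → Fin r → V) ≃ (Fin (n * r) → V)` (`Equiv.curry`, `finProdFinEquiv`). -/
theorem kpoint_pow_pow {G : SimpleGraph V} {k r n : ℕ} {ν : Finset (Fin n → Fin r → V) → ℝ}
    (h : KPoint (powG (powG G r) n) k ν) :
    ∃ ν' : Finset (Fin (n * r) → V) → ℝ, KPoint (powG G (n * r)) k ν' ∧
      ∑ z, ν' {z} = ∑ z, ν {z} := by
  let e : (Fin n → Fin r → V) ≃ (Fin (n * r) → V) :=
    (Equiv.curry (Fin n) (Fin r) V).symm.trans (Equiv.arrowCongr finProdFinEquiv (Equiv.refl V))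
  have hev : ∀ (a : Fin n → Fin r → V) (i : Fin n) (j : Fin r),
      e a (finProdFinEquiv (i, j)) = a i j := by
    intro a i j
    simp [e]
  refine kpoint_equiv e ?_ h
  intro a b
  constructor
  · rintro ⟨hne, hc⟩
    refine ⟨fun he => hne (e.injective he), fun l => ?_⟩
    obtain ⟨⟨i, j⟩, rfl⟩ := finProdFinEquiv.surjective l
    rw [hev, hev]
    rcases hc i with h1 | h1
    · exact Or.inl (congrFun h1 j)
    · exact h1.2 j
  · rintro ⟨hne, hc⟩
    refine ⟨fun he => hne (congrArg e he), fun i => ?_⟩
    by_cases hi : a i = b i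
    · exact Or.inl hi
    · refine Or.inr ⟨hi, fun j => ?_⟩
      have h1 := hc (finProdFinEquiv (i, j))
      rw [hev, hev] at h1
      exact h1

end Pool.Agent.W_79d227_kp
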