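import Pool.Agent.W_79d227_kp.Defs

set_option autoImplicit false

/-!
# Positive semidefinite kernels
-/

namespace Pool.Agent.W_79d227_kp

open Finset

variable {X Y : Type} [Fintype X] [Fintype Y]

private theorem Psd_iff {K : X → X → ℝ} : PSD K ↔ (Matrix.of K).PosSemidef := by
  rw [Matrix.posSemidef_iff_dotProduct_mulVec]
  have hform : ∀ c : X → ℝ, star c ⬝ᵥ ((Matrix.of K).mulVec c) = ∑ x, ∑ y, c x * c y * K x y := by
    intro c
    simp only [dotProduct, Matrix.mulVec, Matrix.of_apply, star_trivial, mul_sum]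
    refine sum_congr rfl fun x _ => sum_congr rfl fun y _ => ?_
    ring
  constructor
  · rintro ⟨h1, h2⟩
    refine ⟨?_, fun c => ?_⟩
    · ext i j
      simp only [Matrix.conjTranspose_apply, Matrix.of_apply, star_trivial]
      exact h1 j i
    · rw [hform]
      exact h2 c
  · rintro ⟨h1, h2⟩
    refine ⟨fun x y => ?_, fun c => ?_⟩
    · have := congrFun (congrFun h1 y) x
      simpa [Matrix.conjTranspose_apply] using this
    · rw [← hform]
      exact h2 c

theorem PSD.add {K L : X → X → ℝ} (hK : PSD K) (hL : PSD L) : PSD (fun x y => K x y + L x y) := by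
  refine ⟨fun x y => by beta_reduce; rw [hK.1 x y, hL.1 x y], fun c => ?_⟩
  have h := add_nonneg (hK.2 c) (hL.2 c)
  rw [← sum_add_distrib] at h
  refine h.trans (le_of_eq (sum_congr rfl fun x _ => ?_))
  rw [← sum_add_distrib]
  exact sum_congr rfl fun y _ => by ring

theorem PSD.smul {K : X → X → ℝ} (hK : PSD K) {a : ℝ} (ha : 0 ≤ a) :
    PSD (fun x y => a * K x y) := by
  refine ⟨fun x y => by beta_reduce; rw [hK.1 x y], fun c => ?_⟩
  have h := mul_nonneg ha (hK.2 c)
  rw [mul_sum] at h
  refine h.trans (le_of_eq (sum_congr rfl fun x _ => ?_))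
  rw [mul_sum]
  exact sum_congr rfl fun y _ => by ring

theorem PSD.sum {ι : Type} {K : ι → X → X → ℝ} (s : Finset ι) (hK : ∀ i ∈ s, PSD (K i)) :
    PSD (fun x y => ∑ i ∈ s, K i x y) := by
  classical
  induction s using Finset.induction_on with
  | empty =>
    refine ⟨fun x y => by simp, fun c => by simp⟩
  | insert i s hi ih =>
    have h1 := (hK i (mem_insert_self i s)).add (ih fun j hj => hK j (mem_insert_of_mem hj))
    simpa only [sum_insert hi] using h1

/-- Schur product theorem (`Matrix.PosSemidef.hadamard` in `Mathlib/Analysis/Matrix/Order.lean`) -/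
theorem PSD.mul {K L : X → X → ℝ} (hK : PSD K) (hL : PSD L) : PSD (fun x y => K x y * L x y) := by
  have h := (Psd_iff.mp hK).hadamard (Psd_iff.mp hL)
  exact Psd_iff.mpr h

theorem PSD.prod {ι : Type} {K : ι → X → X → ℝ} (s : Finset ι) (hK : ∀ i ∈ s, PSD (K i)) :
    PSD (fun x y => ∏ i ∈ s, K i x y) := by
  classical
  induction s using Finset.induction_on with
  | empty =>
    refine ⟨fun x y => by simp, fun c => ?_⟩
    simp only [prod_empty, mul_one]
    rw [← sum_mul_sum]
    exact mul_self_nonneg _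
  | insert i s hi ih =>
    have h1 := (hK i (mem_insert_self i s)).mul (ih fun j hj => hK j (mem_insert_of_mem hj))
    simpa only [prod_insert hi] using h1

/-- pull back along any map (collect the coefficients in the fibres of `f`) -/
theorem PSD.pull {K : X → X → ℝ} (hK : PSD K) (f : Y → X) : PSD (fun x y => K (f x) (f y)) := by
  have h := (Psd_iff.mp hK).submatrix f
  exact Psd_iff.mpr h

theorem PSD.rankOne (a : X → ℝ) : PSD (fun x y => a x * a y) := by
  refine ⟨fun x y => mul_comm _ _, fun c => ?_⟩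
  have h : ∑ x, ∑ y, c x * c y * (a x * a y) = (∑ x, c x * a x) * ∑ y, c y * a y := by
    rw [sum_mul_sum]
    exact sum_congr rfl fun x _ => sum_congr rfl fun y _ => by ring
  rw [h]
  exact mul_self_nonneg _

theorem PSD.const {a : ℝ} (ha : 0 ≤ a) : PSD (fun _ _ : X => a) := by
  have h := (PSD.rankOne (fun _ : X => (1 : ℝ))).smul ha
  simpa using h

theorem PSD.diag [DecidableEq X] {d : X → ℝ} (hd : ∀ x, 0 ≤ d x) :
    PSD (fun x y => if x = y then d x else 0) := by
  refine ⟨fun x y => ?_, fun c => ?_⟩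
  · beta_reduce
    by_cases h : x = y
    · rw [if_pos h, if_pos h.symm, h]
    · rw [if_neg h, if_neg (Ne.symm h)]
  · apply sum_nonneg
    intro x _
    rw [sum_eq_single x]
    · beta_reduce
      rw [if_pos rfl]
      exact mul_nonneg (mul_self_nonneg _) (hd x)
    · intro y _ hy
      beta_reduce
      rw [if_neg (Ne.symm hy), mul_zero]
    · intro h
      exact absurd (mem_univ x) h

/-- the total mass is nonnegative -/
theorem PSD.diag_nonneg {K : X → X → ℝ} (hK : PSD K) (x : X) : 0 ≤ K x x := by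
  have h := (hK.pull (fun _ : Unit => x)).2 (fun _ => 1)
  simpa using h

theorem PSD.sq_le {K : X → X → ℝ} (hK : PSD K) (x y : X) : K x y ^ 2 ≤ K x x * K y y := by
  have hq : ∀ a b : ℝ, 0 ≤ a * a * K x x + 2 * (a * b * K x y) + b * b * K y y := by
    intro a b
    have h := (hK.pull (fun t : Bool => if t then x else y)).2 (fun t => if t then a else b)
    simp only [Fintype.sum_bool, if_true, Bool.false_eq_true, if_false] at h
    have hs := hK.1 x y
    rw [← hs] at h
    linarith
  have hx := hK.diag_nonneg x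
  have hy := hK.diag_nonneg y
  rcases eq_or_lt_of_le hy with h0 | h0
  · have h1 : K x y = 0 := by
      by_contra hne
      have hpos : 0 < K x y ^ 2 := by positivity
      have h2 := hq 1 (-((K x x + 1) / (2 * K x y ^ 2)) * K x y)
      rw [← h0] at h2
      have h3 : 1 * (-((K x x + 1) / (2 * K x y ^ 2)) * K x y) * K x y = -((K x x + 1) / 2) := by
        field_simp
      rw [h3] at h2
      linarith
    rw [h1, ← h0]
    simp
  · have h2 := hq (K y y) (-K x y)
    have h3 : 0 ≤ K y y * (K x x * K y y - K x y ^ 2) := by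
      have : K y y * (K x x * K y y - K x y ^ 2) = K y y * K y y * K x x +
          2 * (K y y * -K x y * K x y) + -K x y * -K x y * K y y := by ring
      rw [this]
      exact h2
    have h4 := nonneg_of_mul_nonneg_right h3 h0
    linarith

/-- diagonally dominant kernels -/
theorem PSD.of_dom [DecidableEq X] {K : X → X → ℝ} (hs : ∀ x y, K x y = K y x)
    (h : ∀ x, ∑ y ∈ univ.erase x, |K x y| ≤ K x x) : PSD K := by
  refine ⟨hs, fun c => ?_⟩
  have h1 : ∀ x, c x * c x * K x x - ∑ y ∈ univ.erase x, |K x y| * ((c x ^ 2 + c y ^ 2) / 2) ≤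
      ∑ y, c x * c y * K x y := by
    intro x
    rw [← add_sum_erase univ (fun y => c x * c y * K x y) (mem_univ x)]
    have : -∑ y ∈ univ.erase x, |K x y| * ((c x ^ 2 + c y ^ 2) / 2) ≤
        ∑ y ∈ univ.erase x, c x * c y * K x y := by
      rw [← sum_neg_distrib]
      apply sum_le_sum
      intro y _
      have ha : |c x * c y| ≤ (c x ^ 2 + c y ^ 2) / 2 := by
        rw [abs_le]
        constructor <;> nlinarith [sq_nonneg (c x + c y), sq_nonneg (c x - c y)]
      have hb : -(|c x * c y| * |K x y|) ≤ c x * c y * K x y := by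
        rw [← abs_mul]
        exact neg_abs_le _
      have hc : |c x * c y| * |K x y| ≤ (c x ^ 2 + c y ^ 2) / 2 * |K x y| :=
        mul_le_mul_of_nonneg_right ha (abs_nonneg _)
      linarith
    linarith
  have h2 : ∑ x, (c x * c x * K x x - ∑ y ∈ univ.erase x, |K x y| * ((c x ^ 2 + c y ^ 2) / 2)) ≤
      ∑ x, ∑ y, c x * c y * K x y := sum_le_sum fun x _ => h1 x
  refine le_trans ?_ h2
  have h3 : ∑ x, ∑ y ∈ univ.erase x, |K x y| * c y ^ 2 = ∑ x, ∑ y ∈ univ.erase x, |K x y| * c x ^ 2 := by
    rw [sum_comm' (t' := univ) (s' := fun y => univ.erase y)]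
    · refine sum_congr rfl fun x _ => sum_congr rfl fun y _ => ?_
      rw [hs x y]
    · intro x y
      simp only [mem_univ, mem_erase, true_and, and_true]
      exact ne_comm
  have h4 : ∑ x, ∑ y ∈ univ.erase x, |K x y| * ((c x ^ 2 + c y ^ 2) / 2) =
      ∑ x, ∑ y ∈ univ.erase x, |K x y| * c x ^ 2 := by
    have h5 : ∑ x, ∑ y ∈ univ.erase x, |K x y| * ((c x ^ 2 + c y ^ 2) / 2) =
        (∑ x, ∑ y ∈ univ.erase x, |K x y| * c x ^ 2 + ∑ x, ∑ y ∈ univ.erase x, |K x y| * c y ^ 2) / 2 := by
      rw [← sum_add_distrib, sum_div]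
      refine sum_congr rfl fun x _ => ?_
      rw [← sum_add_distrib, sum_div]
      exact sum_congr rfl fun y _ => by ring
    rw [h5, h3]
    ring
  rw [sum_sub_distrib, h4, ← sum_sub_distrib]
  apply sum_nonneg
  intro x _
  rw [← sum_mul]
  have := mul_le_mul_of_nonneg_right (h x) (sq_nonneg (c x))
  nlinarith

end Pool.Agent.W_79d227_kp
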